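import Mathlib
import Pool.Agent.R960.Fam.Law
import Pool.Agent.R528.RM.BHFinal
import Pool.Agent.H305R2.MertensE

/-! # Sequential random models of the primes with a growing sieve by a set of primes (helper13)

The definitions and lemmas of this file are those of `Pool.Agent.N233.GM.Law` and `Pool.Agent.J6H13.GS.Law3`. -/

set_option autoImplicit false
set_option linter.unusedSectionVars false

namespace Pool.Agent.J6H13.UM

open Filter Asymptotics MeasureTheory
open Pool.Agent.R528.RM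
open scoped Topology

/-- `m` has no prime factor in `P` which is at most `z m` -/
def Rough (P : Set ℕ) (z : ℕ → ℕ) (m : ℕ) : Prop := ∀ q ∈ P, q.Prime → q ≤ z m → ¬ q ∣ m

open Classical in
/-- `∏ (1 - 1 / q)⁻¹`, `q ≤ x` prime, `q ∈ P` -/
noncomputable def W (P : Set ℕ) (x : ℕ) : ℝ :=
  ∏ q ∈ (Finset.Icc 1 x).filter (fun q => q.Prime ∧ q ∈ P), (1 - (q : ℝ)⁻¹)⁻¹

open Classical in
/-- the density, at most one -/
noncomputable def rho1 (P : Set ℕ) (z : ℕ → ℕ) (m : ℕ) : ℝ :=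
  if Rough P z m then min 1 (W P (z m) / Real.log m) else 0

lemma fac_ge (q : ℕ) (hq : q.Prime) : 1 ≤ (1 - (q : ℝ)⁻¹)⁻¹ := by
  have hq2 : (1 : ℝ) < q := by exact_mod_cast hq.one_lt
  have h1 : (q : ℝ)⁻¹ < 1 := inv_lt_one_of_one_lt₀ hq2
  have h2 : 0 < (q : ℝ)⁻¹ := by positivity
  rw [one_le_inv₀ (by linarith)]
  linarith

lemma W_ge (P : Set ℕ) (x : ℕ) : 1 ≤ W P x := by
  classical
  unfold W
  calc (1 : ℝ) = ∏ q ∈ (Finset.Icc 1 x).filter (fun q => q.Prime ∧ q ∈ P), (1 : ℝ) := by simp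
    _ ≤ _ := Finset.prod_le_prod (fun _ _ => zero_le_one)
      (fun q hq => fac_ge q (Finset.mem_filter.1 hq).2.1)

/-- the product over all primes -/
noncomputable def W0 (x : ℕ) : ℝ := ∏ q ∈ (Finset.Icc 1 x).filter Nat.Prime, (1 - (q : ℝ)⁻¹)⁻¹

lemma W_le (P : Set ℕ) (x : ℕ) : W P x ≤ W0 x := by
  classical
  unfold W W0
  refine Finset.prod_le_prod_of_subset_of_one_le ?_ ?_ ?_
  · intro q hq
    rw [Finset.mem_filter] at hq ⊢
    exact ⟨hq.1, hq.2.1⟩
  · intro q hq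
    exact zero_le_one.trans (fac_ge q (Finset.mem_filter.1 hq).2.1)
  · intro q hq _
    exact fac_ge q (Finset.mem_filter.1 hq).2

lemma W0_ge (x : ℕ) : 1 ≤ W0 x := (W_ge ∅ x).trans (W_le ∅ x)

lemma W0_mono {x y : ℕ} (h : x ≤ y) : W0 x ≤ W0 y := by
  unfold W0
  refine Finset.prod_le_prod_of_subset_of_one_le ?_ ?_ ?_
  · exact Finset.filter_subset_filter _ (Finset.Icc_subset_Icc_right h)
  · intro q hq
    exact zero_le_one.trans (fac_ge q (Finset.mem_filter.1 hq).2)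
  · intro q hq _
    exact fac_ge q (Finset.mem_filter.1 hq).2

lemma logN : Tendsto (fun n : ℕ => Real.log (n : ℝ)) atTop atTop :=
  Real.tendsto_log_atTop.comp tendsto_natCast_atTop_atTop

lemma W0_bound : ∃ C₁ C₂ : ℝ, 0 < C₁ ∧ 0 < C₂ ∧ ∀ x : ℕ, W0 x ≤ C₁ + C₂ * Real.log x := by
  have h := Pool.Agent.H305R2.mertens_three
  have h1 : ∀ᶠ N : ℕ in atTop, W0 N / Real.log N < Real.exp Real.eulerMascheroniConstant + 1 :=
    h.eventually (gt_mem_nhds (by linarith))
  obtain ⟨N0, hN0⟩ := eventually_atTop.1 (h1.and (logN.eventually_gt_atTop 0))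
  refine ⟨W0 N0, Real.exp Real.eulerMascheroniConstant + 1, lt_of_lt_of_le one_pos (W0_ge _), by positivity, ?_⟩
  intro x
  have hx0 : 0 ≤ Real.log (x : ℝ) := Real.log_natCast_nonneg x
  rcases le_total x N0 with h2 | h2
  · have := W0_mono h2
    have : 0 ≤ (Real.exp Real.eulerMascheroniConstant + 1) * Real.log x := by positivity
    linarith
  · obtain ⟨g1, g2⟩ := hN0 x h2
    rw [div_lt_iff₀ g2] at g1
    have := W0_ge N0
    linarith

/-- the densities stay below one when the sieve stays below a small power -/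
lemma W_small : ∃ δ : ℝ, 0 < δ ∧ ∀ (P : Set ℕ) (z : ℕ → ℕ), (∀ᶠ n : ℕ in atTop, (z n : ℝ) ≤ (n : ℝ) ^ δ) →
    ∀ᶠ n : ℕ in atTop, W P (z n) / Real.log n < 1 := by
  obtain ⟨C₁, C₂, hC₁, hC₂, hW⟩ := W0_bound
  refine ⟨1 / (2 * C₂), by positivity, fun P z hz => ?_⟩
  filter_upwards [hz, logN.eventually_gt_atTop (4 * C₁), eventually_gt_atTop 1] with n h1 h2 h3
  have hn : (1 : ℝ) < n := by exact_mod_cast h3
  have hL : 0 < Real.log n := Real.log_pos hn
  rw [div_lt_one hL]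
  have h4 : Real.log (z n) ≤ 1 / (2 * C₂) * Real.log n := by
    rcases Nat.eq_zero_or_pos (z n) with h5 | h5
    · rw [h5, Nat.cast_zero, Real.log_zero]
      positivity
    · have h6 : (0 : ℝ) < z n := by exact_mod_cast h5
      have h7 := Real.log_le_log h6 h1
      rwa [Real.log_rpow (by linarith)] at h7
  have h5 := (W_le P (z n)).trans (hW (z n))
  have h6 : C₂ * Real.log (z n) ≤ 1 / 2 * Real.log n := by
    calc C₂ * Real.log (z n) ≤ C₂ * (1 / (2 * C₂) * Real.log n) := by gcongr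
      _ = 1 / 2 * Real.log n := by field_simp
  linarith

/-- a sieve up to a power of the logarithm is short -/
lemma short (P : Set ℕ) (C : ℕ) (z : ℕ → ℕ) (hz : ∀ᶠ n : ℕ in atTop, (z n : ℝ) ≤ Real.log n ^ C) :
    ∀ᶠ n : ℕ in atTop, W P (z n) / Real.log n < 1 := by
  obtain ⟨δ, hδ, h⟩ := W_small
  apply h P z
  have h1 := (isLittleO_log_rpow_rpow_atTop (C : ℝ) hδ).bound (show (0 : ℝ) < 1 by norm_num)
  filter_upwards [hz, tendsto_natCast_atTop_atTop.eventually h1, logN.eventually_ge_atTop 1,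
    eventually_ge_atTop 1] with n g1 g2 g4 g5
  have hn0 : (0 : ℝ) < n := by exact_mod_cast g5
  rw [Real.norm_eq_abs, Real.norm_eq_abs, abs_of_nonneg (Real.rpow_nonneg (by linarith) _),
    abs_of_nonneg (Real.rpow_nonneg hn0.le _), Real.rpow_natCast, one_mul] at g2
  exact g1.trans g2

lemma rho1_bounds (P : Set ℕ) (z : ℕ → ℕ) (n : ℕ) : 0 ≤ rho1 P z n ∧ rho1 P z n ≤ 1 := by
  unfold rho1
  have h1 : 0 ≤ W P (z n) := zero_le_one.trans (W_ge _ _)
  have h2 := Real.log_natCast_nonneg n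
  split_ifs
  · exact ⟨by positivity, min_le_left _ _⟩
  · exact ⟨le_rfl, zero_le_one⟩

section

variable {Ω : Type} {m0 : MeasurableSpace Ω} {μ : Measure Ω} [IsProbabilityMeasure μ]
  {ℱ : Filtration ℕ m0} {A : ℕ → Set Ω}

/-- the densities follow the profile -/
lemma profile (P : Set ℕ) (z : ℕ → ℕ) (hV : ∀ᶠ n : ℕ in atTop, W P (z n) / Real.log n < 1)
    (hcop : ∀ n, ¬ Rough P z n → A n = ∅)
    (hd : ∀ᵐ ω ∂μ, Tendsto (fun n : ℕ => dens μ ℱ A n ω * Real.log n / W P (z (n + 1)))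
      (atTop ⊓ 𝓟 {n : ℕ | Rough P z (n + 1)}) (𝓝 1)) :
    ∀ᵐ ω ∂μ, ∀ ε : ℝ, 0 < ε → ∀ᶠ n : ℕ in atTop,
      |dens μ ℱ A n ω - rho1 P z (n + 1)| ≤ ε * rho1 P z (n + 1) := by
  have hz' : ∀ᵐ ω ∂μ, ∀ n, ¬ Rough P z (n + 1) → dens μ ℱ A n ω = 0 := by
    rw [ae_all_iff]
    intro n
    by_cases h : Rough P z (n + 1)
    · exact Eventually.of_forall fun ω h2 => absurd h h2
    · have h1 : dens μ ℱ A n =ᵐ[μ] 0 := by
        unfold dens
        rw [hcop _ h, Set.indicator_empty]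
        rw [show (fun _ : Ω => (0 : ℝ)) = 0 from rfl, condExp_zero]
      filter_upwards [h1] with ω hω _
      exact hω
  filter_upwards [hz', hd] with ω hω1 hω2 ε hε
  have h1 : Tendsto (fun n : ℕ => dens μ ℱ A n ω * Real.log ((n + 1 : ℕ) : ℝ) / W P (z (n + 1)))
      (atTop ⊓ 𝓟 {n : ℕ | Rough P z (n + 1)}) (𝓝 1) := by
    have h2 := hω2.mul (log_succ_ratio.mono_left (inf_le_left : atTop ⊓ 𝓟 {n : ℕ | Rough P z (n + 1)} ≤ atTop))
    rw [mul_one] at h2
    refine h2.congr' ?_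
    apply Filter.Eventually.filter_mono inf_le_left
    filter_upwards [eventually_gt_atTop 1] with n hn
    have hn' : (1 : ℝ) < n := by exact_mod_cast hn
    have hl : 0 < Real.log (n : ℝ) := Real.log_pos hn'
    field_simp
  have h2 := (Metric.tendsto_nhds.1 h1) ε hε
  rw [eventually_inf_principal] at h2
  have h3 : ∀ᶠ n : ℕ in atTop, W P (z (n + 1)) / Real.log ((n + 1 : ℕ) : ℝ) < 1 :=
    (tendsto_add_atTop_nat 1).eventually hV
  filter_upwards [h2, h3, eventually_gt_atTop 2] with n hn hn2 hn3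
  by_cases hcp : Rough P z (n + 1)
  · have h4 := hn hcp
    have hl : 0 < Real.log ((n + 1 : ℕ) : ℝ) := Real.log_pos (by push_cast; have : (2 : ℝ) < n := by exact_mod_cast hn3
                                                                 linarith)
    have hV : 0 < W P (z (n + 1)) := lt_of_lt_of_le one_pos (W_ge _ _)
    have e1 : rho1 P z (n + 1) = W P (z (n + 1)) / Real.log ((n + 1 : ℕ) : ℝ) := by
      unfold rho1
      rw [if_pos hcp, min_eq_right hn2.le]
    rw [e1]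
    rw [Real.dist_eq] at h4
    have e2 : dens μ ℱ A n ω - W P (z (n + 1)) / Real.log ((n + 1 : ℕ) : ℝ) =
        (dens μ ℱ A n ω * Real.log ((n + 1 : ℕ) : ℝ) / W P (z (n + 1)) - 1) *
          (W P (z (n + 1)) / Real.log ((n + 1 : ℕ) : ℝ)) := by
      field_simp
    have h5 : 0 < W P (z (n + 1)) / Real.log ((n + 1 : ℕ) : ℝ) := by positivity
    rw [e2, abs_mul, abs_of_pos h5]
    exact mul_le_mul_of_nonneg_right h4.le h5.le
  · rw [hω1 n hcp]
    have e1 : rho1 P z (n + 1) = 0 := by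
      unfold rho1
      rw [if_neg hcp]
    rw [e1]
    simp

end

/-! ### The families of systems of linear forms -/

/-- the values of the forms at `n` -/
def vals (L : Finset (ℕ × ℕ)) (n : ℕ) : Finset ℕ := L.image (fun f => f.1 * n + f.2)

/-- the arguments at which the values are different -/
def idx (k : ℕ) (a : Finset (ℕ × ℕ) × ℕ × ℕ) : Finset ℕ :=
  (Finset.Ioc a.2.1 a.2.2).filter (fun n => (vals a.1 n).card = k)

/-- the systems with coefficients at most `x` -/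
def Fam (k x : ℕ) : Finset (Finset (ℕ × ℕ) × ℕ × ℕ) :=
  (Finset.powersetCard k (Finset.Icc 1 x ×ˢ Finset.range (x + 1))) ×ˢ
    (({Nat.log 2 x} : Finset ℕ) ×ˢ Finset.range (x + 1))

lemma mem_Fam {k x : ℕ} {a : Finset (ℕ × ℕ) × ℕ × ℕ} : a ∈ Fam k x ↔
    (a.1.card = k ∧ ∀ f ∈ a.1, 1 ≤ f.1 ∧ f.1 ≤ x ∧ f.2 ≤ x) ∧ a.2.1 = Nat.log 2 x ∧ a.2.2 ≤ x := by
  unfold Fam
  rw [Finset.mem_product, Finset.mem_powersetCard, Finset.mem_product, Finset.mem_singleton, Finset.mem_range,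
    Nat.lt_succ_iff]
  constructor
  · rintro ⟨⟨h1, h2⟩, h3, h4⟩
    refine ⟨⟨h2, fun f hf => ?_⟩, h3, h4⟩
    have := h1 hf
    rw [Finset.mem_product, Finset.mem_Icc, Finset.mem_range] at this
    omega
  · rintro ⟨⟨h1, h2⟩, h3, h4⟩
    refine ⟨⟨fun f hf => ?_, h1⟩, h3, h4⟩
    have := h2 f hf
    rw [Finset.mem_product, Finset.mem_Icc, Finset.mem_range]
    omega

lemma Fam_card (k : ℕ) : ∀ᶠ x : ℕ in atTop, (Fam k x).card ≤ x ^ (3 * k + 2) := by
  filter_upwards [eventually_ge_atTop 2] with x hx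
  unfold Fam
  rw [Finset.card_product, Finset.card_powersetCard, Finset.card_product, Finset.card_product,
    Finset.card_singleton, Finset.card_range, Nat.card_Icc, one_mul, Nat.add_sub_cancel]
  have h1 : x + 1 ≤ x ^ 2 := by nlinarith
  calc (x * (x + 1)).choose k * (x + 1) ≤ (x * (x + 1)) ^ k * (x + 1) :=
        Nat.mul_le_mul_right _ (Nat.choose_le_pow _ _)
    _ ≤ (x * x ^ 2) ^ k * x ^ 2 := by gcongr
    _ = x ^ (3 * k + 2) := by ring

section

variable {Ω : Type} {m0 : MeasurableSpace Ω} {μ : Measure Ω} [IsProbabilityMeasure μ]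
  {ℱ : Filtration ℕ m0} {A : ℕ → Set Ω}

/-- the law for all systems -/
theorem law (hA : ∀ n, MeasurableSet[ℱ n] (A n)) (P : Set ℕ) (z : ℕ → ℕ)
    (hprof : ∀ᵐ ω ∂μ, ∀ ε : ℝ, 0 < ε → ∀ᶠ n : ℕ in atTop,
      |dens μ ℱ A n ω - rho1 P z (n + 1)| ≤ ε * rho1 P z (n + 1)) (k : ℕ) (hk : 0 < k) :
    ∀ᵐ ω ∂μ, ∀ ε : ℝ, 0 < ε → ∀ᶠ x : ℕ in atTop, ∀ a ∈ Fam k x,
      |∑ n ∈ idx k a, ∏ m ∈ vals a.1 n, In A m ω - ∑ n ∈ idx k a, ∏ m ∈ vals a.1 n, rho1 P z m| ≤
        2 * k * k * √(2 * ((3 * k + 2 : ℕ) + 2) * Real.log x * (idx k a).card) +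
          ε * ∑ n ∈ idx k a, ∏ m ∈ vals a.1 n, rho1 P z m := by
  classical
  exact Pool.Agent.R960.Fam.fam_law (μ := μ) (ℱ := ℱ) (A := A) hA (rho1_bounds P z) hprof k k (3 * k + 2) hk
    (Fam k) (Fam_card k) (idx k) (fun a n => vals a.1 n) (fun x => Nat.log 2 x)
    (tendsto_atTop.2 fun b => by
      filter_upwards [eventually_ge_atTop (2 ^ b)] with x hx
      exact Nat.le_log_of_pow_le (by norm_num) hx)
    (by
      filter_upwards with x a ha n hn
      unfold idx at hn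
      rw [Finset.mem_filter, Finset.mem_Ioc] at hn
      obtain ⟨⟨h1, h2⟩, h3, h4⟩ := mem_Fam.1 ha
      refine ⟨hn.2, fun m hm => ?_⟩
      unfold vals at hm
      obtain ⟨f, hf, rfl⟩ := Finset.mem_image.1 hm
      have h5 := (h2 f hf).1
      have h6 : n ≤ f.1 * n := Nat.le_mul_of_pos_left n (by omega)
      show Nat.log 2 x ≤ f.1 * n + f.2
      omega)
    (by
      filter_upwards with x a ha m
      obtain ⟨⟨h1, h2⟩, h3, h4⟩ := mem_Fam.1 ha
      have hsub : {i | i ∈ idx k a ∧ m ∈ vals a.1 i} ⊆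
          ((a.1.image (fun f => (m - f.2) / f.1) : Finset ℕ) : Set ℕ) := by
        rintro i ⟨-, hi⟩
        unfold vals at hi
        obtain ⟨f, hf, hfm⟩ := Finset.mem_image.1 hi
        rw [Finset.mem_coe, Finset.mem_image]
        refine ⟨f, hf, ?_⟩
        have h5 := (h2 f hf).1
        rw [← hfm, Nat.add_sub_cancel]
        exact Nat.mul_div_cancel_left i (by omega)
      refine (Set.ncard_le_ncard hsub (Finset.finite_toSet _)).trans ?_
      rw [Set.ncard_coe_finset, ← h1]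
      exact Finset.card_image_le)

end

end Pool.Agent.J6H13.UM
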