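import Mathlib
import Pool.Agent.J6H13.UM.Def
import Pool.Agent.N136.QL.FLC

/-! # A lower bound for the number of the arguments at which a system has no small prime factors (helper13) -/

set_option autoImplicit false
set_option linter.unusedSectionVars false

namespace Pool.Agent.J6H13.UM

open Finset

/-- the classes modulo `p` at which some form is divisible by `p` -/
def Om (L : Finset (ℕ × ℕ)) (p : ℕ) : Finset ℕ := (range p).filter (fun r => ∃ f ∈ L, p ∣ f.1 * r + f.2)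

lemma Om_card (L : Finset (ℕ × ℕ)) (p k : ℕ) (hp : p.Prime) (hL : L.card ≤ k)
    (hadm : ∃ n, ∀ f ∈ L, ¬ p ∣ f.1 * n + f.2) : (Om L p).card ≤ k := by
  classical
  obtain ⟨n, hn⟩ := hadm
  have hsub : Om L p ⊆ L.biUnion (fun f => (range p).filter (fun r => p ∣ f.1 * r + f.2)) := by
    intro r hr
    unfold Om at hr
    rw [mem_filter] at hr
    obtain ⟨h1, f, hf, h2⟩ := hr
    rw [mem_biUnion]
    exact ⟨f, hf, mem_filter.2 ⟨h1, h2⟩⟩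
  refine (card_le_card hsub).trans (card_biUnion_le.trans ?_)
  refine le_trans (sum_le_card_nsmul _ _ 1 ?_) (by simpa using hL)
  intro f hf
  rw [card_le_one]
  intro a ha b hb
  rw [mem_filter, mem_range] at ha hb
  have hpf : ¬ p ∣ f.1 := by
    intro h
    have h1 : p ∣ f.2 := (Nat.dvd_add_right (h.mul_right a)).1 ha.2
    exact hn f hf (dvd_add (h.mul_right n) h1)
  have hcop : Nat.Coprime p f.1 := (Nat.Prime.coprime_iff_not_dvd hp).2 hpf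
  have h1 : f.1 * a + f.2 ≡ f.1 * b + f.2 [MOD p] :=
    ((Nat.modEq_zero_iff_dvd).2 ha.2).trans ((Nat.modEq_zero_iff_dvd).2 hb.2).symm
  have h2 : f.1 * a ≡ f.1 * b [MOD p] := Nat.ModEq.add_right_cancel' _ h1
  have h3 : a ≡ b [MOD p] := Nat.ModEq.cancel_left_of_coprime hcop h2
  exact h3.eq_of_lt_of_lt ha.1 hb.1

/-- the exponent of the double power -/
def JJ (y : ℕ) : ℕ := Nat.log 2 (Nat.log 2 y) + 1

lemma JJ_lt (y : ℕ) : y < 2 ^ 2 ^ JJ y := by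
  have h1 : y < 2 ^ (Nat.log 2 y + 1) := Nat.lt_pow_succ_log_self (by norm_num) y
  have h2 : Nat.log 2 y + 1 ≤ 2 ^ JJ y := Nat.lt_pow_succ_log_self (by norm_num) _
  exact h1.trans_le (Nat.pow_le_pow_right (by norm_num) h2)

lemma JJ_le (y : ℕ) (hy : 2 ≤ y) : 2 ^ 2 ^ JJ y ≤ y ^ 2 := by
  have h0 : Nat.log 2 y ≠ 0 := by
    have : 0 < Nat.log 2 y := Nat.log_pos (by norm_num) hy
    omega
  have h3 : 2 ^ JJ y ≤ 2 * Nat.log 2 y := by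
    unfold JJ
    rw [pow_succ]
    have := Nat.pow_log_le_self 2 h0
    omega
  calc 2 ^ 2 ^ JJ y ≤ 2 ^ (2 * Nat.log 2 y) := Nat.pow_le_pow_right (by norm_num) h3
    _ = (2 ^ Nat.log 2 y) ^ 2 := by rw [← pow_mul, mul_comm]
    _ ≤ y ^ 2 := Nat.pow_le_pow_left (Nat.pow_log_le_self 2 (by omega)) 2

lemma J_le (J : ℕ) : J + 2 ≤ 2 ^ 2 ^ J := by
  have h1 : J + 1 ≤ 2 ^ J := Nat.lt_two_pow_self
  have h2 : J + 2 ≤ 2 ^ (J + 1) := Nat.lt_two_pow_self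
  exact h2.trans (Nat.pow_le_pow_right (by norm_num) h1)

/-- `(1 - t) ^ (2 k) ≤ 1 - k t` for `2 k t ≤ 1` -/
lemma bern (k : ℕ) (t : ℝ) (ht0 : 0 ≤ t) (ht1 : t ≤ 1) (h : 2 * k * t ≤ 1) : (1 - t) ^ (2 * k) ≤ 1 - k * t := by
  have h1 : (1 : ℝ) + (2 * k : ℕ) * t ≤ (1 + t) ^ (2 * k) := one_add_mul_le_pow (by linarith) _
  have h2 : (1 - t) ^ (2 * k) * (1 + t) ^ (2 * k) ≤ 1 := by
    rw [← mul_pow]
    apply pow_le_one₀
    · nlinarith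
    · nlinarith
  have h3 : 0 ≤ (1 - t) ^ (2 * k) := pow_nonneg (by linarith) _
  have hk : (0 : ℝ) ≤ k := Nat.cast_nonneg k
  have h4 : (1 - t) ^ (2 * k) * (1 + 2 * k * t) ≤ 1 := by
    push_cast at h1
    calc (1 - t) ^ (2 * k) * (1 + 2 * k * t) ≤ (1 - t) ^ (2 * k) * (1 + t) ^ (2 * k) := by gcongr
      _ ≤ 1 := h2
  have h5 : 1 ≤ (1 - k * t) * (1 + 2 * k * t) := by
    have : 0 ≤ (k * t) * (1 - 2 * k * t) := mul_nonneg (by positivity) (by linarith)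
    nlinarith
  have h6 : 0 < 1 + 2 * k * t := by positivity
  by_contra hcon
  push Not at hcon
  have : (1 - k * t) * (1 + 2 * k * t) < (1 - t) ^ (2 * k) * (1 + 2 * k * t) := by gcongr
  linarith

open Classical in
/-- the arguments at which no form has a prime factor in `P` up to `Z` -/
noncomputable def RR (P : Set ℕ) (L : Finset (ℕ × ℕ)) (M N Z : ℕ) : Finset ℕ :=
  (Ioc M N).filter (fun n => ∀ p ∈ P, p.Prime → p ≤ Z → ∀ f ∈ L, ¬ p ∣ f.1 * n + f.2)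

/-- the system is admissible with respect to the primes in `P` -/
def Adm (P : Set ℕ) (L : Finset (ℕ × ℕ)) : Prop :=
  ∀ p ∈ P, p.Prime → ∃ n, ∀ f ∈ L, ¬ p ∣ f.1 * n + f.2

theorem rough_low (k : ℕ) : ∃ (c : ℝ) (B : ℕ), 0 < c ∧ ∀ (P : Set ℕ) (L : Finset (ℕ × ℕ)), L.card ≤ k →
    Adm P L → ∀ M N Z : ℕ, M ≤ N → 2 ≤ Z →
    c * ((N : ℝ) - M) / W0 Z ^ (2 * k) - (Z : ℝ) ^ B ≤ (RR P L M N Z).card := by
  classical
  obtain ⟨C0, hC0, H⟩ := Pool.Agent.TH882.FL.fl1 k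
  obtain ⟨z0, hz0⟩ : ∃ z0, z0 = max C0 (2 * k) + 2 := ⟨_, rfl⟩
  have hz0C : C0 ≤ z0 := by have := le_max_left C0 (2 * k); omega
  have hz0k : 2 * k ≤ z0 := by have := le_max_right C0 (2 * k); omega
  have hz00 : 0 < z0 := by omega
  refine ⟨1 / (2 * (z0 : ℝ) ^ z0), 2 * (1 + C0 * C0 * 2), by positivity, ?_⟩
  intro P L hL hadm M N Z hMN hZ
  obtain ⟨J, hJ⟩ : ∃ J, J = JJ Z := ⟨_, rfl⟩
  have hJ1 : Z < 2 ^ 2 ^ J := hJ ▸ JJ_lt Z
  have hJ2 : 2 ^ 2 ^ J ≤ Z ^ 2 := hJ ▸ JJ_le Z hZ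
  obtain ⟨Q, hQ⟩ : ∃ Q : Finset ℕ, Q = (Icc 1 Z).filter (fun p => (p.Prime ∧ p ∈ P) ∧ p ≤ z0) := ⟨_, rfl⟩
  obtain ⟨T0, hT0⟩ : ∃ T0 : Finset ℕ, T0 = (Icc 1 Z).filter (fun p => (p.Prime ∧ p ∈ P) ∧ z0 < p) := ⟨_, rfl⟩
  have hQm : ∀ p, p ∈ Q ↔ p ≤ Z ∧ p.Prime ∧ p ∈ P ∧ p ≤ z0 := by
    intro p
    rw [hQ, mem_filter, mem_Icc]
    constructor
    · rintro ⟨⟨h1, h2⟩, ⟨h3, h4⟩, h5⟩
      exact ⟨h2, h3, h4, h5⟩
    · rintro ⟨h1, h2, h3, h4⟩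
      exact ⟨⟨h2.one_lt.le, h1⟩, ⟨h2, h3⟩, h4⟩
  have hTm : ∀ p, p ∈ T0 ↔ p ≤ Z ∧ p.Prime ∧ p ∈ P ∧ z0 < p := by
    intro p
    rw [hT0, mem_filter, mem_Icc]
    constructor
    · rintro ⟨⟨h1, h2⟩, ⟨h3, h4⟩, h5⟩
      exact ⟨h2, h3, h4, h5⟩
    · rintro ⟨h1, h2, h3, h4⟩
      exact ⟨⟨h2.one_lt.le, h1⟩, ⟨h2, h3⟩, h4⟩
  -- the class of the small primes
  have hch : ∀ p : ℕ, ∃ n : ℕ, p ∈ Q → ∀ f ∈ L, ¬ p ∣ f.1 * n + f.2 := by
    intro p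
    by_cases hp : p ∈ Q
    · obtain ⟨h1, h2, h3, h4⟩ := (hQm p).1 hp
      obtain ⟨n, hn⟩ := hadm p h3 h2
      exact ⟨n, fun _ => hn⟩
    · exact ⟨0, fun h => absurd h hp⟩
  choose nn hnn using hch
  obtain ⟨x0, hx0⟩ := Pool.Agent.N136.QL.fl_crt 1 0 (by norm_num) Q (fun p => nn p % p)
    (fun p hp => ⟨((hQm p).1 hp).2.1, by
      have := ((hQm p).1 hp).2.1.one_lt
      intro h
      have := Nat.le_of_dvd one_pos h
      omega⟩)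
    (fun p hp => Nat.mod_lt _ ((hQm p).1 hp).2.1.pos)
  obtain ⟨M0, hM0⟩ : ∃ M0, M0 = ∏ p ∈ Q, p := ⟨_, rfl⟩
  have hM0pos : 0 < M0 := by
    rw [hM0]
    exact Finset.prod_pos fun p hp => ((hQm p).1 hp).2.1.pos
  have hM0le : (M0 : ℝ) ≤ (z0 : ℝ) ^ z0 := by
    have h1 : M0 ≤ z0 ^ z0 := by
      rw [hM0]
      calc ∏ p ∈ Q, p ≤ ∏ p ∈ Q, z0 := Finset.prod_le_prod' fun p hp => ((hQm p).1 hp).2.2.2
        _ = z0 ^ Q.card := by rw [prod_const]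
        _ ≤ z0 ^ z0 := by
          apply Nat.pow_le_pow_right hz00
          have : Q ⊆ Icc 1 z0 := fun p hp => by
            obtain ⟨h1, h2, h3, h4⟩ := (hQm p).1 hp
            exact mem_Icc.2 ⟨h2.one_lt.le, h4⟩
          simpa using card_le_card this
    exact_mod_cast h1
  rw [one_mul, ← hM0] at hx0
  obtain ⟨ν, hν⟩ : ∃ ν, ν = x0 % M0 := ⟨_, rfl⟩
  have hνlt : ν < M0 := hν ▸ Nat.mod_lt _ hM0pos
  have hTM : ∀ p ∈ T0, p.Prime ∧ ¬ p ∣ M0 := by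
    intro p hp
    obtain ⟨h1, h2, h3, h4⟩ := (hTm p).1 hp
    refine ⟨h2, fun h => ?_⟩
    rw [hM0, Prime.dvd_finset_prod_iff h2.prime] at h
    obtain ⟨q, hq, hpq⟩ := h
    obtain ⟨g1, g2, g3, g4⟩ := (hQm q).1 hq
    have := (Nat.prime_dvd_prime_iff_eq h2 g2).1 hpq
    omega
  have hOml : ∀ p, ∀ r ∈ Om L p, r < p := by
    intro p r hr
    unfold Om at hr
    exact mem_range.1 (mem_filter.1 hr).1
  have hNM : (0 : ℝ) ≤ (N : ℝ) - M := by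
    have : (M : ℝ) ≤ N := by exact_mod_cast hMN
    linarith
  have hM0R : (0 : ℝ) < M0 := by exact_mod_cast hM0pos
  have hfl := H C0 J z0 T0 (Om L) le_rfl hz0C
    (fun p hp => ⟨((hTm p).1 hp).2.1, ((hTm p).1 hp).2.2.2, (((hTm p).1 hp).1.trans hJ1.le)⟩)
    (fun p hp => Om_card L p k ((hTm p).1 hp).2.1 hL (hadm p ((hTm p).1 hp).2.2.1 ((hTm p).1 hp).2.1))
    ((Ioc M N).filter (fun n => n % M0 = ν)) (((N : ℝ) - M) / M0) (by positivity)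
    (fun T hT c' hc' => by
      have h1 := Pool.Agent.N136.QL.fl_classcount M N M0 ν hνlt hMN T c'
        (fun p hp => hTM p (hT hp)) (fun p hp => hOml p _ (hc' p hp))
      have e1 : ((N : ℝ) - M) / M0 / ∏ p ∈ T, (p : ℝ) = ((N : ℝ) - M) / M0 * ∏ p ∈ T, (1 / (p : ℝ)) := by
        rw [Finset.prod_div_distrib, Finset.prod_const_one]
        ring
      rw [e1]
      exact h1)
  -- the sifted set
  have hsub : (((Ioc M N).filter (fun n => n % M0 = ν)).filter (fun n => ∀ p ∈ T0, n % p ∉ Om L p)) ⊆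
      RR P L M N Z := by
    intro n hn
    rw [mem_filter, mem_filter] at hn
    obtain ⟨⟨h1, h2⟩, h3⟩ := hn
    unfold RR
    rw [mem_filter]
    refine ⟨h1, fun p hpP hp hpZ f hf hd => ?_⟩
    rcases le_or_gt p z0 with h4 | h4
    · have hpQ : p ∈ Q := (hQm p).2 ⟨hpZ, hp, hpP, h4⟩
      have h5 : n ≡ x0 [MOD M0] := by
        unfold Nat.ModEq
        rw [h2, hν]
      have h6 := ((hx0 n).2 h5).2 p hpQ
      have h7 : n ≡ nn p [MOD p] := h6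
      have h8 : f.1 * n + f.2 ≡ f.1 * nn p + f.2 [MOD p] := Nat.ModEq.add_right _ (Nat.ModEq.mul_left _ h7)
      exact hnn p hpQ f hf ((Nat.modEq_zero_iff_dvd).1 (h8.symm.trans ((Nat.modEq_zero_iff_dvd).2 hd)))
    · have hpT : p ∈ T0 := (hTm p).2 ⟨hpZ, hp, hpP, h4⟩
      apply h3 p hpT
      unfold Om
      rw [mem_filter, mem_range]
      refine ⟨Nat.mod_lt _ hp.pos, f, hf, ?_⟩
      have h8 : f.1 * n + f.2 ≡ f.1 * (n % p) + f.2 [MOD p] :=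
        Nat.ModEq.add_right _ (Nat.ModEq.mul_left _ (Nat.mod_modEq n p).symm)
      exact (Nat.modEq_zero_iff_dvd).1 (h8.symm.trans ((Nat.modEq_zero_iff_dvd).2 hd))
  have hcard : ((((((Ioc M N).filter (fun n => n % M0 = ν)).filter (fun n => ∀ p ∈ T0, n % p ∉ Om L p))).card : ℕ) : ℝ) ≤
      (RR P L M N Z).card := by exact_mod_cast card_le_card hsub
  refine le_trans ?_ hcard
  -- the product
  obtain ⟨V, hV⟩ : ∃ V : ℝ, V = ∏ p ∈ T0, (1 - ((Om L p).card : ℝ) / p) := ⟨_, rfl⟩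
  rw [← hV] at hfl
  have hW0 : 0 < W0 Z := lt_of_lt_of_le one_pos (W0_ge Z)
  have hVlow : 1 / W0 Z ^ (2 * k) ≤ V := by
    have h1 : (∏ p ∈ T0, (1 - (p : ℝ)⁻¹)) ^ (2 * k) ≤ V := by
      rw [hV, ← Finset.prod_pow]
      apply Finset.prod_le_prod
      · intro p hp
        obtain ⟨g1, g2, g3, g4⟩ := (hTm p).1 hp
        have : (1 : ℝ) < p := by exact_mod_cast g2.one_lt
        have : (p : ℝ)⁻¹ < 1 := inv_lt_one_of_one_lt₀ this
        exact pow_nonneg (by linarith) _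
      · intro p hp
        obtain ⟨g1, g2, g3, g4⟩ := (hTm p).1 hp
        have hp1 : (1 : ℝ) < p := by exact_mod_cast g2.one_lt
        have hp0 : (0 : ℝ) < p := by linarith
        have h5 : (p : ℝ)⁻¹ < 1 := inv_lt_one_of_one_lt₀ hp1
        have hpk : (2 : ℝ) * k ≤ p := by exact_mod_cast (by omega : 2 * k ≤ p)
        refine (bern k (p : ℝ)⁻¹ (by positivity) h5.le ?_).trans ?_
        · rw [← div_eq_mul_inv, div_le_one hp0]
          exact hpk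
        · have h6 : ((Om L p).card : ℝ) ≤ k := by
            exact_mod_cast Om_card L p k g2 hL (hadm p g3 g2)
          rw [div_eq_mul_inv]
          have : ((Om L p).card : ℝ) * (p : ℝ)⁻¹ ≤ k * (p : ℝ)⁻¹ := by gcongr
          linarith
    refine le_trans ?_ h1
    have h2 : ∏ p ∈ T0, (1 - (p : ℝ)⁻¹)⁻¹ ≤ W0 Z := by
      unfold W0
      refine Finset.prod_le_prod_of_subset_of_one_le ?_ ?_ ?_
      · intro p hp
        obtain ⟨g1, g2, g3, g4⟩ := (hTm p).1 hp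
        exact mem_filter.2 ⟨mem_Icc.2 ⟨g2.one_lt.le, g1⟩, g2⟩
      · intro p hp
        exact zero_le_one.trans (fac_ge p ((hTm p).1 hp).2.1)
      · intro p hp _
        exact fac_ge p (mem_filter.1 hp).2
    have h3 : 0 < ∏ p ∈ T0, (1 - (p : ℝ)⁻¹) := by
      apply Finset.prod_pos
      intro p hp
      have : (1 : ℝ) < p := by exact_mod_cast ((hTm p).1 hp).2.1.one_lt
      have : (p : ℝ)⁻¹ < 1 := inv_lt_one_of_one_lt₀ this
      linarith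
    rw [Finset.prod_inv_distrib] at h2
    rw [one_div, ← inv_pow]
    apply pow_le_pow_left₀ (by positivity)
    rw [inv_le_comm₀ hW0 h3]
    exact h2
  have hV0 : 0 < V := lt_of_lt_of_le (by positivity) hVlow
  have hA0 : 0 ≤ ((N : ℝ) - M) / M0 * V := by positivity
  have hpow : (1 / 2 : ℝ) ^ C0 ≤ 1 / 2 := by
    calc (1 / 2 : ℝ) ^ C0 ≤ (1 / 2) ^ 1 := pow_le_pow_of_le_one (by norm_num) (by norm_num) hC0
      _ = 1 / 2 := pow_one _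
  have herr : ((J : ℝ) + 2) * (((2 ^ 2 ^ J : ℕ) : ℝ) ^ (C0 * C0)) ^ 2 ≤ (Z : ℝ) ^ (2 * (1 + C0 * C0 * 2)) := by
    have h1 : ((J : ℝ) + 2) ≤ ((2 ^ 2 ^ J : ℕ) : ℝ) := by exact_mod_cast J_le J
    have h2 : ((2 ^ 2 ^ J : ℕ) : ℝ) ≤ (Z : ℝ) ^ 2 := by exact_mod_cast hJ2
    calc ((J : ℝ) + 2) * (((2 ^ 2 ^ J : ℕ) : ℝ) ^ (C0 * C0)) ^ 2
        ≤ ((2 ^ 2 ^ J : ℕ) : ℝ) * (((2 ^ 2 ^ J : ℕ) : ℝ) ^ (C0 * C0)) ^ 2 := by gcongr
      _ = ((2 ^ 2 ^ J : ℕ) : ℝ) ^ (1 + C0 * C0 * 2) := by ring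
      _ ≤ ((Z : ℝ) ^ 2) ^ (1 + C0 * C0 * 2) := by gcongr
      _ = _ := by rw [← pow_mul]
  have hlow : 1 / (2 * (z0 : ℝ) ^ z0) * ((N : ℝ) - M) / W0 Z ^ (2 * k) ≤ 1 / 2 * (((N : ℝ) - M) / M0 * V) := by
    calc 1 / (2 * (z0 : ℝ) ^ z0) * ((N : ℝ) - M) / W0 Z ^ (2 * k)
        = 1 / 2 * (((N : ℝ) - M) / (z0 : ℝ) ^ z0 * (1 / W0 Z ^ (2 * k))) := by
          field_simp
      _ ≤ 1 / 2 * (((N : ℝ) - M) / M0 * V) := by gcongr
  have h9 := (abs_le.1 hfl).1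
  have h10 : (1 / 2 : ℝ) ^ C0 * (((N : ℝ) - M) / M0 * V) ≤ 1 / 2 * (((N : ℝ) - M) / M0 * V) := by gcongr
  linarith

end Pool.Agent.J6H13.UM
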