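import Mathlib
import Pool.Agent.J6H13.UM.Sieve

/-! # Many chosen values of every admissible system (helper13) -/

set_option autoImplicit false
set_option linter.unusedSectionVars false

namespace Pool.Agent.J6H13.UM

open Filter MeasureTheory
open Pool.Agent.R528.RM
open scoped Topology

/-- few arguments with equal values -/
lemma few_coll (L : Finset (ℕ × ℕ)) (S : Finset ℕ) :
    (S.filter (fun n => (vals L n).card ≠ L.card)).card ≤ L.card ^ 2 := by
  classical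
  have hsub : S.filter (fun n => (vals L n).card ≠ L.card) ⊆
      (L ×ˢ L).biUnion (fun fg => S.filter (fun n => fg.1 ≠ fg.2 ∧ fg.1.1 * n + fg.1.2 = fg.2.1 * n + fg.2.2)) := by
    intro n hn
    rw [Finset.mem_filter] at hn
    obtain ⟨h1, h2⟩ := hn
    unfold vals at h2
    rw [Ne, Finset.card_image_iff] at h2
    unfold Set.InjOn at h2
    push Not at h2
    obtain ⟨f, hf, g, hg, hfg, hne⟩ := h2
    rw [Finset.mem_biUnion]
    exact ⟨(f, g), Finset.mem_product.2 ⟨hf, hg⟩, Finset.mem_filter.2 ⟨h1, hne, hfg⟩⟩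
  refine (Finset.card_le_card hsub).trans (Finset.card_biUnion_le.trans ?_)
  refine (Finset.sum_le_card_nsmul _ _ 1 ?_).trans (by rw [Finset.card_product]; simp [pow_two])
  rintro ⟨f, g⟩ -
  rw [Finset.card_le_one]
  intro a ha b hb
  rw [Finset.mem_filter] at ha hb
  obtain ⟨-, hne, ha⟩ := ha
  obtain ⟨-, -, hb⟩ := hb
  simp only at ha hb hne
  have ha' : (f.1 : ℤ) * a + f.2 = g.1 * a + g.2 := by exact_mod_cast ha
  have hb' : (f.1 : ℤ) * b + f.2 = g.1 * b + g.2 := by exact_mod_cast hb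
  have h3 : ((f.1 : ℤ) - g.1) * (a - b) = 0 := by linear_combination ha' - hb'
  rcases mul_eq_zero.1 h3 with h4 | h4
  · exfalso
    apply hne
    have h5 : f.1 = g.1 := by omega
    have h6 : f.2 = g.2 := by
      rw [h5] at ha'
      omega
    exact Prod.ext h5 h6
  · omega

lemma num (k B : ℕ) (c C3 : ℝ) (hc : 0 < c) (hC3 : 0 < C3) : ∃ K : ℝ, ∀ (u N M w y l : ℝ), K ≤ u →
    1 ≤ y → y ≤ u → 1 ≤ l → l ≤ u → M ≤ u → 1 ≤ w → w ≤ C3 * u → u ^ (8 * k + 10 + B) ≤ N →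
    N / u ^ (8 * k + 10 + B) ≤
      (1 / 2) * ((c * (N - M) / w ^ (2 * k) - y ^ B - (k : ℝ) ^ 2) * (1 / (3 * l)) ^ k) -
        2 * k * k * √(2 * ((3 * k + 2 : ℕ) + 2) * l * N) := by
  refine ⟨max (max 4 (2 * (k : ℝ) ^ 2)) (max (2 * C3 ^ (2 * k) / c) (8 * (k : ℝ) ^ 4 * (3 * k + 4))), ?_⟩
  intro u N M w y l hu hy hyu hl hlu hMu hw hwu hN
  have hu4 : 4 ≤ u := ((le_max_left _ _).trans (le_max_left _ _)).trans hu
  have huk : 2 * (k : ℝ) ^ 2 ≤ u := ((le_max_right _ _).trans (le_max_left _ _)).trans hu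
  have huc : 2 * C3 ^ (2 * k) / c ≤ u := ((le_max_left _ _).trans (le_max_right _ _)).trans hu
  have hue : 8 * (k : ℝ) ^ 4 * (3 * k + 4) ≤ u := ((le_max_right _ _).trans (le_max_right _ _)).trans hu
  have hu0 : 0 < u := by linarith
  have hu1 : 1 ≤ u := by linarith
  have hk0 : (0 : ℝ) ≤ k := Nat.cast_nonneg k
  have hpowm : ∀ i : ℕ, i ≤ 8 * k + 10 + B → u ^ i ≤ N := fun i hi => (pow_le_pow_right₀ hu1 hi).trans hN
  have hN0 : 0 < N := lt_of_lt_of_le (by positivity) hN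
  -- N - M
  have h1 : N / 2 ≤ N - M := by
    have h2 := hpowm 2 (by omega)
    nlinarith
  -- the main term
  have h2 : N / u ^ (2 * k + 1) ≤ c * (N - M) / w ^ (2 * k) := by
    have e1 : N / u ^ (2 * k + 1) ≤ c * (N / 2) / (C3 * u) ^ (2 * k) := by
      rw [mul_pow, div_le_div_iff₀ (by positivity) (by positivity), pow_succ]
      have h3 : 2 * C3 ^ (2 * k) ≤ u * c := by rwa [div_le_iff₀ hc] at huc
      have h4 : 0 ≤ N * u ^ (2 * k) := by positivity
      nlinarith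
    refine e1.trans ?_
    have hw0 : 0 < w := by linarith
    have hcn : 0 ≤ c * (N - M) := mul_nonneg hc.le (by linarith)
    gcongr
  have h3 : y ^ B + (k : ℝ) ^ 2 ≤ u ^ (B + 1) := by
    have g1 : y ^ B ≤ u ^ B := pow_le_pow_left₀ (by linarith) hyu B
    have g2 : (1 : ℝ) ≤ u ^ B := one_le_pow₀ hu1
    rw [pow_succ u B]
    nlinarith
  have h4 : u ^ (B + 1) ≤ N / (2 * u ^ (2 * k + 1)) := by
    rw [le_div_iff₀ (by positivity)]
    have g1 := hpowm (B + 1 + (2 * k + 1) + 1) (by omega)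
    have g2 : u ^ (B + 1 + (2 * k + 1) + 1) = u ^ (B + 1) * u ^ (2 * k + 1) * u := by ring
    rw [g2] at g1
    have g3 : 0 < u ^ (B + 1) * u ^ (2 * k + 1) := by positivity
    nlinarith
  have h5 : N / u ^ (2 * k + 2) ≤ c * (N - M) / w ^ (2 * k) - y ^ B - (k : ℝ) ^ 2 := by
    have g1 : N / u ^ (2 * k + 2) ≤ N / (2 * u ^ (2 * k + 1)) := by
      apply div_le_div_of_nonneg_left hN0.le (by positivity)
      rw [show 2 * k + 2 = (2 * k + 1) + 1 by ring, pow_succ u (2 * k + 1)]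
      have : 0 < u ^ (2 * k + 1) := by positivity
      nlinarith
    have g2 : N / u ^ (2 * k + 1) = N / (2 * u ^ (2 * k + 1)) + N / (2 * u ^ (2 * k + 1)) := by
      field_simp
      ring
    linarith
  have h6 : 1 / u ^ (2 * k) ≤ (1 / (3 * l)) ^ k := by
    rw [pow_mul, ← one_div_pow]
    apply pow_le_pow_left₀ (by positivity)
    apply one_div_le_one_div_of_le (by positivity)
    nlinarith
  have h7 : N / u ^ (4 * k + 3) ≤
      (1 / 2) * ((c * (N - M) / w ^ (2 * k) - y ^ B - (k : ℝ) ^ 2) * (1 / (3 * l)) ^ k) := by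
    have g1 : N / u ^ (2 * k + 2) * (1 / u ^ (2 * k)) ≤
        (c * (N - M) / w ^ (2 * k) - y ^ B - (k : ℝ) ^ 2) * (1 / (3 * l)) ^ k :=
      mul_le_mul h5 h6 (by positivity) ((by positivity : (0 : ℝ) ≤ N / u ^ (2 * k + 2)).trans h5)
    have g2 : N / u ^ (4 * k + 3) ≤ 1 / 2 * (N / u ^ (2 * k + 2) * (1 / u ^ (2 * k))) := by
      have e1 : u ^ (4 * k + 3) = u ^ (2 * k + 2) * u ^ (2 * k) * u := by ring
      rw [e1]
      have e2 : 1 / 2 * (N / u ^ (2 * k + 2) * (1 / u ^ (2 * k))) = N / (u ^ (2 * k + 2) * u ^ (2 * k) * 2) := by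
        field_simp
      rw [e2]
      apply div_le_div_of_nonneg_left hN0.le (by positivity)
      gcongr
      linarith
    linarith
  have h8 : 2 * k * k * √(2 * ((3 * k + 2 : ℕ) + 2) * l * N) ≤ u * √N := by
    have e1 : 2 * (k : ℝ) * k * √(2 * ((3 * k + 2 : ℕ) + 2) * l * N) =
        √((2 * (k : ℝ) * k) ^ 2 * (2 * ((3 * k + 2 : ℕ) + 2) * l * N)) := by
      conv_rhs => rw [Real.sqrt_mul (by positivity), Real.sqrt_sq (by positivity)]
    have e2 : u * √N = √(u ^ 2 * N) := by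
      rw [Real.sqrt_mul (by positivity), Real.sqrt_sq hu0.le]
    rw [e1, e2]
    apply Real.sqrt_le_sqrt
    push_cast
    have e3 : (2 * (k : ℝ) * k) ^ 2 * (2 * ((3 * k + 2) + 2) * l * N) =
        8 * (k : ℝ) ^ 4 * (3 * k + 4) * l * N := by ring
    rw [e3, pow_two u]
    gcongr
  have h9 : u * √N ≤ N / (2 * u ^ (4 * k + 3)) := by
    have g1 : u ^ (4 * k + 5) ≤ √N := by
      apply Real.le_sqrt_of_sq_le
      rw [← pow_mul]
      exact hpowm _ (by omega)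
    rw [le_div_iff₀ (by positivity)]
    have g2 : √N * √N = N := Real.mul_self_sqrt hN0.le
    have g3 : 0 ≤ √N := Real.sqrt_nonneg _
    calc u * √N * (2 * u ^ (4 * k + 3)) = √N * (2 * u ^ (4 * k + 4)) := by ring
      _ ≤ √N * (u * u ^ (4 * k + 4)) := by
        gcongr
        linarith
      _ = √N * u ^ (4 * k + 5) := by ring
      _ ≤ √N * √N := by gcongr
      _ = N := g2
  have h10 : N / u ^ (8 * k + 10 + B) ≤ N / (2 * u ^ (4 * k + 3)) := by
    apply div_le_div_of_nonneg_left hN0.le (by positivity)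
    calc 2 * u ^ (4 * k + 3) ≤ u * u ^ (4 * k + 3) := by
          gcongr
          linarith
      _ = u ^ (4 * k + 4) := by ring
      _ ≤ u ^ (8 * k + 10 + B) := pow_le_pow_right₀ hu1 (by omega)
  have h11 : N / u ^ (4 * k + 3) = N / (2 * u ^ (4 * k + 3)) + N / (2 * u ^ (4 * k + 3)) := by
    field_simp
    ring
  linarith

lemma W0_lin : ∃ C3 : ℝ, 0 < C3 ∧ ∀ Y : ℕ, 1 ≤ Y → W0 Y ≤ C3 * Y := by
  obtain ⟨C₁, C₂, h1, h2, h⟩ := W0_bound
  refine ⟨C₁ + C₂, by positivity, fun Y hY => ?_⟩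
  have hY' : (1 : ℝ) ≤ Y := by exact_mod_cast hY
  have h3 := Real.log_le_sub_one_of_pos (show (0 : ℝ) < Y by linarith)
  have h4 := h Y
  have h5 : C₂ * Real.log Y ≤ C₂ * Y := by
    gcongr
    linarith
  nlinarith

lemma log2_le (x : ℕ) (hx : 1 ≤ x) : (Nat.log 2 x : ℝ) ≤ 2 * Real.log x := by
  have h1 : 2 ^ Nat.log 2 x ≤ x := Nat.pow_log_le_self 2 (by omega)
  have h2 : ((2 : ℝ)) ^ Nat.log 2 x ≤ x := by exact_mod_cast h1
  have h3 := Real.log_le_log (by positivity) h2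
  rw [Real.log_pow] at h3
  have h4 := Real.log_two_gt_d9
  have h5 : (0 : ℝ) ≤ Nat.log 2 x := Nat.cast_nonneg _
  nlinarith

/-- **Many chosen values of every admissible system.** -/
theorem core_low (k : ℕ) (hk : 0 < k) : ∃ B : ℕ, ∀ {Ω : Type} {m0 : MeasurableSpace Ω} {μ : Measure Ω}
    [IsProbabilityMeasure μ] {ℱ : Filtration ℕ m0} {A : ℕ → Set Ω}
    (_ : ∀ n, MeasurableSet[ℱ n] (A n)) (P : Set ℕ) (z : ℕ → ℕ)
    (_ : ∀ᵐ ω ∂μ, ∀ ε : ℝ, 0 < ε → ∀ᶠ n : ℕ in atTop,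
      |dens μ ℱ A n ω - rho1 P z (n + 1)| ≤ ε * rho1 P z (n + 1))
    (Y : ℕ → ℕ) (_ : ∀ᶠ x : ℕ in atTop, 2 ≤ Y x)
    (_ : ∀ᶠ x : ℕ in atTop, ∀ m, Nat.log 2 x < m → m ≤ x ^ 3 → z m ≤ Y x),
    ∀ᵐ ω ∂μ, ∀ᶠ x : ℕ in atTop, ∀ a ∈ Fam k x, Adm P a.1 → ((Y x : ℝ) * Real.log x) ^ B ≤ a.2.2 →
      (a.2.2 : ℝ) / ((Y x : ℝ) * Real.log x) ^ B ≤ ∑ n ∈ idx k a, ∏ m ∈ vals a.1 n, In A m ω := by
  classical
  obtain ⟨c, B, hc, hR⟩ := rough_low k
  obtain ⟨C3, hC3, hW⟩ := W0_lin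
  obtain ⟨K, hK⟩ := num k B c C3 hc hC3
  refine ⟨8 * k + 10 + B, ?_⟩
  intro Ω m0 μ _ ℱ A hA P z hprof Y hY2 hYz
  filter_upwards [law hA P z hprof k hk] with ω hω
  filter_upwards [hω (1 / 2) (by norm_num), hY2, hYz, logN.eventually_ge_atTop (max 1 K), eventually_ge_atTop 8]
    with x h1 h2 h3 h4 h5 a ha hadm haN
  obtain ⟨⟨g1, g2⟩, g3, g4⟩ := mem_Fam.1 ha
  have hl1 : 1 ≤ Real.log x := (le_max_left _ _).trans h4
  have hlK : K ≤ Real.log x := (le_max_right _ _).trans h4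
  have hY2' : (2 : ℝ) ≤ Y x := by exact_mod_cast h2
  obtain ⟨u, hu⟩ : ∃ u : ℝ, u = (Y x : ℝ) * Real.log x := ⟨_, rfl⟩
  rw [← hu] at haN ⊢
  have hYu : (Y x : ℝ) ≤ u := by rw [hu]; nlinarith
  have hlu : Real.log x ≤ u := by rw [hu]; nlinarith
  have hMu : (a.2.1 : ℝ) ≤ u := by
    rw [g3, hu]
    have := log2_le x (by omega)
    nlinarith
  have hW1 := W0_ge (Y x)
  have hWu : W0 (Y x) ≤ C3 * u := (hW (Y x) (by omega)).trans (by gcongr)
  have hnum := hK u a.2.2 a.2.1 (W0 (Y x)) (Y x) (Real.log x) (hlK.trans hlu) (by linarith) hYu hl1 hlu hMu hW1 hWu haN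
  refine hnum.trans ?_
  -- the expected number
  have hMN : a.2.1 ≤ a.2.2 := by
    have h6 : u ≤ u ^ (8 * k + 10 + B) := le_self_pow₀ (by linarith) (by omega)
    have h7 : (a.2.1 : ℝ) ≤ a.2.2 := hMu.trans (h6.trans haN)
    exact_mod_cast h7
  have hrough := hR P a.1 g1.le hadm a.2.1 a.2.2 (Y x) hMN h2
  obtain ⟨G, hG⟩ : ∃ G : Finset ℕ, G = (RR P a.1 a.2.1 a.2.2 (Y x)).filter (fun n => (vals a.1 n).card = k) := ⟨_, rfl⟩
  have hGcard : ((RR P a.1 a.2.1 a.2.2 (Y x)).card : ℝ) - (k : ℝ) ^ 2 ≤ G.card := by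
    have h6 := few_coll a.1 (RR P a.1 a.2.1 a.2.2 (Y x))
    rw [g1] at h6
    have h7 : G.card + ((RR P a.1 a.2.1 a.2.2 (Y x)).filter (fun n => (vals a.1 n).card ≠ k)).card =
        (RR P a.1 a.2.1 a.2.2 (Y x)).card := by
      rw [hG]
      exact Finset.card_filter_add_card_filter_not _
    have h8 : ((RR P a.1 a.2.1 a.2.2 (Y x)).card : ℝ) ≤ G.card + (k : ℝ) ^ 2 := by
      exact_mod_cast (by omega : (RR P a.1 a.2.1 a.2.2 (Y x)).card ≤ G.card + k ^ 2)
    linarith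
  have hGsub : G ⊆ idx k a := by
    intro n hn
    rw [hG, Finset.mem_filter] at hn
    unfold idx
    rw [Finset.mem_filter]
    refine ⟨?_, hn.2⟩
    have := hn.1
    unfold RR at this
    exact (Finset.mem_filter.1 this).1
  have hterm : ∀ n ∈ G, (1 / (3 * Real.log x)) ^ k ≤ ∏ m ∈ vals a.1 n, rho1 P z m := by
    intro n hn
    rw [hG, Finset.mem_filter] at hn
    obtain ⟨hn1, hn2⟩ := hn
    unfold RR at hn1
    rw [Finset.mem_filter, Finset.mem_Ioc] at hn1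
    obtain ⟨⟨hn3, hn4⟩, hn5⟩ := hn1
    rw [← hn2, ← Finset.prod_const]
    apply Finset.prod_le_prod
    · intro m _
      positivity
    · intro m hm
      unfold vals at hm
      obtain ⟨f, hf, rfl⟩ := Finset.mem_image.1 hm
      obtain ⟨f1, f2, f3⟩ := g2 f hf
      have hmlow : n ≤ f.1 * n + f.2 := by
        have : n ≤ f.1 * n := Nat.le_mul_of_pos_left n (by omega)
        omega
      have hlog3 : 3 ≤ Nat.log 2 x := Nat.le_log_of_pow_le (by norm_num) h5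
      have hmup : f.1 * n + f.2 ≤ x ^ 3 := by
        have q1 : f.1 * n ≤ x * x := Nat.mul_le_mul f2 (hn4.trans g4)
        have q2 : x * x + x ≤ x ^ 3 := by nlinarith
        omega
      have hz : z (f.1 * n + f.2) ≤ Y x := h3 _ (by omega) hmup
      have hrg : Rough P z (f.1 * n + f.2) := by
        intro q hqP hq hqz
        exact hn5 q hqP hq (hqz.trans hz) f hf
      unfold rho1
      rw [if_pos hrg]
      have hm3 : (3 : ℝ) < ((f.1 * n + f.2 : ℕ) : ℝ) := by exact_mod_cast (by omega : 3 < f.1 * n + f.2)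
      have hlm : 0 < Real.log ((f.1 * n + f.2 : ℕ) : ℝ) := Real.log_pos (by linarith)
      have hlm2 : Real.log ((f.1 * n + f.2 : ℕ) : ℝ) ≤ 3 * Real.log x := by
        have h6 : ((f.1 * n + f.2 : ℕ) : ℝ) ≤ (x : ℝ) ^ 3 := by exact_mod_cast hmup
        have h7 := Real.log_le_log (by linarith) h6
        rwa [Real.log_pow] at h7
      apply le_min
      · rw [div_le_one (by positivity)]
        linarith
      · have := W_ge P (z (f.1 * n + f.2))
        gcongr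
  have hE : (c * ((a.2.2 : ℝ) - a.2.1) / W0 (Y x) ^ (2 * k) - (Y x : ℝ) ^ B - (k : ℝ) ^ 2) *
      (1 / (3 * Real.log x)) ^ k ≤ ∑ n ∈ idx k a, ∏ m ∈ vals a.1 n, rho1 P z m := by
    calc _ ≤ (G.card : ℝ) * (1 / (3 * Real.log x)) ^ k := by
          apply mul_le_mul_of_nonneg_right _ (by positivity)
          linarith
      _ = ∑ _n ∈ G, (1 / (3 * Real.log x)) ^ k := by rw [Finset.sum_const, nsmul_eq_mul]
      _ ≤ ∑ n ∈ G, ∏ m ∈ vals a.1 n, rho1 P z m := Finset.sum_le_sum hterm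
      _ ≤ _ := Finset.sum_le_sum_of_subset_of_nonneg hGsub fun n _ _ =>
          Finset.prod_nonneg fun m _ => (rho1_bounds P z m).1
  have hlaw := (abs_le.1 (h1 a ha)).1
  have hsq : 2 * (k : ℝ) * k * √(2 * ((3 * k + 2 : ℕ) + 2) * Real.log x * (idx k a).card) ≤
      2 * (k : ℝ) * k * √(2 * ((3 * k + 2 : ℕ) + 2) * Real.log x * a.2.2) := by
    have h6 : ((idx k a).card : ℝ) ≤ a.2.2 := by
      have h7 : (idx k a).card ≤ a.2.2 := by
        unfold idx
        refine (Finset.card_filter_le _ _).trans ?_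
        rw [Nat.card_Ioc]
        omega
      exact_mod_cast h7
    gcongr
  linarith

end Pool.Agent.J6H13.UM
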