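import Mathlib
import Pool.Agent.J6H13.UM.Core

/-! # The two forms of the main theorem (helper13) -/

set_option autoImplicit false
set_option linter.unusedSectionVars false

namespace Pool.Agent.J6H13.UM

open Filter MeasureTheory Asymptotics
open Pool.Agent.R528.RM
open scoped Topology

lemma prod_In {Ω : Type} {A : ℕ → Set Ω} (L : Finset (ℕ × ℕ)) (n : ℕ) (ω : Ω)
    [Decidable (∀ f ∈ L, ω ∈ A (f.1 * n + f.2))] :
    ∏ m ∈ vals L n, In A m ω = if ∀ f ∈ L, ω ∈ A (f.1 * n + f.2) then 1 else 0 := by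
  classical
  split_ifs with h
  · apply Finset.prod_eq_one
    intro m hm
    unfold vals at hm
    obtain ⟨f, hf, rfl⟩ := Finset.mem_image.1 hm
    unfold In
    rw [Set.indicator_of_mem (h f hf)]
  · push Not at h
    obtain ⟨f, hf, h1⟩ := h
    apply Finset.prod_eq_zero (i := f.1 * n + f.2)
    · unfold vals
      exact Finset.mem_image.2 ⟨f, hf, rfl⟩
    · unfold In
      rw [Set.indicator_of_notMem h1]

open Classical in
lemma sum_le_count {Ω : Type} {A : ℕ → Set Ω} (k : ℕ) (L : Finset (ℕ × ℕ)) (M N : ℕ) (ω : Ω) :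
    ∑ n ∈ idx k (L, M, N), ∏ m ∈ vals L n, In A m ω ≤
      ((Finset.Ioc M N).filter (fun n => ∀ f ∈ L, ω ∈ A (f.1 * n + f.2))).card := by
  have h1 : ∑ n ∈ idx k (L, M, N), ∏ m ∈ vals L n, In A m ω =
      (((idx k (L, M, N)).filter (fun n => ∀ f ∈ L, ω ∈ A (f.1 * n + f.2))).card : ℝ) := by
    rw [Finset.card_filter]
    push_cast
    exact Finset.sum_congr rfl fun n _ => prod_In L n ω
  rw [h1]
  have h2 : (idx k (L, M, N)).filter (fun n => ∀ f ∈ L, ω ∈ A (f.1 * n + f.2)) ⊆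
      (Finset.Ioc M N).filter (fun n => ∀ f ∈ L, ω ∈ A (f.1 * n + f.2)) := by
    apply Finset.filter_subset_filter
    unfold idx
    exact Finset.filter_subset _ _
  exact_mod_cast Finset.card_le_card h2

open Classical in
/-- sieves up to a power of the logarithm -/
theorem main_log (k : ℕ) (hk : 0 < k) (C : ℕ) : ∃ D : ℕ, ∀ {Ω : Type} {m0 : MeasurableSpace Ω} {μ : Measure Ω}
    [IsProbabilityMeasure μ] {ℱ : Filtration ℕ m0} {A : ℕ → Set Ω} (_ : ∀ n, MeasurableSet[ℱ n] (A n))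
    (P : Set ℕ) (z : ℕ → ℕ) (_ : ∀ᶠ n : ℕ in atTop, (z n : ℝ) ≤ Real.log n ^ C)
    (_ : ∀ n, ¬ Rough P z n → A n = ∅)
    (_ : ∀ᵐ ω ∂μ, Tendsto (fun n : ℕ => dens μ ℱ A n ω * Real.log n / W P (z (n + 1)))
      (atTop ⊓ 𝓟 {n : ℕ | Rough P z (n + 1)}) (𝓝 1)),
    ∀ᵐ ω ∂μ, ∀ᶠ x : ℕ in atTop, ∀ L : Finset (ℕ × ℕ), L.card = k → (∀ f ∈ L, 1 ≤ f.1 ∧ f.1 ≤ x ∧ f.2 ≤ x) →
      Adm P L → ∀ N : ℕ, N ≤ x → Real.log x ^ D ≤ N → (N : ℝ) / Real.log x ^ D ≤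
        ((Finset.Ioc (Nat.log 2 x) N).filter (fun n => ∀ f ∈ L, ω ∈ A (f.1 * n + f.2))).card := by
  obtain ⟨B, hB⟩ := core_low k hk
  refine ⟨(C + 2) * B, ?_⟩
  intro Ω m0 μ _ ℱ A hA P z hz hcop hd
  have hV := short P C z hz
  have h := hB hA P z (profile P z hV hcop hd) (fun x => ⌊(3 * Real.log x) ^ C⌋₊ + 2)
    (Eventually.of_forall fun x => by omega)
    (by
      obtain ⟨m1, hm1⟩ := eventually_atTop.1 hz
      filter_upwards [eventually_ge_atTop (2 ^ (m1 + 3))] with x hx m hm1' hm2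
      have h1 : m1 + 3 ≤ Nat.log 2 x := Nat.le_log_of_pow_le (by norm_num) hx
      have h2 : (z m : ℝ) ≤ (3 * Real.log x) ^ C := by
        refine (hm1 m (by omega)).trans ?_
        have h3 : (0 : ℝ) < m := by exact_mod_cast (by omega : 0 < m)
        have h4 : (m : ℝ) ≤ (x : ℝ) ^ 3 := by exact_mod_cast hm2
        have h5 := Real.log_le_log h3 h4
        rw [Real.log_pow] at h5
        have h6 : 0 ≤ Real.log (m : ℝ) := Real.log_natCast_nonneg m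
        exact pow_le_pow_left₀ h6 (by exact_mod_cast h5) C
      have h3 := Nat.le_floor h2
      omega)
  filter_upwards [h] with ω hω
  filter_upwards [hω, logN.eventually_ge_atTop (3 ^ C + 2)] with x h1 h2 L hL1 hL2 hadm N hNx hN
  have hone : (1 : ℝ) ≤ 3 ^ C := one_le_pow₀ (by norm_num)
  have hl : 1 ≤ Real.log x := by linarith
  have hu : ((⌊(3 * Real.log x) ^ C⌋₊ + 2 : ℕ) : ℝ) * Real.log x ≤ Real.log x ^ (C + 2) := by
    have h3 : ((⌊(3 * Real.log x) ^ C⌋₊ : ℕ) : ℝ) ≤ 3 ^ C * Real.log x ^ C := by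
      rw [← mul_pow]
      exact Nat.floor_le (by positivity)
    have h4 : 1 ≤ Real.log x ^ C := one_le_pow₀ hl
    push_cast
    calc ((⌊(3 * Real.log x) ^ C⌋₊ : ℝ) + 2) * Real.log x ≤ ((3 ^ C + 2) * Real.log x ^ C) * Real.log x := by
          gcongr
          nlinarith
      _ ≤ (Real.log x * Real.log x ^ C) * Real.log x := by gcongr
      _ = Real.log x ^ (C + 2) := by ring
  have hu0 : 0 < ((⌊(3 * Real.log x) ^ C⌋₊ + 2 : ℕ) : ℝ) * Real.log x := by positivity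
  have huB : (((⌊(3 * Real.log x) ^ C⌋₊ + 2 : ℕ) : ℝ) * Real.log x) ^ B ≤ Real.log x ^ ((C + 2) * B) := by
    rw [pow_mul]
    exact pow_le_pow_left₀ hu0.le hu B
  have ha : (L, Nat.log 2 x, N) ∈ Fam k x := mem_Fam.2 ⟨⟨hL1, hL2⟩, rfl, hNx⟩
  have h3 := h1 (L, Nat.log 2 x, N) ha hadm (huB.trans hN)
  refine le_trans ?_ (h3.trans (sum_le_count k L _ N ω))
  exact div_le_div_of_nonneg_left (Nat.cast_nonneg N) (pow_pos hu0 B) huB

open Classical in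
/-- sieves up to a small power -/
theorem main_pow (k : ℕ) (hk : 0 < k) (ε : ℝ) (hε : 0 < ε) : ∃ δ : ℝ, 0 < δ ∧ ∀ {Ω : Type} {m0 : MeasurableSpace Ω}
    {μ : Measure Ω} [IsProbabilityMeasure μ] {ℱ : Filtration ℕ m0} {A : ℕ → Set Ω}
    (_ : ∀ n, MeasurableSet[ℱ n] (A n))
    (P : Set ℕ) (z : ℕ → ℕ) (_ : ∀ᶠ n : ℕ in atTop, (z n : ℝ) ≤ (n : ℝ) ^ δ)
    (_ : ∀ n, ¬ Rough P z n → A n = ∅)
    (_ : ∀ᵐ ω ∂μ, Tendsto (fun n : ℕ => dens μ ℱ A n ω * Real.log n / W P (z (n + 1)))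
      (atTop ⊓ 𝓟 {n : ℕ | Rough P z (n + 1)}) (𝓝 1)),
    ∀ᵐ ω ∂μ, ∀ᶠ x : ℕ in atTop, ∀ L : Finset (ℕ × ℕ), L.card = k → (∀ f ∈ L, 1 ≤ f.1 ∧ f.1 ≤ x ∧ f.2 ≤ x) →
      Adm P L → ∀ N : ℕ, N ≤ x → (x : ℝ) ^ ε ≤ N → (N : ℝ) / (x : ℝ) ^ ε ≤
        ((Finset.Ioc (Nat.log 2 x) N).filter (fun n => ∀ f ∈ L, ω ∈ A (f.1 * n + f.2))).card := by
  obtain ⟨B, hB⟩ := core_low k hk
  obtain ⟨δ0, hδ0, hW⟩ := W_small
  have hB0 : (0 : ℝ) < B + 1 := by positivity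
  obtain ⟨δ, hδ⟩ : ∃ δ : ℝ, δ = min δ0 (ε / (6 * (B + 1))) := ⟨_, rfl⟩
  have hδpos : 0 < δ := by rw [hδ]; exact lt_min hδ0 (by positivity)
  have hδ1 : δ ≤ δ0 := hδ ▸ min_le_left _ _
  have hδ2 : δ ≤ ε / (6 * (B + 1)) := hδ ▸ min_le_right _ _
  refine ⟨δ, hδpos, ?_⟩
  intro Ω m0 μ _ ℱ A hA P z hz hcop hd
  have hV := hW P z (by
    filter_upwards [hz, eventually_ge_atTop 1] with n h1 h2
    refine h1.trans (Real.rpow_le_rpow_of_exponent_le ?_ hδ1)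
    exact_mod_cast h2)
  have h := hB hA P z (profile P z hV hcop hd) (fun x => ⌊(x : ℝ) ^ (3 * δ)⌋₊ + 2)
    (Eventually.of_forall fun x => by omega)
    (by
      obtain ⟨m1, hm1⟩ := eventually_atTop.1 hz
      filter_upwards [eventually_ge_atTop (2 ^ (m1 + 3))] with x hx m hm1' hm2
      have h1 : m1 + 3 ≤ Nat.log 2 x := Nat.le_log_of_pow_le (by norm_num) hx
      have h2 : (z m : ℝ) ≤ (x : ℝ) ^ (3 * δ) := by
        refine (hm1 m (by omega)).trans ?_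
        have h4 : (m : ℝ) ≤ (x : ℝ) ^ (3 : ℝ) := by
          have : (m : ℝ) ≤ (x : ℝ) ^ 3 := by exact_mod_cast hm2
          exact_mod_cast this
        calc (m : ℝ) ^ δ ≤ ((x : ℝ) ^ (3 : ℝ)) ^ δ := by gcongr
          _ = (x : ℝ) ^ (3 * δ) := by rw [← Real.rpow_mul (Nat.cast_nonneg x)]
      have h3 := Nat.le_floor h2
      omega)
  have hlogs := (isLittleO_log_rpow_rpow_atTop (1 : ℝ) (show (0 : ℝ) < δ by positivity)).bound
    (show (0 : ℝ) < 1 / 3 by norm_num)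
  filter_upwards [h] with ω hω
  filter_upwards [hω, logN.eventually_ge_atTop 1, tendsto_natCast_atTop_atTop.eventually hlogs,
    eventually_ge_atTop 1] with x h1 h2 h4 h5 L hL1 hL2 hadm N hNx hN
  have hx1 : (1 : ℝ) ≤ x := by exact_mod_cast h5
  have hx0 : (0 : ℝ) < x := by linarith
  rw [Real.norm_eq_abs, Real.norm_eq_abs, abs_of_nonneg (Real.rpow_nonneg (by linarith) _),
    abs_of_nonneg (Real.rpow_nonneg hx0.le _), Real.rpow_one] at h4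
  have hu : ((⌊(x : ℝ) ^ (3 * δ)⌋₊ + 2 : ℕ) : ℝ) * Real.log x ≤ (x : ℝ) ^ (4 * δ) := by
    have h3 : ((⌊(x : ℝ) ^ (3 * δ)⌋₊ : ℕ) : ℝ) ≤ (x : ℝ) ^ (3 * δ) := Nat.floor_le (by positivity)
    have h6 : 1 ≤ (x : ℝ) ^ (3 * δ) := Real.one_le_rpow hx1 (by positivity)
    push_cast
    calc ((⌊(x : ℝ) ^ (3 * δ)⌋₊ : ℝ) + 2) * Real.log x ≤ (3 * (x : ℝ) ^ (3 * δ)) * (1 / 3 * (x : ℝ) ^ δ) := by
          gcongr
          linarith
      _ = (x : ℝ) ^ (3 * δ) * (x : ℝ) ^ δ := by ring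
      _ = (x : ℝ) ^ (4 * δ) := by
        rw [← Real.rpow_add hx0]
        congr 1
        ring
  have hu0 : 0 < ((⌊(x : ℝ) ^ (3 * δ)⌋₊ + 2 : ℕ) : ℝ) * Real.log x := by positivity
  have huB : (((⌊(x : ℝ) ^ (3 * δ)⌋₊ + 2 : ℕ) : ℝ) * Real.log x) ^ B ≤ (x : ℝ) ^ ε := by
    calc (((⌊(x : ℝ) ^ (3 * δ)⌋₊ + 2 : ℕ) : ℝ) * Real.log x) ^ B ≤ ((x : ℝ) ^ (4 * δ)) ^ B :=
          pow_le_pow_left₀ hu0.le hu B
      _ = (x : ℝ) ^ (4 * δ * B) := by rw [← Real.rpow_natCast, ← Real.rpow_mul hx0.le]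
      _ ≤ (x : ℝ) ^ ε := by
        apply Real.rpow_le_rpow_of_exponent_le hx1
        rw [le_div_iff₀ (by positivity)] at hδ2
        have : (0 : ℝ) ≤ δ * B := by positivity
        nlinarith
  have ha : (L, Nat.log 2 x, N) ∈ Fam k x := mem_Fam.2 ⟨⟨hL1, hL2⟩, rfl, hNx⟩
  have h3 := h1 (L, Nat.log 2 x, N) ha hadm (huB.trans hN)
  refine le_trans ?_ (h3.trans (sum_le_count k L _ N ω))
  exact div_le_div_of_nonneg_left (Nat.cast_nonneg N) (pow_pos hu0 B) huB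

end Pool.Agent.J6H13.UM
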