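import Mathlib
import Pool.Agent.J6H13.UM.Main

/-! # Systems of at most `k` forms, least solutions (helper13) -/

set_option autoImplicit false
set_option linter.unusedSectionVars false

namespace Pool.Agent.J6H13.UM

open Filter MeasureTheory Asymptotics
open Pool.Agent.R528.RM
open scoped Topology

open Classical in
/-- the number of the arguments in `(M, N]` at which all values are chosen -/
noncomputable def cnt {Ω : Type} (A : ℕ → Set Ω) (ω : Ω) (L : Finset (ℕ × ℕ)) (M N : ℕ) : ℕ :=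
  ((Finset.Ioc M N).filter (fun n => ∀ f ∈ L, ω ∈ A (f.1 * n + f.2))).card

/-- all admissible systems of at most `k` forms with coefficients at most `x` have many chosen values up to `N`,
for all `t ≤ N ≤ x` -/
def Good {Ω : Type} (P : Set ℕ) (k x : ℕ) (t : ℝ) (A : ℕ → Set Ω) (ω : Ω) : Prop :=
  ∀ L : Finset (ℕ × ℕ), L.Nonempty → L.card ≤ k → (∀ f ∈ L, 1 ≤ f.1 ∧ f.1 ≤ x ∧ f.2 ≤ x) → Adm P L →
    ∀ N : ℕ, N ≤ x → t ≤ N → (N : ℝ) / t ≤ cnt A ω L (Nat.log 2 x) N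

lemma Good_mono {Ω : Type} {P : Set ℕ} {k x : ℕ} {t t' : ℝ} {A : ℕ → Set Ω} {ω : Ω} (ht : 0 < t) (h : t ≤ t')
    (hG : Good P k x t A ω) : Good P k x t' A ω := by
  intro L h1 h2 h3 h4 N h5 h6
  refine le_trans ?_ (hG L h1 h2 h3 h4 N h5 (h.trans h6))
  exact div_le_div_of_nonneg_left (Nat.cast_nonneg N) ht h

/-- a sequential random model of the primes sieved by the primes `q ∈ P`, `q ≤ z(m)` -/
structure IsModel {Ω : Type} {mΩ : MeasurableSpace Ω} (μ : Measure Ω) (ℱ : Filtration ℕ mΩ)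
    (S : ℕ → Set Ω) (P : Set ℕ) (z : ℕ → ℕ) : Prop where
  adapted : ∀ n, MeasurableSet[ℱ n] (S n)
  sieved : ∀ n, ¬ Rough P z n → S n = ∅
  density : ∀ᵐ ω ∂μ, Tendsto (fun n : ℕ => dens μ ℱ S n ω * Real.log n / W P (z (n + 1)))
    (atTop ⊓ 𝓟 {n : ℕ | Rough P z (n + 1)}) (𝓝 1)

theorem log_all (C : ℕ) (k : ℕ) : ∃ D : ℕ, ∀ {Ω : Type} {m0 : MeasurableSpace Ω} {μ : Measure Ω}
    [IsProbabilityMeasure μ] {ℱ : Filtration ℕ m0} {A : ℕ → Set Ω} (P : Set ℕ) (z : ℕ → ℕ)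
    (_ : ∀ᶠ n : ℕ in atTop, (z n : ℝ) ≤ Real.log n ^ C) (_ : IsModel μ ℱ A P z),
    ∀ᵐ ω ∂μ, ∀ᶠ x : ℕ in atTop, Good P k x (Real.log x ^ D) A ω := by
  induction k with
  | zero =>
    refine ⟨0, ?_⟩
    intro Ω m0 μ _ ℱ A P z _ _
    refine Eventually.of_forall fun ω => Eventually.of_forall fun x => ?_
    intro L h1 h2
    have := h1.card_pos
    omega
  | succ k ih =>
    obtain ⟨D1, h1⟩ := ih
    obtain ⟨D2, h2⟩ := main_log (k + 1) (by omega) C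
    refine ⟨max D1 D2, ?_⟩
    intro Ω m0 μ _ ℱ A P z hz hM
    filter_upwards [h1 P z hz hM, h2 hM.adapted P z hz hM.sieved hM.density] with ω g1 g2
    filter_upwards [g1, g2, logN.eventually_ge_atTop 1] with x k1 k2 k3
    intro L l1 l2 l3 l4 N l5 l6
    have e1 : Real.log x ^ D1 ≤ Real.log x ^ max D1 D2 := pow_le_pow_right₀ k3 (le_max_left _ _)
    have e2 : Real.log x ^ D2 ≤ Real.log x ^ max D1 D2 := pow_le_pow_right₀ k3 (le_max_right _ _)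
    rcases Nat.lt_or_ge L.card (k + 1) with l7 | l7
    · exact Good_mono (by positivity) e1 k1 L l1 (by omega) l3 l4 N l5 l6
    · refine le_trans ?_ (k2 L (by omega) l3 l4 N l5 (e2.trans l6))
      exact div_le_div_of_nonneg_left (Nat.cast_nonneg N) (by positivity) e2

theorem pow_all (ε : ℝ) (hε : 0 < ε) (k : ℕ) : ∃ δ : ℝ, 0 < δ ∧ ∀ {Ω : Type} {m0 : MeasurableSpace Ω} {μ : Measure Ω}
    [IsProbabilityMeasure μ] {ℱ : Filtration ℕ m0} {A : ℕ → Set Ω} (P : Set ℕ) (z : ℕ → ℕ)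
    (_ : ∀ᶠ n : ℕ in atTop, (z n : ℝ) ≤ (n : ℝ) ^ δ) (_ : IsModel μ ℱ A P z),
    ∀ᵐ ω ∂μ, ∀ᶠ x : ℕ in atTop, Good P k x ((x : ℝ) ^ ε) A ω := by
  induction k with
  | zero =>
    refine ⟨1, one_pos, ?_⟩
    intro Ω m0 μ _ ℱ A P z _ _
    refine Eventually.of_forall fun ω => Eventually.of_forall fun x => ?_
    intro L h1 h2
    have := h1.card_pos
    omega
  | succ k ih =>
    obtain ⟨δ1, hδ1, h1⟩ := ih
    obtain ⟨δ2, hδ2, h2⟩ := main_pow (k + 1) (by omega) ε hε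
    refine ⟨min δ1 δ2, lt_min hδ1 hδ2, ?_⟩
    intro Ω m0 μ _ ℱ A P z hz hM
    have hz1 : ∀ᶠ n : ℕ in atTop, (z n : ℝ) ≤ (n : ℝ) ^ δ1 := by
      filter_upwards [hz, eventually_ge_atTop 1] with n g1 g2
      exact g1.trans (Real.rpow_le_rpow_of_exponent_le (by exact_mod_cast g2) (min_le_left _ _))
    have hz2 : ∀ᶠ n : ℕ in atTop, (z n : ℝ) ≤ (n : ℝ) ^ δ2 := by
      filter_upwards [hz, eventually_ge_atTop 1] with n g1 g2
      exact g1.trans (Real.rpow_le_rpow_of_exponent_le (by exact_mod_cast g2) (min_le_right _ _))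
    filter_upwards [h1 P z hz1 hM, h2 hM.adapted P z hz2 hM.sieved hM.density] with ω g1 g2
    filter_upwards [g1, g2] with x k1 k2
    intro L l1 l2 l3 l4 N l5 l6
    rcases Nat.lt_or_ge L.card (k + 1) with l7 | l7
    · exact k1 L l1 (by omega) l3 l4 N l5 l6
    · exact k2 L (by omega) l3 l4 N l5 l6

lemma cnt_pos {Ω : Type} {A : ℕ → Set Ω} {ω : Ω} {L : Finset (ℕ × ℕ)} {M N : ℕ} (h : (0 : ℝ) < cnt A ω L M N) :
    ∃ n, M < n ∧ n ≤ N ∧ ∀ f ∈ L, ω ∈ A (f.1 * n + f.2) := by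
  classical
  have h1 : 0 < cnt A ω L M N := by exact_mod_cast h
  unfold cnt at h1
  obtain ⟨n, hn⟩ := Finset.card_pos.1 h1
  rw [Finset.mem_filter, Finset.mem_Ioc] at hn
  exact ⟨n, hn.1.1, hn.1.2, hn.2⟩

/-- the least solution -/
theorem least {Ω : Type} (P : Set ℕ) (k : ℕ) (T : ℕ → ℝ) (A : ℕ → Set Ω) (ω : Ω) (c : ℝ) (hc : 0 < c)
    (hT : ∀ x : ℕ, 2 ≤ x → c ≤ T x) (hTx : ∀ᶠ x : ℕ in atTop, T x + 1 ≤ x)
    (hG : ∀ᶠ x : ℕ in atTop, Good P k x (T x) A ω) :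
    ∃ γ : ℝ, 0 < γ ∧ ∀ L : Finset (ℕ × ℕ), L.Nonempty → L.card ≤ k → (∀ f ∈ L, 1 ≤ f.2 ∧ f.2 < f.1) → Adm P L →
      ∃ n : ℕ, (n : ℝ) ≤ γ * T (∏ f ∈ L, f.1) ∧ ∀ f ∈ L, ω ∈ A (f.1 * n + f.2) := by
  classical
  obtain ⟨x0, hx0⟩ := eventually_atTop.1 (hG.and (hTx.and (eventually_ge_atTop 2)))
  have hx02 : 2 ≤ x0 := (hx0 x0 le_rfl).2.2
  refine ⟨1 + (x0 + 1) / c, by positivity, ?_⟩
  intro L hL1 hL2 hL3 hadm
  obtain ⟨H, hH⟩ : ∃ H, H = ∏ f ∈ L, f.1 := ⟨_, rfl⟩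
  rw [← hH]
  have hfH : ∀ f ∈ L, f.1 ≤ H := by
    intro f hf
    rw [hH]
    exact Finset.single_le_prod' (f := fun f : ℕ × ℕ => f.1) (fun g hg => by have := hL3 g hg; omega) hf
  have hH2 : 2 ≤ H := by
    obtain ⟨f, hf⟩ := hL1
    have := hL3 f hf
    have := hfH f hf
    omega
  have key : ∀ x : ℕ, x0 ≤ x → H ≤ x → ∃ n : ℕ, (n : ℝ) ≤ T x + 1 ∧ ∀ f ∈ L, ω ∈ A (f.1 * n + f.2) := by
    intro x h1 h2
    obtain ⟨g1, g2, g3⟩ := hx0 x h1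
    have hTpos : 0 < T x := lt_of_lt_of_le hc (hT x g3)
    have hNle : (⌈T x⌉₊ : ℝ) < T x + 1 := Nat.ceil_lt_add_one hTpos.le
    have hN1 : ⌈T x⌉₊ ≤ x := by
      have : (⌈T x⌉₊ : ℝ) ≤ x := by linarith
      exact_mod_cast this
    have hN0 : (0 : ℝ) < (⌈T x⌉₊ : ℕ) := lt_of_lt_of_le hTpos (Nat.le_ceil _)
    have h3 := g1 L hL1 hL2 (fun f hf => by
      have k1 := hL3 f hf
      have k2 := hfH f hf
      omega) hadm ⌈T x⌉₊ hN1 (Nat.le_ceil _)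
    obtain ⟨n, h4, h5, h6⟩ := cnt_pos (lt_of_lt_of_le (by positivity) h3)
    refine ⟨n, ?_, h6⟩
    have : (n : ℝ) ≤ (⌈T x⌉₊ : ℕ) := by exact_mod_cast h5
    linarith
  have hTH := hT H hH2
  have e1 : (1 + (x0 + 1) / c) * T H = T H + (x0 + 1) * (T H / c) := by
    field_simp
  have e2 : 1 ≤ T H / c := by rwa [one_le_div hc]
  rcases le_total x0 H with h1 | h1
  · obtain ⟨n, h2, h3⟩ := key H h1 le_rfl
    refine ⟨n, h2.trans ?_, h3⟩
    rw [e1]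
    have : (0 : ℝ) ≤ x0 := Nat.cast_nonneg x0
    nlinarith
  · obtain ⟨n, h2, h3⟩ := key x0 le_rfl h1
    refine ⟨n, h2.trans ?_, h3⟩
    rw [e1]
    have h4 := (hx0 x0 le_rfl).2.1
    have : (0 : ℝ) ≤ x0 := Nat.cast_nonneg x0
    nlinarith

lemma pow_room (ε : ℝ) (hε : ε < 1) (hε0 : 0 < ε) : ∀ᶠ x : ℕ in atTop, (x : ℝ) ^ ε + 1 ≤ x := by
  have h1 : Tendsto (fun x : ℕ => (x : ℝ) ^ (1 - ε)) atTop atTop :=
    (tendsto_rpow_atTop (by linarith)).comp tendsto_natCast_atTop_atTop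
  filter_upwards [h1.eventually_ge_atTop 2, eventually_ge_atTop 1] with x h2 h3
  have hx1 : (1 : ℝ) ≤ x := by exact_mod_cast h3
  have h4 : (x : ℝ) = (x : ℝ) ^ ε * (x : ℝ) ^ (1 - ε) := by
    rw [← Real.rpow_add (by linarith)]
    norm_num
  have h5 : 1 ≤ (x : ℝ) ^ ε := Real.one_le_rpow hx1 hε0.le
  nlinarith

lemma log_room (D : ℕ) : ∀ᶠ x : ℕ in atTop, Real.log x ^ D + 1 ≤ x := by
  have h1 := (isLittleO_log_rpow_rpow_atTop (D : ℝ) (show (0 : ℝ) < 1 / 2 by norm_num)).bound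
    (show (0 : ℝ) < 1 by norm_num)
  filter_upwards [tendsto_natCast_atTop_atTop.eventually h1, pow_room (1 / 2) (by norm_num) (by norm_num),
    logN.eventually_ge_atTop 1, eventually_ge_atTop 1] with x h2 h3 h4 h5
  have hx1 : (1 : ℝ) ≤ x := by exact_mod_cast h5
  rw [Real.norm_eq_abs, Real.norm_eq_abs, abs_of_nonneg (Real.rpow_nonneg (by linarith) _),
    abs_of_nonneg (Real.rpow_nonneg (by linarith) _), Real.rpow_natCast, one_mul] at h2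
  linarith

end Pool.Agent.J6H13.UM
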