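import Mathlib
import Pool.Agent.J6H13.UM.All

/-! # Isolated patterns of chosen integers in short intervals (helper13) -/

set_option autoImplicit false
set_option linter.unusedSectionVars false

namespace Pool.Agent.J6H13.UM

open Filter MeasureTheory Asymptotics
open Pool.Agent.R528.RM
open scoped Topology

lemma num2 (k : ℕ) (c : ℝ) (hc : 0 < c) (K' : ℝ) (hK' : 0 ≤ K') (E : ℕ) : ∃ K : ℝ, 1 ≤ K ∧
    ∀ (l N M w y g e1 e2 : ℝ), K ≤ l → 1 ≤ w → K * w ^ (3 * k + 1) ≤ √l → 0 ≤ M → M ≤ 2 * l → 0 ≤ y → y ≤ l ^ E →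
    l ^ (2 * k + 8 + E) ≤ N → 0 ≤ g → g ≤ √l → e1 ≤ K' * √(l * N) → e2 ≤ K' * √(l * N) →
    2 ^ (k + 1) * (N / l ^ (k + 1)) ≤
      (1 / 2) * ((c * (N - M) / w ^ (2 * k) - y) * (1 / (3 * l)) ^ k) - e1 -
        (g + 1) * ((3 / 2) * (N * (2 * w / l) ^ (k + 1)) + e2) := by
  refine ⟨max (max 24 (2 * c)) (max (72 * K') (24 * 2 ^ (k + 1) * 3 ^ k / c)),
    (by norm_num : (1 : ℝ) ≤ 24).trans ((le_max_left _ _).trans (le_max_left _ _)), ?_⟩
  intro l N M w y g e1 e2 hl hw hws hM0 hM hy0 hy hN hg0 hg he1 he2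
  have hl24 : 24 ≤ l := ((le_max_left _ _).trans (le_max_left _ _)).trans hl
  have hlc : 2 * c ≤ l := ((le_max_right _ _).trans (le_max_left _ _)).trans hl
  have hlK : 72 * K' ≤ l := ((le_max_left _ _).trans (le_max_right _ _)).trans hl
  have hKc : 24 * 2 ^ (k + 1) * 3 ^ k / c ≤ max (max 24 (2 * c)) (max (72 * K') (24 * 2 ^ (k + 1) * 3 ^ k / c)) :=
    (le_max_right _ _).trans (le_max_right _ _)
  have hl0 : 0 < l := by linarith
  have hl1 : 1 ≤ l := by linarith
  obtain ⟨s, hs⟩ : ∃ s : ℝ, s = √l := ⟨_, rfl⟩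
  rw [← hs] at hws hg
  have hs0 : 0 < s := by rw [hs]; exact Real.sqrt_pos.2 hl0
  have hss : s * s = l := by rw [hs]; exact Real.mul_self_sqrt hl0.le
  have hs1 : 1 ≤ s := by
    by_contra h
    push Not at h
    nlinarith
  have hsl : s ≤ l := by nlinarith
  obtain ⟨a, ha⟩ : ∃ a : ℝ, a = w ^ (2 * k) := ⟨_, rfl⟩
  obtain ⟨b, hb⟩ : ∃ b : ℝ, b = w ^ (k + 1) := ⟨_, rfl⟩
  have ha1 : 1 ≤ a := ha ▸ one_le_pow₀ hw
  have hb1 : 1 ≤ b := hb ▸ one_le_pow₀ hw
  have hab : w ^ (3 * k + 1) = a * b := by rw [ha, hb]; ring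
  obtain ⟨L, hL⟩ : ∃ L : ℝ, L = l ^ k := ⟨_, rfl⟩
  have hL1 : 1 ≤ L := hL ▸ one_le_pow₀ hl1
  have h3k : (1 : ℝ) ≤ 3 ^ k := one_le_pow₀ (by norm_num)
  have h2k : (1 : ℝ) ≤ 2 ^ (k + 1) := one_le_pow₀ (by norm_num)
  have hN0 : 0 < N := lt_of_lt_of_le (by positivity) hN
  have hpow : ∀ i : ℕ, i ≤ 2 * k + 8 + E → l ^ i ≤ N := fun i hi => (pow_le_pow_right₀ hl1 hi).trans hN
  -- the size of the constant
  have hKs : 24 * 2 ^ (k + 1) * 3 ^ k * (a * b) ≤ c * s := by
    have h1 : 24 * 2 ^ (k + 1) * 3 ^ k / c * (a * b) ≤ s := by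
      refine le_trans ?_ hws
      rw [hab]
      exact mul_le_mul_of_nonneg_right hKc (by positivity)
    calc 24 * 2 ^ (k + 1) * 3 ^ k * (a * b) = c * (24 * 2 ^ (k + 1) * 3 ^ k / c * (a * b)) := by field_simp
      _ ≤ c * s := by gcongr
  obtain ⟨T, hT⟩ : ∃ T : ℝ, T = c * N / (a * 3 ^ k * L) := ⟨_, rfl⟩
  have hlow : 8 * 2 ^ (k + 1) * (N / (L * l)) ≤ T := by
    rw [hT, ← mul_div_assoc, div_le_div_iff₀ (by positivity) (by positivity)]
    have h1 : 8 * 2 ^ (k + 1) * 3 ^ k * a ≤ c * l := by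
      calc 8 * 2 ^ (k + 1) * 3 ^ k * a ≤ 24 * 2 ^ (k + 1) * 3 ^ k * (a * b) := by
            have : a ≤ a * b := le_mul_of_one_le_right (by linarith) hb1
            have : 8 * (2 : ℝ) ^ (k + 1) * 3 ^ k ≤ 24 * 2 ^ (k + 1) * 3 ^ k := by nlinarith [mul_pos (show (0:ℝ) < 2 ^ (k + 1) by positivity) (show (0:ℝ) < 3 ^ k by positivity)]
            gcongr
        _ ≤ c * s := hKs
        _ ≤ c * l := by gcongr
    calc 8 * 2 ^ (k + 1) * N * (a * 3 ^ k * L) = (8 * 2 ^ (k + 1) * 3 ^ k * a) * (N * L) := by ring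
      _ ≤ (c * l) * (N * L) := by gcongr
      _ = c * N * (L * l) := by ring
  -- the extra elements
  have hC : (g + 1) * ((3 / 2) * (N * (2 * w / l) ^ (k + 1))) ≤ T / 8 := by
    have e0 : (2 * w / l) ^ (k + 1) = 2 ^ (k + 1) * b / (L * l) := by
      rw [hb, hL, div_pow, mul_pow, pow_succ l k]
    rw [e0]
    have h1 : (g + 1) * ((3 / 2) * (N * (2 ^ (k + 1) * b / (L * l)))) ≤
        (2 * s) * ((3 / 2) * (N * (2 ^ (k + 1) * b / (L * l)))) := by
      apply mul_le_mul_of_nonneg_right _ (by positivity)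
      linarith
    refine h1.trans ?_
    have e1 : (2 * s) * ((3 / 2) * (N * (2 ^ (k + 1) * b / (L * l)))) = 3 * 2 ^ (k + 1) * N * b / (L * s) := by
      rw [← hss]
      field_simp
    rw [e1, hT, div_div, div_le_div_iff₀ (by positivity) (by positivity)]
    calc 3 * 2 ^ (k + 1) * N * b * (a * 3 ^ k * L * 8) = (24 * 2 ^ (k + 1) * 3 ^ k * (a * b)) * (N * L) := by ring
      _ ≤ (c * s) * (N * L) := by gcongr
      _ = c * N * (L * s) := by ring
  -- the small terms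
  have hsm : ∀ t : ℝ, t * (24 * (L * l)) ≤ N → t ≤ T / 24 / 8 := by
    intro t ht
    have h1 : t ≤ N / (L * l) / 24 := by
      rw [div_div, le_div_iff₀ (by positivity)]
      linarith
    have h2 : N / (L * l) * 8 ≤ T := by
      refine le_trans ?_ hlow
      have : 0 ≤ N / (L * l) := by positivity
      nlinarith
    linarith
  have hs1' : c * M ≤ T / 24 / 8 := by
    apply hsm
    have h1 : c * M ≤ l * l := by
      calc c * M ≤ c * (2 * l) := by gcongr
        _ = (2 * c) * l := by ring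
        _ ≤ l * l := by gcongr
    calc c * M * (24 * (L * l)) ≤ (l * l) * (l * (L * l)) := by gcongr
      _ = l ^ (k + 4) := by rw [hL]; ring
      _ ≤ N := hpow _ (by omega)
  have hs2' : y ≤ T / 24 / 8 := by
    apply hsm
    calc y * (24 * (L * l)) ≤ l ^ E * (l * (L * l)) := by gcongr
      _ = l ^ (E + k + 2) := by rw [hL]; ring
      _ ≤ N := hpow _ (by omega)
  have hs3' : 3 * K' * l * √N ≤ T / 24 / 8 := by
    apply hsm
    have h1 : l ^ (k + 4) ≤ √N := by
      apply Real.le_sqrt_of_sq_le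
      rw [← pow_mul]
      exact hpow _ (by omega)
    have h2 : √N * √N = N := Real.mul_self_sqrt hN0.le
    have h3 : 0 ≤ √N := Real.sqrt_nonneg _
    calc 3 * K' * l * √N * (24 * (L * l)) = (72 * K') * l * l * L * √N := by ring
      _ ≤ l * l * l * L * √N := by gcongr
      _ = l ^ (k + 3) * √N := by rw [hL]; ring
      _ ≤ l ^ (k + 4) * √N := mul_le_mul_of_nonneg_right (pow_le_pow_right₀ hl1 (by omega)) h3
      _ ≤ √N * √N := by gcongr
      _ = N := h2
  have herr : e1 + (g + 1) * e2 ≤ 3 * K' * l * √N := by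
    have h1 : √(l * N) = s * √N := by rw [Real.sqrt_mul hl0.le, hs]
    rw [h1] at he1 he2
    have h2 : (g + 1) * e2 ≤ (g + 1) * (K' * (s * √N)) := mul_le_mul_of_nonneg_left he2 (by linarith)
    have h3 : (g + 1) * (K' * (s * √N)) ≤ (2 * s) * (K' * (s * √N)) := by
      apply mul_le_mul_of_nonneg_right _ (by positivity)
      linarith
    have h4 : K' * (s * √N) ≤ s * (K' * (s * √N)) := le_mul_of_one_le_left (by positivity) hs1
    have h5 : 3 * K' * l * √N = s * (K' * (s * √N)) + (2 * s) * (K' * (s * √N)) := by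
      rw [← hss]
      ring
    linarith
  -- the main term
  have hmain : T / 2 - c * M - y ≤ (1 / 2) * ((c * (N - M) / w ^ (2 * k) - y) * (1 / (3 * l)) ^ k) := by
    obtain ⟨q, hq⟩ : ∃ q : ℝ, q = (1 / (3 * l)) ^ k := ⟨_, rfl⟩
    have hq0 : 0 ≤ q := by rw [hq]; positivity
    have hq1 : q ≤ 1 := by
      rw [hq]
      apply pow_le_one₀ (by positivity)
      rw [div_le_one (by positivity)]
      linarith
    have hTq : T = c * N / a * q := by
      rw [hT, hq, one_div, inv_pow, mul_pow, hL]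
      field_simp
    rw [← ha, ← hq, hTq]
    have e1 : (1 / 2) * ((c * (N - M) / a - y) * q) = c * N / a * q / 2 - (c * M / a) * q / 2 - y * q / 2 := by ring
    rw [e1]
    have h1 : (c * M / a) * q ≤ c * M := by
      calc (c * M / a) * q ≤ (c * M / a) * 1 := by gcongr
        _ ≤ c * M := by
          rw [mul_one]
          exact div_le_self (by positivity) ha1
    have h2 : y * q ≤ y := mul_le_of_le_one_right hy0 hq1
    have h3 : 0 ≤ c * M := by positivity
    linarith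
  have hT0 : 0 ≤ T := by rw [hT]; positivity
  have hfin : 2 ^ (k + 1) * (N / l ^ (k + 1)) ≤ T / 8 := by
    have e1 : l ^ (k + 1) = L * l := by rw [hL, pow_succ]
    rw [e1]
    linarith
  have e5 : (g + 1) * ((3 / 2) * (N * (2 * w / l) ^ (k + 1)) + e2) =
      (g + 1) * ((3 / 2) * (N * (2 * w / l) ^ (k + 1))) + (g + 1) * e2 := by ring
  rw [e5]
  linarith

/-- the forms `t + X + h`, `h ∈ H` -/
def patL (X : ℕ) (H : Finset ℕ) : Finset (ℕ × ℕ) := H.image (fun h => (1, X + h))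

lemma mem_patL {X : ℕ} {H : Finset ℕ} {f : ℕ × ℕ} : f ∈ patL X H ↔ ∃ h ∈ H, f = (1, X + h) := by
  unfold patL
  rw [Finset.mem_image]
  constructor
  · rintro ⟨h, h1, h2⟩
    exact ⟨h, h1, h2.symm⟩
  · rintro ⟨h, h1, h2⟩
    exact ⟨h, h1, h2.symm⟩

lemma vals_patL (X : ℕ) (H : Finset ℕ) (n : ℕ) : vals (patL X H) n = H.image (fun h => n + (X + h)) := by
  unfold vals patL
  rw [Finset.image_image]
  apply Finset.image_congr
  intro h _
  show 1 * n + (X + h) = n + (X + h)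
  ring

lemma inj_pat (X n : ℕ) : Function.Injective (fun h : ℕ => n + (X + h)) := by
  intro a b hab
  simp only at hab
  omega

lemma card_patL (X : ℕ) (H : Finset ℕ) : (patL X H).card = H.card := by
  unfold patL
  apply Finset.card_image_of_injective
  intro a b hab
  simp only [Prod.mk.injEq, true_and] at hab
  omega

lemma idx_patL (X : ℕ) (H : Finset ℕ) (M N : ℕ) : idx H.card (patL X H, M, N) = Finset.Ioc M N := by
  unfold idx
  apply Finset.filter_true_of_mem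
  intro n _
  rw [vals_patL, Finset.card_image_of_injective _ (inj_pat X n)]

lemma prod_patL (X : ℕ) (H : Finset ℕ) (n : ℕ) (φ : ℕ → ℝ) :
    ∏ m ∈ vals (patL X H) n, φ m = ∏ h ∈ H, φ (n + (X + h)) := by
  rw [vals_patL, Finset.prod_image fun a _ b _ hab => inj_pat X n hab]

open Classical in
/-- the inequality of Bonferroni -/
lemma bonf {Ω : Type} {A : ℕ → Set Ω} {ω : Ω} (X : ℕ) (H : Finset ℕ) (g M N : ℕ) :
    ∑ n ∈ Finset.Ioc M N, ∏ h ∈ H, In A (n + (X + h)) ω -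
      ∑ j ∈ (Finset.range (g + 1)).filter (fun j => j ∉ H),
        ∑ n ∈ Finset.Ioc M N, ∏ h ∈ insert j H, In A (n + (X + h)) ω ≤
    (((Finset.Ioc M N).filter (fun n => (∀ h ∈ H, ω ∈ A (n + (X + h))) ∧
      ∀ j ≤ g, j ∉ H → ω ∉ A (n + (X + j)))).card : ℝ) := by
  rw [Finset.sum_comm, ← Finset.sum_sub_distrib, Finset.card_filter]
  push_cast
  apply Finset.sum_le_sum
  intro n _
  have hIn : ∀ m, In A m ω = if ω ∈ A m then (1 : ℝ) else 0 := by
    intro m
    unfold In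
    by_cases h : ω ∈ A m <;> simp [h]
  have hprod : ∀ G : Finset ℕ, ∏ h ∈ G, In A (n + (X + h)) ω = if ∀ h ∈ G, ω ∈ A (n + (X + h)) then (1 : ℝ) else 0 := by
    intro G
    split_ifs with h
    · apply Finset.prod_eq_one
      intro i hi
      rw [hIn, if_pos (h i hi)]
    · push Not at h
      obtain ⟨i, hi, h1⟩ := h
      apply Finset.prod_eq_zero hi
      rw [hIn, if_neg h1]
  rw [hprod]
  simp_rw [hprod]
  by_cases h1 : ∀ h ∈ H, ω ∈ A (n + (X + h))
  · rw [if_pos h1]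
    by_cases h2 : ∀ j ≤ g, j ∉ H → ω ∉ A (n + (X + j))
    · rw [if_pos ⟨h1, h2⟩]
      have : 0 ≤ ∑ j ∈ (Finset.range (g + 1)).filter (fun j => j ∉ H),
          if ∀ h ∈ insert j H, ω ∈ A (n + (X + h)) then (1 : ℝ) else 0 :=
        Finset.sum_nonneg fun j _ => by split_ifs <;> norm_num
      linarith
    · push Not at h2
      obtain ⟨j, hj1, hj2, hj3⟩ := h2
      have h3 : (if ∀ h ∈ insert j H, ω ∈ A (n + (X + h)) then (1 : ℝ) else 0) ≤
          ∑ j ∈ (Finset.range (g + 1)).filter (fun j => j ∉ H),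
            if ∀ h ∈ insert j H, ω ∈ A (n + (X + h)) then (1 : ℝ) else 0 :=
        Finset.single_le_sum (f := fun j => if ∀ h ∈ insert j H, ω ∈ A (n + (X + h)) then (1 : ℝ) else 0)
          (fun j _ => by split_ifs <;> norm_num)
          (Finset.mem_filter.2 ⟨Finset.mem_range.2 (by omega), hj2⟩)
      have h4 : ∀ h ∈ insert j H, ω ∈ A (n + (X + h)) := by
        intro h hh
        rcases Finset.mem_insert.1 hh with rfl | hh
        · exact hj3
        · exact h1 h hh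
      rw [if_pos h4] at h3
      have h5 : (0 : ℝ) ≤ if (∀ h ∈ H, ω ∈ A (n + (X + h))) ∧ ∀ j ≤ g, j ∉ H → ω ∉ A (n + (X + j)) then 1 else 0 := by
        split_ifs <;> norm_num
      linarith
  · rw [if_neg h1]
    have h2 : 0 ≤ ∑ j ∈ (Finset.range (g + 1)).filter (fun j => j ∉ H),
        if ∀ h ∈ insert j H, ω ∈ A (n + (X + h)) then (1 : ℝ) else 0 :=
      Finset.sum_nonneg fun j _ => by split_ifs <;> norm_num
    have h5 : (0 : ℝ) ≤ if (∀ h ∈ H, ω ∈ A (n + (X + h))) ∧ ∀ j ≤ g, j ∉ H → ω ∉ A (n + (X + j)) then 1 else 0 := by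
      split_ifs <;> norm_num
    linarith

end Pool.Agent.J6H13.UM
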