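import Mathlib
import Pool.Agent.J6H13.UM.Iso

/-! # Isolated patterns of chosen integers in short intervals: the theorem (helper13) -/

set_option autoImplicit false
set_option linter.unusedSectionVars false

namespace Pool.Agent.J6H13.UM

open Filter MeasureTheory Asymptotics
open Pool.Agent.R528.RM
open scoped Topology

/-- the level of the sieve -/
noncomputable def YY (C x : ℕ) : ℕ := ⌊(3 * Real.log x) ^ C⌋₊ + 2

lemma YY_le (C : ℕ) : ∀ᶠ x : ℕ in atTop, (YY C x : ℝ) ≤ Real.log x ^ (C + 1) := by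
  filter_upwards [logN.eventually_ge_atTop (3 ^ C + 2)] with x h2
  have hone : (1 : ℝ) ≤ 3 ^ C := one_le_pow₀ (by norm_num)
  have hl : 1 ≤ Real.log x := by linarith
  have h3 : ((⌊(3 * Real.log x) ^ C⌋₊ : ℕ) : ℝ) ≤ 3 ^ C * Real.log x ^ C := by
    rw [← mul_pow]
    exact Nat.floor_le (by positivity)
  have h4 : 1 ≤ Real.log x ^ C := one_le_pow₀ hl
  unfold YY
  push_cast
  calc ((⌊(3 * Real.log x) ^ C⌋₊ : ℝ) + 2) ≤ ((3 ^ C + 2) * Real.log x ^ C) := by nlinarith
    _ ≤ (Real.log x * Real.log x ^ C) := by gcongr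
    _ = Real.log x ^ (C + 1) := by ring

lemma w_small (C m : ℕ) (K : ℝ) (hK : 0 ≤ K) :
    ∀ᶠ x : ℕ in atTop, K * W0 (YY C x) ^ (m + 1) ≤ √(Real.log x) := by
  obtain ⟨C₁, C₂, hC₁, hC₂, hW⟩ := W0_bound
  obtain ⟨η, hη⟩ : ∃ η : ℝ, η = 1 / (4 * ((m : ℝ) + 1)) := ⟨_, rfl⟩
  have hη0 : 0 < η := by rw [hη]; positivity
  obtain ⟨C6, hC6⟩ : ∃ C6 : ℝ, C6 = C₁ + C₂ * (C + 1) := ⟨_, rfl⟩
  have hC60 : 0 < C6 := by rw [hC6]; positivity
  have h1 := (isLittleO_log_rpow_atTop hη0).bound (show (0 : ℝ) < 1 by norm_num)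
  have h2 : Tendsto (fun x : ℕ => Real.log (x : ℝ) ^ (1 / 4 : ℝ)) atTop atTop :=
    (tendsto_rpow_atTop (by norm_num)).comp logN
  filter_upwards [YY_le C, logN.eventually h1, h2.eventually_ge_atTop (K * C6 ^ (m + 1)), logN.eventually_ge_atTop 1]
    with x g1 g2 g3 g4
  obtain ⟨l, hl⟩ : ∃ l : ℝ, l = Real.log (x : ℝ) := ⟨_, rfl⟩
  rw [← hl] at g1 g2 g3 g4 ⊢
  have hl0 : 0 < l := by linarith
  have hll : 0 ≤ Real.log l := Real.log_nonneg g4
  rw [Real.norm_eq_abs, Real.norm_eq_abs, abs_of_nonneg hll, abs_of_nonneg (by positivity), one_mul] at g2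
  have hY1 : (1 : ℝ) ≤ YY C x := by
    have : 1 ≤ YY C x := by unfold YY; omega
    exact_mod_cast this
  have h3 : Real.log (YY C x) ≤ (C + 1) * Real.log l := by
    have := Real.log_le_log (by linarith) g1
    rw [Real.log_pow] at this
    exact_mod_cast this
  have h4 : 1 ≤ l ^ η := Real.one_le_rpow g4 hη0.le
  have h5 : W0 (YY C x) ≤ C6 * l ^ η := by
    calc W0 (YY C x) ≤ C₁ + C₂ * Real.log (YY C x) := hW _
      _ ≤ C₁ + C₂ * ((C + 1) * Real.log l) := by gcongr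
      _ ≤ C₁ * l ^ η + C₂ * ((C + 1) * l ^ η) := by
        gcongr
        exact le_mul_of_one_le_right hC₁.le h4
      _ = C6 * l ^ η := by rw [hC6]; ring
  have h6 : W0 (YY C x) ^ (m + 1) ≤ C6 ^ (m + 1) * l ^ (1 / 4 : ℝ) := by
    calc W0 (YY C x) ^ (m + 1) ≤ (C6 * l ^ η) ^ (m + 1) :=
          pow_le_pow_left₀ (zero_le_one.trans (W0_ge _)) h5 _
      _ = C6 ^ (m + 1) * (l ^ η) ^ (m + 1) := mul_pow _ _ _
      _ = C6 ^ (m + 1) * l ^ (1 / 4 : ℝ) := by
        congr 1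
        rw [← Real.rpow_natCast, ← Real.rpow_mul hl0.le]
        congr 1
        rw [hη]
        push_cast
        field_simp
  have h7 : √l = l ^ (1 / 4 : ℝ) * l ^ (1 / 4 : ℝ) := by
    rw [← Real.rpow_add hl0, Real.sqrt_eq_rpow]
    norm_num
  rw [h7]
  calc K * W0 (YY C x) ^ (m + 1) ≤ K * (C6 ^ (m + 1) * l ^ (1 / 4 : ℝ)) := by gcongr
    _ = (K * C6 ^ (m + 1)) * l ^ (1 / 4 : ℝ) := by ring
    _ ≤ l ^ (1 / 4 : ℝ) * l ^ (1 / 4 : ℝ) := by gcongr

lemma YY_z (C : ℕ) (z : ℕ → ℕ) (hz : ∀ᶠ n : ℕ in atTop, (z n : ℝ) ≤ Real.log n ^ C) :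
    ∀ᶠ x : ℕ in atTop, ∀ m, Nat.log 2 x < m → m ≤ x ^ 3 → z m ≤ YY C x := by
  obtain ⟨m1, hm1⟩ := eventually_atTop.1 hz
  filter_upwards [eventually_ge_atTop (2 ^ (m1 + 3))] with x hx m hm1' hm2
  have h1 : m1 + 3 ≤ Nat.log 2 x := Nat.le_log_of_pow_le (by norm_num) hx
  have h2 : (z m : ℝ) ≤ (3 * Real.log x) ^ C := by
    refine (hm1 m (by omega)).trans ?_
    have h3 : (0 : ℝ) < m := by exact_mod_cast (by omega : 0 < m)
    have h4 : (m : ℝ) ≤ (x : ℝ) ^ 3 := by exact_mod_cast hm2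
    have h5 := Real.log_le_log h3 h4
    rw [Real.log_pow] at h5
    have h6 : 0 ≤ Real.log (m : ℝ) := Real.log_natCast_nonneg m
    exact pow_le_pow_left₀ h6 (by exact_mod_cast h5) C
  have h3 := Nat.le_floor h2
  unfold YY
  omega

open Classical in
/-- isolated patterns in short intervals -/
theorem iso_main (k : ℕ) (hk : 0 < k) (C : ℕ) : ∃ D : ℕ, ∀ {Ω : Type} {m0 : MeasurableSpace Ω} {μ : Measure Ω}
    [IsProbabilityMeasure μ] {ℱ : Filtration ℕ m0} {A : ℕ → Set Ω} (P : Set ℕ) (z : ℕ → ℕ)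
    (_ : ∀ᶠ n : ℕ in atTop, (z n : ℝ) ≤ Real.log n ^ C) (_ : IsModel μ ℱ A P z),
    ∀ᵐ ω ∂μ, ∀ᶠ X : ℕ in atTop, ∀ (H : Finset ℕ) (g : ℕ), H.card = k → (∀ h ∈ H, h ≤ g) →
      (g : ℝ) ≤ √(Real.log X) → (∀ q ∈ P, q.Prime → ∃ m, ∀ h ∈ H, ¬ q ∣ m + h) →
      ∀ N : ℕ, N ≤ X → Real.log X ^ D ≤ N → (N : ℝ) / Real.log X ^ (k + 1) ≤
        (((Finset.Ioc X (X + N)).filter (fun n => ∀ j ≤ g, (ω ∈ A (n + j) ↔ j ∈ H))).card : ℝ) := by
  obtain ⟨c, B, hc, hR⟩ := rough_low k
  obtain ⟨K', hK'⟩ : ∃ K' : ℝ, K' = 2 * ((k : ℝ) + 1) * (k + 1) * √(2 * ((3 * (k + 1) + 2 : ℕ) + 2)) := ⟨_, rfl⟩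
  have hK'0 : 0 ≤ K' := by rw [hK']; positivity
  obtain ⟨K, hK1, hK⟩ := num2 k c hc K' hK'0 ((C + 1) * B)
  refine ⟨2 * k + 8 + (C + 1) * B + 1, ?_⟩
  intro Ω m0 μ _ ℱ A P z hz hM
  have hV := short P C z hz
  have hprof := profile P z hV hM.sieved hM.density
  have htend : Tendsto (fun X : ℕ => 2 * X) atTop atTop :=
    tendsto_atTop.2 fun b => by
      filter_upwards [eventually_ge_atTop b] with X hX
      omega
  filter_upwards [law hM.adapted P z hprof k hk, law hM.adapted P z hprof (k + 1) (by omega)] with ω hω1 hω2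
  filter_upwards [htend.eventually (hω1 (1 / 2) (by norm_num)), htend.eventually (hω2 (1 / 2) (by norm_num)),
    htend.eventually (YY_z C z hz), htend.eventually (YY_le C), htend.eventually (w_small C (3 * k) K (by linarith)),
    logN.eventually_ge_atTop (max K (2 ^ (2 * k + 8 + (C + 1) * B))), eventually_ge_atTop 8]
    with X h1 h2 h3 h4 h5 h6 h7 H g hHk hHg hgX hadm N hNX hND
  obtain ⟨x, hx⟩ : ∃ x, x = 2 * X := ⟨_, rfl⟩
  rw [← hx] at h1 h2 h3 h4 h5
  obtain ⟨l, hl⟩ : ∃ l : ℝ, l = Real.log (x : ℝ) := ⟨_, rfl⟩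
  have hlX0 : 1 ≤ Real.log (X : ℝ) := hK1.trans ((le_max_left _ _).trans h6)
  have hX8 : (8 : ℝ) ≤ X := by exact_mod_cast h7
  have hll : Real.log (X : ℝ) ≤ l := by
    rw [hl, hx]
    apply Real.log_le_log (by linarith)
    push_cast
    linarith
  have hl2 : l ≤ 2 * Real.log (X : ℝ) := by
    have e1 : 2 * Real.log (X : ℝ) = Real.log ((X : ℝ) ^ 2) := by rw [Real.log_pow]; norm_num
    rw [e1, hl, hx]
    apply Real.log_le_log
    · push_cast; linarith
    · push_cast; nlinarith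
  have hl1 : 1 ≤ l := hlX0.trans hll
  have hKl : K ≤ l := ((le_max_left _ _).trans h6).trans hll
  obtain ⟨Y, hY⟩ : ∃ Y, Y = YY C x := ⟨_, rfl⟩
  rw [← hY] at h3 h4 h5
  have hY2 : 2 ≤ Y := by rw [hY]; unfold YY; omega
  obtain ⟨w, hw⟩ : ∃ w : ℝ, w = W0 Y := ⟨_, rfl⟩
  have hw1 : 1 ≤ w := hw ▸ W0_ge Y
  rw [← hw, ← hl] at h5
  rw [← hl] at h4
  obtain ⟨M, hMdef⟩ : ∃ M, M = Nat.log 2 x := ⟨_, rfl⟩
  have hM2l : (M : ℝ) ≤ 2 * l := by
    rw [hMdef, hl]
    exact log2_le x (by omega)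
  have hNl : l ^ (2 * k + 8 + (C + 1) * B) ≤ N := by
    refine le_trans ?_ hND
    calc l ^ (2 * k + 8 + (C + 1) * B) ≤ (2 * Real.log (X : ℝ)) ^ (2 * k + 8 + (C + 1) * B) :=
          pow_le_pow_left₀ (by linarith) hl2 _
      _ = 2 ^ (2 * k + 8 + (C + 1) * B) * Real.log (X : ℝ) ^ (2 * k + 8 + (C + 1) * B) := mul_pow _ _ _
      _ ≤ Real.log (X : ℝ) * Real.log (X : ℝ) ^ (2 * k + 8 + (C + 1) * B) := by
        apply mul_le_mul_of_nonneg_right ((le_max_right _ _).trans h6) (by positivity)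
      _ = Real.log (X : ℝ) ^ (2 * k + 8 + (C + 1) * B + 1) := by ring
  have hMN : M ≤ N := by
    have e1 : 2 * l ≤ N := by
      have e2 : l ^ 2 ≤ N := (pow_le_pow_right₀ hl1 (by omega)).trans hNl
      have e3 : 2 ≤ l := by
        have : (2 : ℝ) ≤ 2 ^ (2 * k + 8 + (C + 1) * B) := le_self_pow₀ (by norm_num) (by omega)
        exact this.trans (((le_max_right _ _).trans h6).trans hll)
      nlinarith
    have : (M : ℝ) ≤ N := hM2l.trans e1
    exact_mod_cast this
  have hgX' : g ≤ X := by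
    have e1 : √(Real.log (X : ℝ)) ≤ X := by
      rw [Real.sqrt_le_left (by linarith)]
      have := Real.log_le_sub_one_of_pos (show (0 : ℝ) < X by linarith)
      nlinarith
    have : (g : ℝ) ≤ X := hgX.trans e1
    exact_mod_cast this
  have hgl : (g : ℝ) ≤ √l := hgX.trans (Real.sqrt_le_sqrt hll)
  -- the values
  have hval : ∀ n ∈ Finset.Ioc M N, ∀ h ≤ g, M < n + (X + h) ∧ X ≤ n + (X + h) ∧ n + (X + h) ≤ x ^ 3 := by
    intro n hn h hh
    rw [Finset.mem_Ioc] at hn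
    refine ⟨by omega, by omega, ?_⟩
    have e1 : 2 * x ≤ x ^ 3 := by
      have : 4 ≤ x ^ 2 := by nlinarith
      calc 2 * x ≤ x ^ 2 * x := by gcongr; omega
        _ = x ^ 3 := by ring
    omega
  -- the law for a pattern
  obtain ⟨Sf, hSf⟩ : ∃ Sf : Finset ℕ → ℝ, Sf = fun G => ∑ n ∈ Finset.Ioc M N, ∏ h ∈ G, In A (n + (X + h)) ω := ⟨_, rfl⟩
  obtain ⟨Rf, hRf⟩ : ∃ Rf : Finset ℕ → ℝ, Rf = fun G => ∑ n ∈ Finset.Ioc M N, ∏ h ∈ G, rho1 P z (n + (X + h)) := ⟨_, rfl⟩
  have hcardI : ((Finset.Ioc M N).card : ℝ) ≤ N := by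
    rw [Nat.card_Ioc]
    exact_mod_cast (by omega : N - M ≤ N)
  have hfam : ∀ G : Finset ℕ, (∀ h ∈ G, h ≤ g) → (patL X G, M, N) ∈ Fam G.card x := by
    intro G hG
    refine mem_Fam.2 ⟨⟨card_patL X G, fun f hf => ?_⟩, hMdef, (by omega : N ≤ x)⟩
    obtain ⟨h, hh, rfl⟩ := mem_patL.1 hf
    have := hG h hh
    simp only
    omega
  have hsqrt : ∀ i : ℕ, i ≤ k + 1 → ∀ t : ℝ, 0 ≤ t → t ≤ N →
      2 * (i : ℝ) * i * √(2 * ((3 * i + 2 : ℕ) + 2) * Real.log x * t) ≤ K' * √(l * N) := by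
    intro i hi t ht0 ht
    have hi' : (i : ℝ) ≤ k + 1 := by exact_mod_cast hi
    have e1 : √(2 * ((3 * i + 2 : ℕ) + 2) * Real.log x * t) ≤ √(2 * ((3 * (k + 1) + 2 : ℕ) + 2) * (l * N)) := by
      apply Real.sqrt_le_sqrt
      rw [← hl]
      have e2 : ((3 * i + 2 : ℕ) : ℝ) ≤ ((3 * (k + 1) + 2 : ℕ) : ℝ) := by exact_mod_cast (by omega)
      calc 2 * ((3 * i + 2 : ℕ) + 2) * l * t = 2 * ((3 * i + 2 : ℕ) + 2) * (l * t) := by ring
        _ ≤ 2 * ((3 * (k + 1) + 2 : ℕ) + 2) * (l * N) := by gcongr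
    have e3 : √(2 * ((3 * (k + 1) + 2 : ℕ) + 2) * (l * N)) = √(2 * ((3 * (k + 1) + 2 : ℕ) + 2)) * √(l * N) :=
      Real.sqrt_mul (by positivity) _
    rw [e3] at e1
    rw [hK']
    calc 2 * (i : ℝ) * i * √(2 * ((3 * i + 2 : ℕ) + 2) * Real.log x * t)
        ≤ 2 * ((k : ℝ) + 1) * (k + 1) * (√(2 * ((3 * (k + 1) + 2 : ℕ) + 2)) * √(l * N)) := by gcongr
      _ = _ := by ring
  have hlawH : (1 / 2) * Rf H - K' * √(l * N) ≤ Sf H := by
    have e1 := hfam H hHg
    rw [hHk] at e1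
    have e2 := h1 _ e1
    have e3 : idx k (patL X H, M, N) = Finset.Ioc M N := by
      rw [← hHk]
      exact idx_patL X H M N
    simp only [e3, prod_patL] at e2
    have e4 := (abs_le.1 e2).1
    have e5 := hsqrt k (by omega) _ (Nat.cast_nonneg _) hcardI
    rw [hSf, hRf]
    linarith
  have hlawJ : ∀ j ∈ (Finset.range (g + 1)).filter (fun j => j ∉ H),
      Sf (insert j H) ≤ (3 / 2) * Rf (insert j H) + K' * √(l * N) := by
    intro j hj
    rw [Finset.mem_filter, Finset.mem_range] at hj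
    have hcj : (insert j H).card = k + 1 := by rw [Finset.card_insert_of_notMem hj.2, hHk]
    have e1 := hfam (insert j H) (fun h hh => by
      rcases Finset.mem_insert.1 hh with rfl | hh
      · omega
      · exact hHg h hh)
    rw [hcj] at e1
    have e2 := h2 _ e1
    have e3 : idx (k + 1) (patL X (insert j H), M, N) = Finset.Ioc M N := by
      rw [← hcj]
      exact idx_patL X _ M N
    simp only [e3, prod_patL] at e2
    have e4 := (abs_le.1 e2).2
    have e5 := hsqrt (k + 1) le_rfl _ (Nat.cast_nonneg _) hcardI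
    push_cast at e4 e5
    rw [hSf, hRf]
    simp only
    linarith
  -- upper bound for the densities
  have hrup : ∀ n ∈ Finset.Ioc M N, ∀ h ≤ g, rho1 P z (n + (X + h)) ≤ 2 * w / l := by
    intro n hn h hh
    obtain ⟨v1, v2, v3⟩ := hval n hn h hh
    have hzm := h3 _ (by omega) v3
    have hmX : (X : ℝ) ≤ ((n + (X + h) : ℕ) : ℝ) := by exact_mod_cast v2
    have hlm : Real.log (X : ℝ) ≤ Real.log ((n + (X + h) : ℕ) : ℝ) := Real.log_le_log (by linarith) hmX
    have hWm : W P (z (n + (X + h))) ≤ w := by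
      rw [hw]
      exact (W_le P _).trans (W0_mono hzm)
    unfold rho1
    split_ifs
    · refine (min_le_right _ _).trans ?_
      rw [div_le_div_iff₀ (by linarith) (by linarith)]
      calc W P (z (n + (X + h))) * l ≤ w * (2 * Real.log (X : ℝ)) := by gcongr
        _ ≤ w * (2 * Real.log ((n + (X + h) : ℕ) : ℝ)) := by gcongr
        _ = _ := by ring
    · positivity
  have hRup : ∀ j ∈ (Finset.range (g + 1)).filter (fun j => j ∉ H),
      Rf (insert j H) ≤ N * (2 * w / l) ^ (k + 1) := by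
    intro j hj
    rw [Finset.mem_filter, Finset.mem_range] at hj
    have hcj : (insert j H).card = k + 1 := by rw [Finset.card_insert_of_notMem hj.2, hHk]
    rw [hRf]
    simp only
    calc ∑ n ∈ Finset.Ioc M N, ∏ h ∈ insert j H, rho1 P z (n + (X + h))
        ≤ ∑ n ∈ Finset.Ioc M N, (2 * w / l) ^ (k + 1) := by
          apply Finset.sum_le_sum
          intro n hn
          rw [← hcj, ← Finset.prod_const]
          apply Finset.prod_le_prod
          · intro h _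
            exact (rho1_bounds P z _).1
          · intro h hh
            apply hrup n hn
            rcases Finset.mem_insert.1 hh with rfl | hh
            · omega
            · exact hHg h hh
      _ = ((Finset.Ioc M N).card : ℝ) * (2 * w / l) ^ (k + 1) := by rw [Finset.sum_const, nsmul_eq_mul]
      _ ≤ N * (2 * w / l) ^ (k + 1) := by gcongr
  -- lower bound for the expected number
  have hRlow : (c * ((N : ℝ) - M) / w ^ (2 * k) - (Y : ℝ) ^ B) * (1 / (3 * l)) ^ k ≤ Rf H := by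
    have hadm' : Adm P (patL X H) := by
      intro q hq hqp
      obtain ⟨m, hm⟩ := hadm q hq hqp
      have hq1 := hqp.one_lt
      obtain ⟨q', hq'⟩ : ∃ q', q = q' + 1 := ⟨q - 1, by omega⟩
      refine ⟨m + q' * X, fun f hf => ?_⟩
      obtain ⟨h, hh, rfl⟩ := mem_patL.1 hf
      intro hd
      have e1 : 1 * (m + q' * X) + (X + h) = (m + h) + q * X := by rw [hq']; ring
      simp only at hd
      rw [e1] at hd
      exact hm h hh ((Nat.dvd_add_left (Dvd.intro _ rfl)).1 hd)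
    have e1 := hR P (patL X H) (by rw [card_patL, hHk]) hadm' M N Y hMN hY2
    rw [← hw] at e1
    have hsub : RR P (patL X H) M N Y ⊆ Finset.Ioc M N := by
      unfold RR
      exact Finset.filter_subset _ _
    rw [hRf]
    simp only
    calc (c * ((N : ℝ) - M) / w ^ (2 * k) - (Y : ℝ) ^ B) * (1 / (3 * l)) ^ k
        ≤ ((RR P (patL X H) M N Y).card : ℝ) * (1 / (3 * l)) ^ k := by gcongr
      _ = ∑ _n ∈ RR P (patL X H) M N Y, (1 / (3 * l)) ^ k := by rw [Finset.sum_const, nsmul_eq_mul]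
      _ ≤ ∑ n ∈ RR P (patL X H) M N Y, ∏ h ∈ H, rho1 P z (n + (X + h)) := by
        apply Finset.sum_le_sum
        intro n hn
        have hn1 := hsub hn
        unfold RR at hn
        rw [Finset.mem_filter] at hn
        rw [← hHk, ← Finset.prod_const]
        apply Finset.prod_le_prod
        · intro h _
          positivity
        · intro h hh
          obtain ⟨v1, v2, v3⟩ := hval n hn1 h (hHg h hh)
          have hzm := h3 _ (by omega) v3
          have hrg : Rough P z (n + (X + h)) := by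
            intro q hqP hq hqz hd
            apply hn.2 q hqP hq (hqz.trans hzm) (1, X + h) (mem_patL.2 ⟨h, hh, rfl⟩)
            simpa using hd
          have hmX : (X : ℝ) ≤ ((n + (X + h) : ℕ) : ℝ) := by exact_mod_cast v2
          have hlm : Real.log (X : ℝ) ≤ Real.log ((n + (X + h) : ℕ) : ℝ) := Real.log_le_log (by linarith) hmX
          have hlm2 : Real.log ((n + (X + h) : ℕ) : ℝ) ≤ 3 * l := by
            have e6 : ((n + (X + h) : ℕ) : ℝ) ≤ (x : ℝ) ^ 3 := by exact_mod_cast v3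
            have e7 := Real.log_le_log (by linarith) e6
            rw [Real.log_pow] at e7
            rw [hl]
            exact_mod_cast e7
          unfold rho1
          rw [if_pos hrg]
          apply le_min
          · rw [div_le_one (by positivity)]
            linarith
          · have := W_ge P (z (n + (X + h)))
            have hpos : 0 < Real.log ((n + (X + h) : ℕ) : ℝ) := by linarith
            gcongr
      _ ≤ ∑ n ∈ Finset.Ioc M N, ∏ h ∈ H, rho1 P z (n + (X + h)) :=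
        Finset.sum_le_sum_of_subset_of_nonneg hsub fun n _ _ =>
          Finset.prod_nonneg fun h _ => (rho1_bounds P z _).1
  -- the numbers
  have hnum := hK l N M w ((Y : ℝ) ^ B) g (K' * √(l * N)) (K' * √(l * N)) hKl hw1 h5 (Nat.cast_nonneg M) hM2l
    (by positivity)
    (by
      rw [pow_mul]
      exact pow_le_pow_left₀ (Nat.cast_nonneg Y) h4 B) hNl (Nat.cast_nonneg g) hgl le_rfl le_rfl
  have hbonf := bonf (A := A) (ω := ω) X H g M N
  have hsumJ : ∑ j ∈ (Finset.range (g + 1)).filter (fun j => j ∉ H), Sf (insert j H) ≤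
      (g + 1) * ((3 / 2) * (N * (2 * w / l) ^ (k + 1)) + K' * √(l * N)) := by
    have e1 : ∀ j ∈ (Finset.range (g + 1)).filter (fun j => j ∉ H),
        Sf (insert j H) ≤ (3 / 2) * (N * (2 * w / l) ^ (k + 1)) + K' * √(l * N) := by
      intro j hj
      have := hlawJ j hj
      have := hRup j hj
      linarith
    refine (Finset.sum_le_card_nsmul _ _ _ e1).trans ?_
    rw [nsmul_eq_mul]
    have e2 : (((Finset.range (g + 1)).filter (fun j => j ∉ H)).card : ℝ) ≤ g + 1 := by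
      have := (Finset.card_filter_le (Finset.range (g + 1)) (fun j => j ∉ H))
      rw [Finset.card_range] at this
      exact_mod_cast this
    have hl0 : 0 < l := by linarith
    gcongr
  have hfinal : 2 ^ (k + 1) * ((N : ℝ) / l ^ (k + 1)) ≤
      (((Finset.Ioc M N).filter (fun n => (∀ h ∈ H, ω ∈ A (n + (X + h))) ∧
        ∀ j ≤ g, j ∉ H → ω ∉ A (n + (X + j)))).card : ℝ) := by
    refine le_trans ?_ hbonf
    have e1 : ∑ n ∈ Finset.Ioc M N, ∏ h ∈ H, In A (n + (X + h)) ω = Sf H := by rw [hSf]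
    have e2 : ∑ j ∈ (Finset.range (g + 1)).filter (fun j => j ∉ H),
        ∑ n ∈ Finset.Ioc M N, ∏ h ∈ insert j H, In A (n + (X + h)) ω =
        ∑ j ∈ (Finset.range (g + 1)).filter (fun j => j ∉ H), Sf (insert j H) := by rw [hSf]
    rw [e1, e2]
    linarith
  have hinj : ((Finset.Ioc M N).filter (fun n => (∀ h ∈ H, ω ∈ A (n + (X + h))) ∧
      ∀ j ≤ g, j ∉ H → ω ∉ A (n + (X + j)))).card ≤
      ((Finset.Ioc X (X + N)).filter (fun n => ∀ j ≤ g, (ω ∈ A (n + j) ↔ j ∈ H))).card := by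
    apply Finset.card_le_card_of_injOn (fun n => n + X)
    · intro n hn
      rw [Finset.mem_coe, Finset.mem_filter, Finset.mem_Ioc] at hn
      obtain ⟨⟨n1, n2⟩, n3, n4⟩ := hn
      rw [Finset.mem_coe, Finset.mem_filter, Finset.mem_Ioc]
      refine ⟨(by omega : X < n + X ∧ n + X ≤ X + N), fun j hj => ?_⟩
      show ω ∈ A (n + X + j) ↔ j ∈ H
      rw [add_assoc]
      constructor
      · intro hA
        by_contra hjH
        exact n4 j hj hjH hA
      · intro hjH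
        exact n3 j hjH
    · intro a _ b _ hab
      simp only at hab
      omega
  have hlast : (N : ℝ) / Real.log X ^ (k + 1) ≤ 2 ^ (k + 1) * ((N : ℝ) / l ^ (k + 1)) := by
    rw [← mul_div_assoc, div_le_div_iff₀ (by positivity) (by positivity)]
    calc (N : ℝ) * l ^ (k + 1) ≤ N * (2 * Real.log X) ^ (k + 1) := by gcongr
      _ = 2 ^ (k + 1) * N * Real.log X ^ (k + 1) := by rw [mul_pow]; ring
  refine hlast.trans (hfinal.trans ?_)
  exact_mod_cast hinj

end Pool.Agent.J6H13.UM
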