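import Mathlib

/-! # The numbers `(a ^ p - b ^ p) / (a - b)` (helper13) -/

set_option autoImplicit false

namespace Pool.Agent.J6H13.UM

/-- `(a ^ p - b ^ p) / (a - b)` as a natural number -/
def MM (a b : ℤ) (p : ℕ) : ℕ := ((a ^ p - b ^ p) / (a - b)).toNat

section

variable {a b : ℤ} (ha : 1 < a) (hb1 : -a < b) (hb2 : b < a)

include ha hb1 hb2

lemma pow_abs_le (p : ℕ) : b ^ p ≤ (a - 1) ^ p ∧ -((a - 1) ^ p) ≤ b ^ p := by
  have h1 : |b| ≤ a - 1 := abs_le.2 ⟨by omega, by omega⟩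
  have h2 : |b ^ p| ≤ (a - 1) ^ p := by
    rw [abs_pow]
    exact pow_le_pow_left₀ (abs_nonneg b) h1 p
  have h3 := abs_le.1 h2
  exact ⟨h3.2, h3.1⟩

lemma diff_low (p : ℕ) (hp : 1 ≤ p) : a ^ (p - 1) ≤ a ^ p - b ^ p := by
  obtain ⟨q, rfl⟩ : ∃ q, p = q + 1 := ⟨p - 1, by omega⟩
  rw [Nat.add_sub_cancel]
  have h1 := (pow_abs_le ha hb1 hb2 (q + 1)).1
  have h2 : (a - 1) ^ q ≤ a ^ q := pow_le_pow_left₀ (by omega) (by omega) q
  have h3 : (a - 1) ^ (q + 1) = (a - 1) ^ q * (a - 1) := pow_succ _ _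
  have h4 : a ^ (q + 1) = a ^ q * a := pow_succ _ _
  have h5 : 0 ≤ (a - 1) ^ q := pow_nonneg (by omega) q
  nlinarith

lemma MM_mul (p : ℕ) (hp : 1 ≤ p) : (a - b) * (MM a b p : ℤ) = a ^ p - b ^ p := by
  have h1 := diff_low ha hb1 hb2 p hp
  have h2 : 0 ≤ a ^ p - b ^ p := le_trans (pow_nonneg (by omega) _) h1
  have h3 : 0 ≤ (a ^ p - b ^ p) / (a - b) := Int.ediv_nonneg h2 (by omega)
  unfold MM
  rw [Int.toNat_of_nonneg h3]
  exact Int.mul_ediv_cancel' (sub_dvd_pow_sub_pow a b p)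

lemma MM_up (p : ℕ) (hp : 1 ≤ p) : (MM a b p : ℤ) ≤ 2 * a ^ p := by
  have h1 := MM_mul ha hb1 hb2 p hp
  have h2 := (pow_abs_le ha hb1 hb2 p).2
  have h3 : (a - 1) ^ p ≤ a ^ p := pow_le_pow_left₀ (by omega) (by omega) p
  have h4 : (0 : ℤ) ≤ MM a b p := Int.natCast_nonneg _
  nlinarith

lemma MM_low (p : ℕ) (hp : 1 ≤ p) : a ^ (p - 1) ≤ 2 * a * (MM a b p : ℤ) := by
  have h1 := MM_mul ha hb1 hb2 p hp
  have h2 := diff_low ha hb1 hb2 p hp
  have h4 : (0 : ℤ) ≤ MM a b p := Int.natCast_nonneg _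
  nlinarith

lemma MM_pos (p : ℕ) (hp : 1 ≤ p) : 1 ≤ MM a b p := by
  have h1 := MM_low ha hb1 hb2 p hp
  have h2 : 0 < a ^ (p - 1) := pow_pos (by omega) _
  have h3 : (0 : ℤ) < MM a b p := by
    by_contra h
    push Not at h
    nlinarith
  exact_mod_cast h3

lemma diff_mono (n : ℕ) : a ^ (n + 2) - b ^ (n + 2) < a ^ (n + 3) - b ^ (n + 3) := by
  have h1 : |b| ≤ a - 1 := abs_le.2 ⟨by omega, by omega⟩
  have h2 : |b ^ (n + 3) - b ^ (n + 2)| ≤ (a - 1) ^ (n + 2) * a := by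
    have e1 : b ^ (n + 3) - b ^ (n + 2) = b ^ (n + 2) * (b - 1) := by ring
    rw [e1, abs_mul, abs_pow]
    have h3 : |b - 1| ≤ a := abs_le.2 ⟨by omega, by omega⟩
    exact mul_le_mul (pow_le_pow_left₀ (abs_nonneg b) h1 _) h3 (abs_nonneg _) (pow_nonneg (by omega) _)
  have h3 : (a - 1) ^ (n + 1) < a ^ (n + 1) := pow_lt_pow_left₀ (by omega) (by omega) (by omega)
  have h4 : (a - 1) ^ (n + 2) * a < (a - 1) * a ^ (n + 2) := by
    calc (a - 1) ^ (n + 2) * a = ((a - 1) * a) * (a - 1) ^ (n + 1) := by ring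
      _ < ((a - 1) * a) * a ^ (n + 1) := by
        apply mul_lt_mul_of_pos_left h3
        apply mul_pos <;> omega
      _ = (a - 1) * a ^ (n + 2) := by ring
  have h5 := (abs_le.1 h2).2
  have h6 : a ^ (n + 3) = a * a ^ (n + 2) := by ring
  have h7 : (a - 1) * a ^ (n + 2) = a * a ^ (n + 2) - a ^ (n + 2) := by ring
  linarith

lemma MM_mono : StrictMono (fun n : ℕ => MM a b (n + 2)) := by
  apply strictMono_nat_of_lt_succ
  intro n
  have h1 := MM_mul ha hb1 hb2 (n + 2) (by omega)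
  have h2 := MM_mul ha hb1 hb2 (n + 3) (by omega)
  have h3 := diff_mono ha hb1 hb2 n
  rw [← h1, ← h2] at h3
  have h4 := lt_of_mul_lt_mul_left h3 (by omega)
  show MM a b (n + 2) < MM a b (n + 1 + 2)
  exact_mod_cast h4

/-- the prime factors of `(a ^ p - b ^ p) / (a - b)` are at least `2 p + 1` -/
lemma MM_factor (hab : IsCoprime a b) (p : ℕ) (hp : p.Prime) (hp3 : 3 ≤ p) (hpab : a - b < p) (q : ℕ) (hq : q.Prime)
    (hqM : q ∣ MM a b p) : 2 * p + 1 ≤ q := by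
  haveI := Fact.mk hq
  haveI := Fact.mk hp
  have hdiv : (q : ℤ) ∣ a ^ p - b ^ p := by
    rw [← MM_mul ha hb1 hb2 p hp.one_lt.le]
    exact Dvd.dvd.mul_left (by exact_mod_cast hqM) _
  have hqpr : Prime (q : ℤ) := Nat.prime_iff_prime_int.1 hq
  have hqb : ¬ (q : ℤ) ∣ b := by
    intro h
    have h1 : (q : ℤ) ∣ a ^ p := by
      have h2 : (q : ℤ) ∣ b ^ p := Dvd.dvd.trans h (dvd_pow_self b hp.ne_zero)
      have h3 := dvd_add hdiv h2
      rwa [sub_add_cancel] at h3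
    have h2 := hqpr.dvd_of_dvd_pow h1
    have h3 := hab.isUnit_of_dvd' h2 h
    exact hqpr.not_unit h3
  have hqa : ¬ (q : ℤ) ∣ a := by
    intro h
    have h1 : (q : ℤ) ∣ b ^ p := by
      have h2 : (q : ℤ) ∣ a ^ p := Dvd.dvd.trans h (dvd_pow_self a hp.ne_zero)
      have h3 := dvd_sub h2 hdiv
      rwa [sub_sub_cancel] at h3
    exact hqb (hqpr.dvd_of_dvd_pow h1)
  have hbz : (b : ZMod q) ≠ 0 := by
    rw [Ne, ZMod.intCast_zmod_eq_zero_iff_dvd]
    exact hqb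
  have haz : (a : ZMod q) ≠ 0 := by
    rw [Ne, ZMod.intCast_zmod_eq_zero_iff_dvd]
    exact hqa
  have hpow : (a : ZMod q) ^ p = (b : ZMod q) ^ p := by
    have h1 : (((a ^ p - b ^ p : ℤ)) : ZMod q) = 0 := by
      rw [ZMod.intCast_zmod_eq_zero_iff_dvd]
      exact hdiv
    push_cast at h1
    exact sub_eq_zero.1 h1
  obtain ⟨u, hu⟩ : ∃ u : ZMod q, u = (a : ZMod q) / b := ⟨_, rfl⟩
  have hu0 : u ≠ 0 := by rw [hu]; exact div_ne_zero haz hbz
  have hup : u ^ p = 1 := by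
    rw [hu, div_pow, hpow, div_self (pow_ne_zero _ hbz)]
  have hord : orderOf u ∣ p := orderOf_dvd_of_pow_eq_one hup
  rcases (Nat.dvd_prime hp).1 hord with h1 | h1
  · -- `a = b` modulo `q`
    exfalso
    have hu1 : u = 1 := orderOf_eq_one_iff.1 h1
    have hab' : (a : ZMod q) = b := by
      rw [hu, div_eq_one_iff_eq hbz] at hu1
      exact hu1
    have hM : (MM a b p : ℤ) = ∑ i ∈ Finset.range p, a ^ i * b ^ (p - 1 - i) := by
      have h2 := MM_mul ha hb1 hb2 p hp.one_lt.le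
      have h3 : (∑ i ∈ Finset.range p, a ^ i * b ^ (p - 1 - i)) * (a - b) = a ^ p - b ^ p :=
        (Commute.all a b).geom_sum₂_mul p
      have h4 : (a - b) * (MM a b p : ℤ) = (a - b) * ∑ i ∈ Finset.range p, a ^ i * b ^ (p - 1 - i) := by
        rw [h2, ← h3]
        ring
      exact mul_left_cancel₀ (by omega) h4
    have hMz : ((MM a b p : ℤ) : ZMod q) = p * (b : ZMod q) ^ (p - 1) := by
      rw [hM]
      push_cast
      rw [hab']
      have : ∀ i ∈ Finset.range p, (b : ZMod q) ^ i * (b : ZMod q) ^ (p - 1 - i) = (b : ZMod q) ^ (p - 1) := by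
        intro i hi
        rw [Finset.mem_range] at hi
        rw [← pow_add]
        congr 1
        omega
      rw [Finset.sum_congr rfl this, Finset.sum_const, Finset.card_range, nsmul_eq_mul]
    have hMz0 : ((MM a b p : ℤ) : ZMod q) = 0 := by
      rw [ZMod.intCast_zmod_eq_zero_iff_dvd]
      exact_mod_cast hqM
    rw [hMz] at hMz0
    have hpz : ((p : ℕ) : ZMod q) = 0 := by
      rcases mul_eq_zero.1 hMz0 with h5 | h5
      · exact h5
      · exact absurd h5 (pow_ne_zero _ hbz)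
    have hqp : q ∣ p := (ZMod.natCast_eq_zero_iff _ _).1 hpz
    have hqp' : q = p := (Nat.prime_dvd_prime_iff_eq hq hp).1 hqp
    have hd : (q : ℤ) ∣ a - b := by
      rw [← ZMod.intCast_zmod_eq_zero_iff_dvd]
      push_cast
      rw [hab', sub_self]
    have := Int.le_of_dvd (by omega) hd
    rw [hqp'] at this
    omega
  · have h2 : p ∣ q - 1 := h1 ▸ ZMod.orderOf_dvd_card_sub_one hu0
    obtain ⟨k, hk⟩ := h2
    have hq1 := hq.one_lt
    have hodd : p % 2 = 1 := by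
      rcases hp.eq_two_or_odd with h | h
      · omega
      · exact h
    rcases hq.eq_two_or_odd with h3 | h3
    · exfalso
      rcases Nat.eq_zero_or_pos k with h4 | h4
      · rw [h4] at hk
        omega
      · have : p * 1 ≤ p * k := Nat.mul_le_mul_left p h4
        omega
    · have hk2 : 2 ≤ k := by
        by_contra hcon
        have : k = 0 ∨ k = 1 := by omega
        rcases this with h | h
        · rw [h] at hk; omega
        · rw [h] at hk; omega
      have : p * 2 ≤ p * k := Nat.mul_le_mul_left p hk2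
      omega

end

end Pool.Agent.J6H13.UM
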