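import Mathlib
import Pool.Agent.J6H13.UM.All
import Pool.Agent.J6H13.UM.Mp
import Pool.Agent.R528.RM.BHG
import Pool.Agent.Helper923.HMertens

/-! # The Lenstra-Pomerance-Wagstaff constant in the models (helper13) -/

set_option autoImplicit false
set_option linter.unusedSectionVars false

namespace Pool.Agent.J6H13.UM

open Filter MeasureTheory Asymptotics
open Pool.Agent.R528.RM
open scoped Topology

lemma W_univ (x : ℕ) : W Set.univ x = W0 x := by
  classical
  unfold W W0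
  congr 1
  ext q
  simp

open Classical in
/-- `log p / p` at `p = n + 2`, for `p` in the set `E` of exponents -/
noncomputable def lw (E : Set ℕ) (n : ℕ) : ℝ :=
  if (n + 2).Prime ∧ n + 2 ∈ E then Real.log ((n + 2 : ℕ) : ℝ) / ((n + 2 : ℕ) : ℝ) else 0

open Classical in
/-- the sum of `log p / p` over the primes `p ≤ y` in `E` -/
noncomputable def VE (E : Set ℕ) (y : ℕ) : ℝ :=
  ∑ p ∈ (Finset.range (y + 1)).filter (fun p => p.Prime ∧ p ∈ E), Real.log p / p

lemma VE_sum (E : Set ℕ) (x : ℕ) : VE E (x + 1) = ∑ n ∈ Finset.range x, lw E n := by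
  classical
  unfold VE
  rw [Finset.sum_filter, Finset.sum_range_succ', Finset.sum_range_succ',
    if_neg (fun h => Nat.not_prime_one h.1), if_neg (fun h => Nat.not_prime_zero h.1), add_zero, add_zero]
  rfl

lemma lw_nonneg (E : Set ℕ) (n : ℕ) : 0 ≤ lw E n := by
  unfold lw
  split_ifs
  · exact div_nonneg (Real.log_natCast_nonneg _) (Nat.cast_nonneg _)
  · exact le_rfl

lemma lw_sum (x : ℕ) : ∑ n ∈ Finset.range x, lw Set.univ n =
    ∑ p ∈ (Finset.Icc 1 (x + 1)).filter Nat.Prime, Real.log p / p := by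
  rw [Finset.sum_filter]
  induction x with
  | zero => simp [Nat.not_prime_one]
  | succ x ih =>
    rw [Finset.sum_range_succ, ih, Finset.sum_Icc_succ_top (show 1 ≤ x + 1 + 1 by omega)
      (fun p : ℕ => if p.Prime then Real.log p / p else 0)]
    congr 1
    unfold lw
    simp only [Set.mem_univ, and_true]

lemma lw_tend : Tendsto (fun x : ℕ => (∑ n ∈ Finset.range x, lw Set.univ n) / Real.log ((x + 1 : ℕ) : ℝ))
    atTop (𝓝 1) := by
  obtain ⟨C, hC⟩ := Pool.Agent.Helper923.HMertens.mertens_log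
  have hl : Tendsto (fun x : ℕ => Real.log ((x + 1 : ℕ) : ℝ)) atTop atTop := logN.comp (tendsto_add_atTop_nat 1)
  have h0 : Tendsto (fun x : ℕ => C / Real.log ((x + 1 : ℕ) : ℝ)) atTop (𝓝 0) := hl.const_div_atTop C
  rw [tendsto_iff_norm_sub_tendsto_zero]
  refine squeeze_zero' (Eventually.of_forall fun _ => norm_nonneg _) ?_ h0
  filter_upwards [hl.eventually_gt_atTop 0] with x hx
  have h1 := hC (x + 1) (by omega)
  rw [lw_sum, Real.norm_eq_abs, div_sub_one hx.ne', abs_div, abs_of_pos hx]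
  exact div_le_div_of_nonneg_right h1 hx.le

section

variable {z : ℕ → ℕ} {θ : ℝ}

lemma loglogN : Tendsto (fun n : ℕ => Real.log (Real.log (n : ℝ))) atTop atTop := Real.tendsto_log_atTop.comp logN

lemma z_log (hθ : 0 < θ) (hz : Tendsto (fun n : ℕ => Real.log (z n) / Real.log (Real.log n)) atTop (𝓝 θ)) :
    Tendsto (fun n : ℕ => Real.log (z n : ℝ)) atTop atTop := by
  have h1 := hz.pos_mul_atTop hθ loglogN
  refine h1.congr' ?_
  filter_upwards [loglogN.eventually_gt_atTop 0] with n hn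
  field_simp

lemma z_tend (hθ : 0 < θ) (hz : Tendsto (fun n : ℕ => Real.log (z n) / Real.log (Real.log n)) atTop (𝓝 θ)) :
    Tendsto z atTop atTop := by
  rw [tendsto_atTop]
  intro b
  filter_upwards [(z_log hθ hz).eventually_gt_atTop (Real.log b)] with n hn
  by_contra h
  rw [not_le] at h
  rcases Nat.eq_zero_or_pos (z n) with h1 | h1
  · rw [h1, Nat.cast_zero, Real.log_zero] at hn
    have := Real.log_natCast_nonneg b
    linarith
  · have h2 : Real.log (z n) ≤ Real.log b := Real.log_le_log (by exact_mod_cast h1) (by exact_mod_cast h.le)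
    linarith

lemma W0_z (hθ : 0 < θ) (hz : Tendsto (fun n : ℕ => Real.log (z n) / Real.log (Real.log n)) atTop (𝓝 θ)) :
    Tendsto (fun n : ℕ => W0 (z n) / Real.log (Real.log n)) atTop
      (𝓝 (θ * Real.exp Real.eulerMascheroniConstant)) := by
  have h1 : Tendsto (fun n : ℕ => W0 (z n) / Real.log (z n)) atTop
      (𝓝 (Real.exp Real.eulerMascheroniConstant)) := Pool.Agent.H305R2.mertens_three.comp (z_tend hθ hz)
  have h2 := hz.mul h1
  refine h2.congr' ?_
  filter_upwards [(z_log hθ hz).eventually_gt_atTop 0] with n hn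
  field_simp

lemma z_short (hz : Tendsto (fun n : ℕ => Real.log (z n) / Real.log (Real.log n)) atTop (𝓝 θ)) :
    ∃ C : ℕ, ∀ᶠ n : ℕ in atTop, (z n : ℝ) ≤ Real.log n ^ C := by
  refine ⟨⌈θ + 1⌉₊, ?_⟩
  filter_upwards [hz.eventually (gt_mem_nhds (show θ < θ + 1 by linarith)), loglogN.eventually_gt_atTop 0,
    logN.eventually_gt_atTop 1] with n h1 h2 h3
  rw [div_lt_iff₀ h2] at h1
  rcases Nat.eq_zero_or_pos (z n) with h4 | h4
  · rw [h4, Nat.cast_zero]
    positivity
  · have h5 : (0 : ℝ) < z n := by exact_mod_cast h4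
    have h6 : Real.log (z n) ≤ Real.log (Real.log n ^ ⌈θ + 1⌉₊) := by
      rw [Real.log_pow]
      refine h1.le.trans (mul_le_mul_of_nonneg_right (Nat.le_ceil _) h2.le)
    exact (Real.log_le_log_iff h5 (by positivity)).1 h6

end

section

variable {a b : ℤ} (ha : 1 < a) (hb1 : -a < b) (hb2 : b < a)

include ha hb1 hb2

lemma MM_log (p : ℕ) (hp : 1 ≤ p) :
    |Real.log (MM a b p) - p * Real.log a| ≤ 2 * Real.log a + Real.log 2 := by
  have ha0 : (0 : ℝ) < a := by exact_mod_cast (by omega : (0 : ℤ) < a)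
  have ha1 : (1 : ℝ) < a := by exact_mod_cast ha
  have hla : 0 < Real.log a := Real.log_pos ha1
  have hl2 : 0 < Real.log 2 := Real.log_pos (by norm_num)
  have hM0 : (0 : ℝ) < MM a b p := by exact_mod_cast MM_pos ha hb1 hb2 p hp
  have h1 : (MM a b p : ℝ) ≤ 2 * (a : ℝ) ^ p := by exact_mod_cast MM_up ha hb1 hb2 p hp
  have h2 : (a : ℝ) ^ (p - 1) ≤ 2 * (a : ℝ) * (MM a b p : ℝ) := by exact_mod_cast MM_low ha hb1 hb2 p hp
  have h3 := Real.log_le_log hM0 h1
  rw [Real.log_mul (by norm_num) (by positivity), Real.log_pow] at h3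
  have h4 := Real.log_le_log (by positivity) h2
  rw [Real.log_mul (by positivity) hM0.ne', Real.log_mul (by norm_num) ha0.ne', Real.log_pow,
    Nat.cast_sub hp, Nat.cast_one] at h4
  rw [abs_le]
  constructor
  · linarith
  · linarith

lemma MM_ratio : Tendsto (fun n : ℕ => Real.log (MM a b (n + 2)) / (((n + 2 : ℕ) : ℝ) * Real.log a))
    atTop (𝓝 1) := by
  have ha1 : (1 : ℝ) < a := by exact_mod_cast ha
  have hla : 0 < Real.log a := Real.log_pos ha1
  have hn : Tendsto (fun n : ℕ => ((n + 2 : ℕ) : ℝ) * Real.log a) atTop atTop :=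
    (tendsto_natCast_atTop_atTop.comp (tendsto_add_atTop_nat 2)).atTop_mul_const hla
  have h0 := hn.const_div_atTop (2 * Real.log a + Real.log 2)
  rw [tendsto_iff_norm_sub_tendsto_zero]
  refine squeeze_zero' (Eventually.of_forall fun _ => norm_nonneg _) ?_ h0
  filter_upwards [hn.eventually_gt_atTop 0] with n hx
  have h1 := MM_log ha hb1 hb2 (n + 2) (by omega)
  rw [Real.norm_eq_abs, div_sub_one hx.ne', abs_div, abs_of_pos hx]
  exact div_le_div_of_nonneg_right h1 hx.le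

lemma MM_loglog : Tendsto (fun n : ℕ => Real.log (Real.log (MM a b (n + 2))) / Real.log ((n + 2 : ℕ) : ℝ))
    atTop (𝓝 1) := by
  have ha1 : (1 : ℝ) < a := by exact_mod_cast ha
  have hla : 0 < Real.log a := Real.log_pos ha1
  have hr := MM_ratio ha hb1 hb2
  have hl : Tendsto (fun n : ℕ => Real.log ((n + 2 : ℕ) : ℝ)) atTop atTop := logN.comp (tendsto_add_atTop_nat 2)
  have h1 : Tendsto (fun n : ℕ => Real.log (Real.log (MM a b (n + 2)) / (((n + 2 : ℕ) : ℝ) * Real.log a)))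
      atTop (𝓝 0) := by
    have := (Real.continuousAt_log (one_ne_zero)).tendsto.comp hr
    rw [Real.log_one] at this
    exact this
  have h2 := h1.div_atTop hl
  have h3 := hl.const_div_atTop (Real.log (Real.log a))
  have h4 := (h2.add h3).add (tendsto_const_nhds (x := (1 : ℝ)))
  rw [zero_add, zero_add] at h4
  refine h4.congr' ?_
  filter_upwards [hr.eventually (lt_mem_nhds (show (0 : ℝ) < 1 by norm_num)), hl.eventually_gt_atTop 0] with n g1 g2
  have hn : (0 : ℝ) < ((n + 2 : ℕ) : ℝ) := by exact_mod_cast (by omega : 0 < n + 2)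
  have e1 : Real.log (MM a b (n + 2)) = Real.log (MM a b (n + 2)) / (((n + 2 : ℕ) : ℝ) * Real.log a) *
      (((n + 2 : ℕ) : ℝ) * Real.log a) := by
    field_simp
  have e2 : Real.log (Real.log (MM a b (n + 2))) =
      Real.log (Real.log (MM a b (n + 2)) / (((n + 2 : ℕ) : ℝ) * Real.log a)) +
        (Real.log ((n + 2 : ℕ) : ℝ) + Real.log (Real.log a)) := by
    conv_lhs => rw [e1]
    rw [Real.log_mul g1.ne' (by positivity), Real.log_mul hn.ne' hla.ne']
  rw [e2]
  field_simp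
  ring

lemma MM_tend : Tendsto (fun n : ℕ => MM a b (n + 2)) atTop atTop := (MM_mono ha hb1 hb2).tendsto_atTop

lemma MM_W {z : ℕ → ℕ} {κ : ℝ} (hW : Tendsto (fun n : ℕ => W0 (z n) / Real.log (Real.log n)) atTop (𝓝 κ)) :
    Tendsto (fun n : ℕ => W0 (z (MM a b (n + 2))) / Real.log (MM a b (n + 2)) *
      (((n + 2 : ℕ) : ℝ) * Real.log a) / Real.log ((n + 2 : ℕ) : ℝ)) atTop (𝓝 κ) := by
  have ha1 : (1 : ℝ) < a := by exact_mod_cast ha
  have hla : 0 < Real.log a := Real.log_pos ha1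
  have h1 := hW.comp (MM_tend ha hb1 hb2)
  have h2 := (h1.mul (MM_loglog ha hb1 hb2)).mul ((MM_ratio ha hb1 hb2).inv₀ one_ne_zero)
  rw [mul_one, inv_one, mul_one] at h2
  refine h2.congr' ?_
  have hll := loglogN.comp (MM_tend ha hb1 hb2)
  have hl2 := logN.comp (MM_tend ha hb1 hb2)
  filter_upwards [hll.eventually_gt_atTop 0, hl2.eventually_gt_atTop 0] with n g1 g2
  simp only [Function.comp] at g1 g2 ⊢
  field_simp

end

open Classical in
/-- the number of the primes `p ≤ y` in `E` such that `(a ^ p - b ^ p) / (a - b)` is chosen -/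
noncomputable def cntM {Ω : Type} (A : ℕ → Set Ω) (ω : Ω) (E : Set ℕ) (a b : ℤ) (y : ℕ) : ℕ :=
  ((Finset.range (y + 1)).filter (fun p => (p.Prime ∧ p ∈ E) ∧ ω ∈ A (MM a b p))).card

open Classical in
/-- the indicator of `n + 2` being a prime in `E` -/
noncomputable def wp (E : Set ℕ) (n : ℕ) : ℝ := if (n + 2).Prime ∧ n + 2 ∈ E then 1 else 0

lemma cntM_sum {Ω : Type} (A : ℕ → Set Ω) (ω : Ω) (E : Set ℕ) (a b : ℤ) (x : ℕ) :
    (cntM A ω E a b (x + 1) : ℝ) = ∑ n ∈ Finset.range x, wp E n * In A (MM a b (n + 2)) ω := by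
  classical
  unfold cntM
  rw [Finset.card_filter]
  push_cast
  rw [Finset.sum_range_succ', Finset.sum_range_succ', if_neg (fun h => Nat.not_prime_one h.1.1),
    if_neg (fun h => Nat.not_prime_zero h.1.1), add_zero, add_zero]
  refine Finset.sum_congr rfl fun n _ => ?_
  unfold wp In
  by_cases h1 : (n + 2).Prime ∧ n + 2 ∈ E
  · by_cases h2 : ω ∈ A (MM a b (n + 2))
    · rw [if_pos ⟨h1, h2⟩, if_pos h1, Set.indicator_of_mem h2, one_mul]
    · rw [if_neg (fun h => h2 h.2), if_pos h1, Set.indicator_of_notMem h2, mul_zero]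
  · rw [if_neg (fun h => h1 h.1), if_neg h1, zero_mul]

section

variable {a b : ℤ} (ha : 1 < a) (hb1 : -a < b) (hb2 : b < a)

include ha hb1 hb2

/-- for large `p` the number `(a ^ p - b ^ p) / (a - b)` has no small prime factor -/
lemma MM_rough (hab : IsCoprime a b) {z : ℕ → ℕ} {c : ℝ} (hc : c * Real.log a < 2)
    (hz : ∀ᶠ n : ℕ in atTop, (z n : ℝ) ≤ c * Real.log n) :
    ∀ᶠ n : ℕ in atTop, (n + 2).Prime → Rough Set.univ z (MM a b (n + 2)) := by
  have ha1 : (1 : ℝ) < a := by exact_mod_cast ha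
  have hla : 0 < Real.log a := Real.log_pos ha1
  obtain ⟨d, hd⟩ : ∃ d : ℝ, d = max c 0 := ⟨_, rfl⟩
  have hd0 : 0 ≤ d := hd ▸ le_max_right _ _
  have hcd : c ≤ d := hd ▸ le_max_left _ _
  have hd2 : d * Real.log a < 2 := by
    rw [hd]
    rcases max_cases c 0 with h | h
    · rw [h.1]; exact hc
    · rw [h.1]; norm_num
  obtain ⟨K, hK⟩ : ∃ K : ℝ, K = d * (2 * Real.log a + Real.log 2) := ⟨_, rfl⟩
  have hl : Tendsto (fun n : ℕ => ((n + 2 : ℕ) : ℝ) * (2 - d * Real.log a)) atTop atTop :=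
    (tendsto_natCast_atTop_atTop.comp (tendsto_add_atTop_nat 2)).atTop_mul_const (by linarith)
  filter_upwards [(MM_tend ha hb1 hb2).eventually hz, hl.eventually_gt_atTop K,
    eventually_gt_atTop (a - b).toNat, eventually_ge_atTop 1] with n h1 h2 h3 h4 hp
  intro q _ hq hqz hqM
  have h5 := MM_factor ha hb1 hb2 hab (n + 2) hp (by omega) (by omega) q hq hqM
  have h6 := (abs_le.1 (MM_log ha hb1 hb2 (n + 2) (by omega))).2
  have h7 : (q : ℝ) ≤ z (MM a b (n + 2)) := by exact_mod_cast hqz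
  have h8 : (2 * (n + 2) + 1 : ℝ) ≤ q := by exact_mod_cast h5
  have hlM : 0 ≤ Real.log (MM a b (n + 2)) := Real.log_natCast_nonneg _
  have h9 : c * Real.log (MM a b (n + 2)) ≤ d * Real.log (MM a b (n + 2)) := mul_le_mul_of_nonneg_right hcd hlM
  have h10 : d * Real.log (MM a b (n + 2)) ≤ d * (((n + 2 : ℕ) : ℝ) * Real.log a + (2 * Real.log a + Real.log 2)) :=
    mul_le_mul_of_nonneg_left (by linarith) hd0
  push_cast at h2 h10
  nlinarith

/-- the probabilities along the primes -/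
lemma MM_rho (E : Set ℕ) (hab : IsCoprime a b) {z : ℕ → ℕ} {c κ : ℝ} (hκ : 0 < κ) (hc : c * Real.log a < 2)
    (hz : ∀ᶠ n : ℕ in atTop, (z n : ℝ) ≤ c * Real.log n)
    (hV : ∀ᶠ n : ℕ in atTop, W Set.univ (z n) / Real.log n < 1)
    (hW : Tendsto (fun n : ℕ => W0 (z n) / Real.log (Real.log n)) atTop (𝓝 κ)) (ε : ℝ) (hε : 0 < ε) :
    ∀ᶠ n : ℕ in atTop, |wp E n * rho1 Set.univ z (MM a b (n + 2)) - κ / Real.log a * lw E n| ≤
      ε * (κ / Real.log a * lw E n) := by
  have ha1 : (1 : ℝ) < a := by exact_mod_cast ha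
  have hla : 0 < Real.log a := Real.log_pos ha1
  have h1 := (Metric.tendsto_nhds.1 (MM_W ha hb1 hb2 hW)) (ε * κ) (by positivity)
  have hll := (logN.comp (MM_tend ha hb1 hb2))
  have hl : Tendsto (fun n : ℕ => Real.log ((n + 2 : ℕ) : ℝ)) atTop atTop := logN.comp (tendsto_add_atTop_nat 2)
  filter_upwards [h1, MM_rough ha hb1 hb2 hab hc hz, (MM_tend ha hb1 hb2).eventually hV,
    hll.eventually_gt_atTop 0, hl.eventually_gt_atTop 0] with n g1 g2 g3 g4 g5
  simp only [Function.comp] at g4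
  unfold wp lw
  by_cases hp : (n + 2).Prime ∧ n + 2 ∈ E
  · rw [if_pos hp, if_pos hp, one_mul]
    have e1 : rho1 Set.univ z (MM a b (n + 2)) = W0 (z (MM a b (n + 2))) / Real.log (MM a b (n + 2)) := by
      unfold rho1
      rw [if_pos (g2 hp.1), min_eq_right g3.le, W_univ]
    have hn : (0 : ℝ) < ((n + 2 : ℕ) : ℝ) := by exact_mod_cast (by omega : 0 < n + 2)
    have h2 : 0 < Real.log ((n + 2 : ℕ) : ℝ) / ((n + 2 : ℕ) : ℝ) / Real.log a := by positivity
    rw [e1]
    rw [Real.dist_eq] at g1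
    have e2 : W0 (z (MM a b (n + 2))) / Real.log (MM a b (n + 2)) -
        κ / Real.log a * (Real.log ((n + 2 : ℕ) : ℝ) / ((n + 2 : ℕ) : ℝ)) =
        (W0 (z (MM a b (n + 2))) / Real.log (MM a b (n + 2)) *
          (((n + 2 : ℕ) : ℝ) * Real.log a) / Real.log ((n + 2 : ℕ) : ℝ) - κ) *
          (Real.log ((n + 2 : ℕ) : ℝ) / ((n + 2 : ℕ) : ℝ) / Real.log a) := by
      field_simp
    rw [e2, abs_mul, abs_of_pos h2]
    calc _ ≤ ε * κ * (Real.log ((n + 2 : ℕ) : ℝ) / ((n + 2 : ℕ) : ℝ) / Real.log a) :=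
          mul_le_mul_of_nonneg_right g1.le h2.le
      _ = _ := by ring
  · rw [if_neg hp, if_neg hp]
    simp

end

section

variable {Ω : Type} {m0 : MeasurableSpace Ω} {μ : Measure Ω} [IsProbabilityMeasure μ]
  {ℱ : Filtration ℕ m0} {A : ℕ → Set Ω}

theorem lpw_set (E : Set ℕ) (hE : Tendsto (fun x => ∑ n ∈ Finset.range x, lw E n) atTop atTop)
    {z : ℕ → ℕ} (hM : IsModel μ ℱ A Set.univ z) {θ : ℝ} (hθ : 0 < θ)
    (hzθ : Tendsto (fun n : ℕ => Real.log (z n) / Real.log (Real.log n)) atTop (𝓝 θ))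
    {a b : ℤ} (hab : IsCoprime a b) (ha : 1 < a) (hb1 : -a < b) (hb2 : b < a)
    {c : ℝ} (hc : c * Real.log a < 2) (hz : ∀ᶠ n : ℕ in atTop, (z n : ℝ) ≤ c * Real.log n) :
    ∀ᵐ ω ∂μ, Tendsto (fun x : ℕ => (cntM A ω E a b (x + 1) : ℝ) / ∑ n ∈ Finset.range x, lw E n) atTop
      (𝓝 (θ * Real.exp Real.eulerMascheroniConstant / Real.log a)) := by
  obtain ⟨κ, hκ⟩ : ∃ κ : ℝ, κ = θ * Real.exp Real.eulerMascheroniConstant := ⟨_, rfl⟩
  rw [← hκ]
  have hκ0 : 0 < κ := by rw [hκ]; positivity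
  have hW := W0_z hθ hzθ
  rw [← hκ] at hW
  obtain ⟨C, hC⟩ := z_short hzθ
  have hV := short Set.univ C z hC
  have hprof := profile (μ := μ) (ℱ := ℱ) Set.univ z hV hM.sieved hM.density
  have ha1 : (1 : ℝ) < a := by exact_mod_cast ha
  have hla : 0 < Real.log a := Real.log_pos ha1
  have hrho := MM_rho ha hb1 hb2 E hab hκ0 hc hz hV hW
  have hg : Tendsto (fun x : ℕ => ∑ n ∈ Finset.range x, κ / Real.log a * lw E n) atTop atTop := by
    simp only [← Finset.mul_sum]
    exact hE.const_mul_atTop (by positivity)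
  have hone : Tendsto (fun x : ℕ => (∑ n ∈ Finset.range x, κ / Real.log a * lw E n) /
      ∑ n ∈ Finset.range x, κ / Real.log a * lw E n) atTop (𝓝 1) := by
    refine tendsto_const_nhds.congr' ?_
    filter_upwards [hg.eventually_gt_atTop 0] with x hx
    rw [div_self hx.ne']
  have hfg := sum_ratio (a := fun n => κ / Real.log a * lw E n)
    (b := fun n => wp E n * rho1 Set.univ z (MM a b (n + 2)))
    (fun n => mul_nonneg (by positivity) (lw_nonneg E n)) hg hrho hone
  have hU : Tendsto (fun x : ℕ => ∑ n ∈ Finset.range x, wp E n * rho1 Set.univ z (MM a b (n + 2))) atTop atTop := by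
    have h1 := hfg.pos_mul_atTop one_pos hg
    refine h1.congr' ?_
    filter_upwards [hg.eventually_gt_atTop 0] with x hx
    exact div_mul_cancel₀ _ hx.ne'
  have hwp : ∀ n, 0 ≤ wp E n ∧ wp E n ≤ 1 := fun n => by
    unfold wp
    split_ifs <;> norm_num
  have hb := bhg (μ := μ) (ℱ := ℱ) (A := A) (ι := Unit) hM.adapted (rho1 Set.univ z)
    (fun n => (rho1_bounds _ _ n).1) (fun n => (rho1_bounds _ _ n).2) hprof
    (fun _ n => MM a b (n + 2)) 1 {()} rfl (fun _ _ => MM_mono ha hb1 hb2)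
    (fun _ _ n => MM_pos ha hb1 hb2 (n + 2) (by omega))
    (fun i _ j _ hij => absurd (Subsingleton.elim i j) hij) (wp E) (fun n => (hwp n).1) (fun n => (hwp n).2)
    (by simpa using hU)
  filter_upwards [hb] with ω hω
  have h1 : Tendsto (fun x : ℕ => (cntM A ω E a b (x + 1) : ℝ) /
      ∑ n ∈ Finset.range x, wp E n * rho1 Set.univ z (MM a b (n + 2))) atTop (𝓝 1) := by
    refine hω.congr fun x => ?_
    rw [cntM_sum]
    simp only [YY, Finset.prod_singleton]
    rfl
  have h2 := (h1.mul hfg).const_mul (κ / Real.log a)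
  rw [mul_one, mul_one] at h2
  refine h2.congr' ?_
  filter_upwards [hU.eventually_gt_atTop 0, hE.eventually_gt_atTop 0] with x g2 g4
  rw [← Finset.mul_sum]
  have g5 := hla.ne'
  have g6 := g4.ne'
  have g7 := g2.ne'
  have g9 := hκ0.ne'
  generalize (∑ n ∈ Finset.range x, lw E n) = U at *
  generalize (∑ n ∈ Finset.range x, wp E n * rho1 Set.univ z (MM a b (n + 2))) = V at *
  field_simp

lemma floor_log : Tendsto (fun y : ℝ => Real.log (⌊y⌋₊ : ℝ) / Real.log y) atTop (𝓝 1) := by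
  have h1 : Tendsto (fun y : ℝ => (⌊y⌋₊ : ℝ) / y) atTop (𝓝 1) := tendsto_nat_floor_div_atTop
  have h2 : Tendsto (fun y : ℝ => Real.log ((⌊y⌋₊ : ℝ) / y)) atTop (𝓝 0) := by
    have := (Real.continuousAt_log (one_ne_zero)).tendsto.comp h1
    rw [Real.log_one] at this
    exact this
  have h3 := (h2.div_atTop Real.tendsto_log_atTop).add_const 1
  rw [zero_add] at h3
  refine h3.congr' ?_
  filter_upwards [eventually_gt_atTop 1, h1.eventually (lt_mem_nhds (show (0 : ℝ) < 1 by norm_num))] with y g1 g2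
  have g3 : 0 < Real.log y := Real.log_pos g1
  have g4 : (0 : ℝ) < ⌊y⌋₊ := by
    have := Nat.floor_pos.2 g1.le
    exact_mod_cast this
  rw [Real.log_div g4.ne' (by linarith)]
  field_simp
  ring

theorem lpw_one {z : ℕ → ℕ} (hM : IsModel μ ℱ A Set.univ z) {θ : ℝ} (hθ : 0 < θ)
    (hzθ : Tendsto (fun n : ℕ => Real.log (z n) / Real.log (Real.log n)) atTop (𝓝 θ))
    {a b : ℤ} (hab : IsCoprime a b) (ha : 1 < a) (hb1 : -a < b) (hb2 : b < a)
    {c : ℝ} (hc : c * Real.log a < 2) (hz : ∀ᶠ n : ℕ in atTop, (z n : ℝ) ≤ c * Real.log n) :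
    ∀ᵐ ω ∂μ, Tendsto (fun y : ℝ => (cntM A ω Set.univ a b ⌊y⌋₊ : ℝ) / (Real.log y / Real.log a)) atTop
      (𝓝 (θ * Real.exp Real.eulerMascheroniConstant)) := by
  have ha1 : (1 : ℝ) < a := by exact_mod_cast ha
  have hla : 0 < Real.log a := Real.log_pos ha1
  have hlw := lw_tend
  have hl : Tendsto (fun x : ℕ => Real.log ((x + 1 : ℕ) : ℝ)) atTop atTop := logN.comp (tendsto_add_atTop_nat 1)
  have hE : Tendsto (fun x => ∑ n ∈ Finset.range x, lw Set.univ n) atTop atTop := by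
    refine (hlw.pos_mul_atTop one_pos hl).congr' ?_
    filter_upwards [hl.eventually_gt_atTop 0] with x hx
    exact div_mul_cancel₀ _ hx.ne'
  filter_upwards [lpw_set Set.univ hE hM hθ hzθ hab ha hb1 hb2 hc hz] with ω hω
  have h1 := (hω.mul hlw).const_mul (Real.log a)
  rw [mul_one, mul_div_cancel₀ _ hla.ne'] at h1
  have h2 : Tendsto (fun y : ℕ => (cntM A ω Set.univ a b y : ℝ) / (Real.log y / Real.log a)) atTop
      (𝓝 (θ * Real.exp Real.eulerMascheroniConstant)) := by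
    rw [← tendsto_add_atTop_iff_nat 1]
    refine h1.congr' ?_
    filter_upwards [hE.eventually_gt_atTop 0, hl.eventually_gt_atTop 0] with x g1 g2
    have g3 := g1.ne'
    have g4 := g2.ne'
    have g5 := hla.ne'
    generalize (∑ n ∈ Finset.range x, lw Set.univ n) = U at *
    field_simp
  have h3 := (h2.comp (tendsto_nat_floor_atTop (α := ℝ))).mul floor_log
  rw [mul_one] at h3
  refine h3.congr' ?_
  filter_upwards [eventually_ge_atTop 2] with y hy
  simp only [Function.comp]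
  have g1 : (2 : ℕ) ≤ ⌊y⌋₊ := Nat.le_floor (by exact_mod_cast hy)
  have g2 : 0 < Real.log (⌊y⌋₊ : ℝ) := Real.log_pos (by exact_mod_cast (by omega : 1 < ⌊y⌋₊))
  have g3 : 0 < Real.log y := Real.log_pos (by linarith)
  field_simp

end

end Pool.Agent.J6H13.UM
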