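import Pool.Agent.J6H13.MF.Cnt

set_option autoImplicit false

/-!
# Maier's irregularities of the sieve: the choice of the primes, all below `(log X) ^ c` (helper13)

The first proof is that of `Pool.Agent.J6H13.MF.cntk`, with a bound for the primes.
-/

namespace Pool.Agent.J6H13.UM

open Finset Filter Topology
open Pool.Agent.N610.MS
open Pool.Agent.N610.MS.CNTaux
open Pool.Agent.H378R2 (WW PW GoodS)
open Pool.Agent.J6H13.MF

/-- the choice of the primes for one number `k` of prime factors -/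
lemma cntk' (c a0 a1 : ℝ) (M k : ℕ) (hc : 0 < c) (hc1 : c ≤ 1) (ha0 : 0 < a0) (h01 : a0 ≤ a1)
    (hk : a1 < c * k) (hkM : k + 1 ≤ M) (σ : ℝ) (hσ : σ = (-1) ^ k) :
    ∀ᶠ X : ℝ in atTop, ∀ (S : Finset ℕ) (ps : ℕ), GoodS X S → ∀ y : ℝ,
      Real.log X ^ a0 ≤ y → y ≤ Real.log X ^ a1 →
      ∃ P : Finset ℕ, (∀ p ∈ P, p.Prime ∧ (p : ℝ) ≤ Real.log X ^ c) ∧
        ((∏ p ∈ P, p : ℕ) : ℝ) ≤ Real.exp (Real.log X ^ c / 2) ∧
        1 / 2 ≤ ∏ p ∈ P, (1 - 1 / (p : ℝ)) ∧ 2 * dl M ≤ σ * (rel P y - 1) := by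
  have ha1 : 0 < a1 := ha0.trans_le h01
  have hkpos : (0 : ℝ) < k := by
    by_contra hcon
    rw [not_lt] at hcon
    nlinarith
  have hk1 : 1 ≤ k := by exact_mod_cast hkpos
  have hkR : (1 : ℝ) ≤ k := by exact_mod_cast hk1
  have hM2 : 2 ≤ M := by omega
  have hMR : (k : ℝ) + 1 ≤ M := by exact_mod_cast hkM
  have hM0 : (2 : ℝ) ≤ M := by exact_mod_cast hM2
  obtain ⟨s0, hs0d⟩ : ∃ s0 : ℝ, s0 = 1 / (32 * (M : ℝ)) := ⟨_, rfl⟩
  have hs0 : 0 < s0 := by rw [hs0d]; positivity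
  have hs64 : s0 ≤ 1 / 64 := by
    rw [hs0d]
    apply one_div_le_one_div_of_le (by norm_num)
    linarith
  have hsk : ((k : ℝ) + 1) * s0 ≤ 1 / 2 := by
    rw [hs0d, mul_one_div, div_le_iff₀ (by positivity)]
    linarith
  obtain ⟨δ, hδ⟩ : ∃ δ : ℝ, δ = s0 ^ (k + 1) / (4 * (k + 1).factorial) := ⟨_, rfl⟩
  have hδpos : 0 < δ := by rw [hδ]; positivity
  have hdl : dl M ≤ δ := by rw [hδ, hs0d]; exact dl_le hM2 hkM
  obtain ⟨E, hE⟩ : ∃ E : ℝ, E = Real.exp (-s0) := ⟨_, rfl⟩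
  have hE1 : 1 - s0 ≤ E := by
    rw [hE]
    linarith [Real.add_one_le_exp (-s0)]
  have hE2 : E < 1 := by
    rw [hE, ← Real.exp_zero]
    exact Real.exp_lt_exp.mpr (by linarith)
  have hEpos : 0 < E := by rw [hE]; exact Real.exp_pos _
  have hlog : Real.log (1 / E) = s0 := by
    rw [one_div, hE, Real.log_inv, Real.log_exp, neg_neg]
  obtain ⟨β, hβ0, hβ1, hβ2, hβ3⟩ : ∃ β : ℝ, 0 < β ∧ β ≤ δ / 6 ∧ β ≤ δ / (4 * 1) ∧ β ≤ 1 :=
    ⟨min (δ / 6) (min (δ / (4 * 1)) 1), by positivity, min_le_left _ _,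
      (min_le_right _ _).trans (min_le_left _ _), (min_le_right _ _).trans (min_le_right _ _)⟩
  obtain ⟨μ, hμ0, hμ1, hμ2⟩ : ∃ μ : ℝ, 0 < μ ∧ μ ≤ s0 * (1 / (8 * ((k : ℝ) + 2))) / 3 ∧
      μ ≤ δ / 6 / ((k : ℝ) + 1) :=
    ⟨min (s0 * (1 / (8 * ((k : ℝ) + 2))) / 3) (δ / 6 / ((k : ℝ) + 1)), by positivity,
      min_le_left _ _, min_le_right _ _⟩
  have hev := blockz E μ β s0 hEpos hE2 hlog hμ0 hβ0
  obtain ⟨z0, hz0⟩ := eventually_atTop.1 hev
  have hlogtop := Real.tendsto_log_atTop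
  have T1 : ∀ᶠ L : ℝ in atTop, z0 ≤ L ^ (a0 / k) :=
    (tendsto_rpow_atTop (by positivity)).eventually_ge_atTop _
  have T2 : ∀ᶠ L : ℝ in atTop, 6 / (Real.log L) ^ 2 ≤ μ := by
    have h3 : Tendsto (fun L : ℝ => 6 / (Real.log L) ^ 2) atTop (𝓝 0) :=
      ((tendsto_pow_atTop two_ne_zero).comp Real.tendsto_log_atTop).const_div_atTop 6
    exact h3.eventually (eventually_le_nhds hμ0)
  have hak : a1 / k < c := by rw [div_lt_iff₀ hkpos]; exact hk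
  have T3 : ∀ᶠ L : ℝ in atTop, 1000 ≤ L ^ (c - a1 / k) :=
    (tendsto_rpow_atTop (by linarith)).eventually_ge_atTop _
  filter_upwards [hlogtop.eventually T1, hlogtop.eventually T2, hlogtop.eventually T3,
    hlogtop.eventually_gt_atTop 1] with X t1 t2 t3 t4 S ps hS y hy0 hy1
  set L := Real.log X with hL
  have hLpos : 0 < L := by linarith
  have hypos : 0 < y := lt_of_lt_of_le (Real.rpow_pos_of_pos hLpos _) hy0
  obtain ⟨z, hzd⟩ : ∃ z : ℝ, z = y ^ (1 / (k : ℝ)) := ⟨_, rfl⟩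
  have hzk : z ^ k = y := by
    rw [hzd, ← Real.rpow_natCast, ← Real.rpow_mul hypos.le, one_div, inv_mul_cancel₀ hkpos.ne',
      Real.rpow_one]
  have hz0' : z0 ≤ z := by
    refine t1.trans ?_
    rw [hzd, show a0 / (k : ℝ) = a0 * (1 / (k : ℝ)) by ring, Real.rpow_mul hLpos.le]
    exact Real.rpow_le_rpow (Real.rpow_pos_of_pos hLpos _).le hy0 (by positivity)
  have hzle : z ≤ L ^ (a1 / k) := by
    rw [hzd, show a1 / (k : ℝ) = a1 * (1 / (k : ℝ)) by ring, Real.rpow_mul hLpos.le]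
    exact Real.rpow_le_rpow hypos.le hy1 (by positivity)
  obtain ⟨f1, f3, f6, f7⟩ := hz0 z hz0'
  have hz : 0 < z := by linarith
  have hLc : L ^ (a1 / k) * L ^ (c - a1 / k) = L ^ c := by
    rw [← Real.rpow_add hLpos]
    congr 1
    ring
  have hzL : z * 1000 ≤ L ^ c := by
    rw [← hLc]
    exact mul_le_mul hzle t3 (by norm_num) (Real.rpow_pos_of_pos hLpos _).le
  have hLc1 : L ^ c ≤ L := by
    calc L ^ c ≤ L ^ (1 : ℝ) := Real.rpow_le_rpow_of_exponent_le t4.le hc1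
      _ = L := Real.rpow_one L
  set Mz := ⌊z ^ E⌋₊ with hMz
  set N := ⌊z⌋₊ with hN
  have hw : 0 < z ^ E := Real.rpow_pos_of_pos hz _
  have hMlt : ∀ p : ℕ, Mz < p → z ^ E ≤ (p : ℝ) := by
    intro p hp
    exact ((Nat.floor_lt hw.le).mp hp).le
  obtain ⟨P, hPdef⟩ : ∃ P : Finset ℕ,
      P = (Ioc Mz N).filter (fun p => p.Prime ∧ p ∉ S ∧ p ≠ ps) := ⟨_, rfl⟩
  have hPmem : ∀ p ∈ P, Mz < p ∧ p ≤ N ∧ p.Prime ∧ p ∉ S ∧ p ≠ ps := by
    intro p hp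
    rw [hPdef, mem_filter, mem_Ioc] at hp
    exact ⟨hp.1.1, hp.1.2, hp.2.1, hp.2.2.1, hp.2.2.2⟩
  have hrem := removed S ps Mz N _ hw hMlt
  rw [← hPdef] at hrem
  have hsubfull : P ⊆ (Ioc Mz N).filter Nat.Prime := by
    intro p hp
    obtain ⟨g1, g2, g3, _, _⟩ := hPmem p hp
    rw [mem_filter, mem_Ioc]
    exact ⟨⟨g1, g2⟩, g3⟩
  have hup : ∑ p ∈ P, 1 / (p : ℝ) ≤ ∑ p ∈ (Ioc Mz N).filter Nat.Prime, 1 / (p : ℝ) :=
    sum_le_sum_of_subset_of_nonneg hsubfull (fun p _ _ => by positivity)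
  have hSsum : ∑ q ∈ S, (1 : ℝ) / q ≤ μ := hS.2.trans t2
  rw [abs_le] at f1
  have hlo : s0 * (1 - 1 / (8 * ((k : ℝ) + 2))) ≤ ∑ p ∈ P, 1 / (p : ℝ) := by
    linarith [f1.1]
  have hhi : ∑ p ∈ P, 1 / (p : ℝ) ≤ s0 * (1 + 1 / (8 * ((k : ℝ) + 2))) := by
    have h3 : 0 < s0 * (1 / (8 * ((k : ℝ) + 2))) := by positivity
    linarith [f1.2]
  have hs1 : ∑ p ∈ P, 1 / (p : ℝ) ≤ 1 := by
    have h3 : 1 / (8 * ((k : ℝ) + 2)) ≤ 1 := by
      rw [div_le_one (by positivity)]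
      linarith
    have h4 : s0 * (1 + 1 / (8 * ((k : ℝ) + 2))) ≤ 1 / 4 * (1 + 1) :=
      mul_le_mul (by linarith) (by linarith) (by positivity) (by norm_num)
    linarith
  have hQ : ((k : ℝ) + 1) * ∑ p ∈ P, (1 / (p : ℝ)) ^ 2 ≤ δ / 6 := by
    have h3 : ∑ p ∈ P, (1 / (p : ℝ)) ^ 2 ≤ μ := by
      calc ∑ p ∈ P, (1 / (p : ℝ)) ^ 2 ≤ ∑ p ∈ P, (1 / (p : ℝ)) * (1 / z ^ E) := by
            apply sum_le_sum
            intro p hp
            rw [sq]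
            apply mul_le_mul_of_nonneg_left _ (by positivity)
            exact one_div_le_one_div_of_le hw (hMlt p (hPmem p hp).1)
        _ = (∑ p ∈ P, 1 / (p : ℝ)) * (1 / z ^ E) := by rw [sum_mul]
        _ ≤ 1 * (1 / z ^ E) := mul_le_mul_of_nonneg_right hs1 (by positivity)
        _ ≤ μ := by rw [one_mul]; exact f3
    have h4 : ((k : ℝ) + 1) * (δ / 6 / ((k : ℝ) + 1)) = δ / 6 := by field_simp
    calc ((k : ℝ) + 1) * ∑ p ∈ P, (1 / (p : ℝ)) ^ 2 ≤ ((k : ℝ) + 1) * (δ / 6 / ((k : ℝ) + 1)) :=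
          mul_le_mul_of_nonneg_left (h3.trans hμ2) (by linarith)
      _ = δ / 6 := h4
  -- cardinality
  have hcard : (P.card : ℝ) + 1 ≤ β * z := by
    refine le_trans ?_ f6
    have h3 : P.card ≤ ((Ioc 0 N).filter Nat.Prime).card := by
      apply card_le_card
      intro p hp
      obtain ⟨g1, g2, g3, _, _⟩ := hPmem p hp
      rw [mem_filter, mem_Ioc]
      exact ⟨⟨by omega, g2⟩, g3⟩
    have h4 : (P.card : ℝ) ≤ (((Ioc 0 N).filter Nat.Prime).card : ℝ) := by exact_mod_cast h3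
    linarith
  have hpowcard : ∀ j : ℕ, 1 ≤ j → ((P.card : ℝ) + 1) ^ j ≤ β * z ^ j := by
    intro j hj
    calc ((P.card : ℝ) + 1) ^ j ≤ (β * z) ^ j := pow_le_pow_left₀ (by positivity) hcard _
      _ = β ^ j * z ^ j := mul_pow _ _ _
      _ ≤ β * z ^ j := by
          apply mul_le_mul_of_nonneg_right _ (by positivity)
          calc β ^ j ≤ β ^ 1 := pow_le_pow_of_le_one hβ0.le hβ3 hj
            _ = β := pow_one _
  have hca : ((P.card : ℝ) + 1) ^ k ≤ β * y := by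
    rw [← hzk]; exact hpowcard k hk1
  have hcc : ((P.card : ℝ) + 1) ^ (k + 1) ≤ β * z ^ (k + 1) := hpowcard (k + 1) (by omega)
  have hac : y ≤ z ^ (k + 1) := by
    rw [pow_succ, hzk]
    have h10 := mul_le_mul_of_nonneg_left f7.le hypos.le
    linarith
  have hT : ∀ T ∈ P.powersetCard (k + 1), y < ∏ p ∈ T, (p : ℝ) := by
    intro T hT
    obtain ⟨hT1, hT2⟩ := mem_powersetCard.mp hT
    have h3 : (z ^ E) ^ (k + 1) ≤ ∏ p ∈ T, (p : ℝ) := by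
      rw [← hT2, ← prod_const]
      apply prod_le_prod (fun _ _ => hw.le)
      intro p hp
      exact hMlt p (hPmem p (hT1 hp)).1
    refine lt_of_lt_of_le ?_ h3
    rw [← hzk, ← Real.rpow_natCast, ← Real.rpow_natCast, ← Real.rpow_mul hz.le]
    apply Real.rpow_lt_rpow_of_exponent_lt f7
    have h4 : ((k : ℝ) + 1) * E ≥ k + 1 / 2 := by
      have h6 := mul_le_mul_of_nonneg_left hE1 (by linarith : (0 : ℝ) ≤ (k : ℝ) + 1)
      linarith
    push_cast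
    linarith
  obtain ⟨c1, c2, c3, c4⟩ := core t_BON (t_LEG t_BON) P (fun p hp => (hPmem p hp).2.2.1) k hk1 σ s0 1 β δ
    y y (z ^ (k + 1)) hσ hs0 (by linarith) one_pos (by linarith) hδ hlo hhi hQ
    hβ0.le hβ1 hβ2 hypos hca hac hcc hT
  refine ⟨P, ?_, ?_, c1, ?_⟩
  · intro p hp
    obtain ⟨g1, g2, g3, g4, g5⟩ := hPmem p hp
    refine ⟨g3, ?_⟩
    have h9 : (p : ℝ) ≤ z := by
      have : (p : ℝ) ≤ N := by exact_mod_cast g2
      exact this.trans (Nat.floor_le hz.le)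
    have h10 : z ≤ z * 1000 := by linarith
    exact (h9.trans h10).trans hzL
  · have h3 := prod_le_primorial P N (fun p hp => ⟨(hPmem p hp).2.2.1, (hPmem p hp).2.1⟩)
    have hlog4 : Real.log 4 ≤ 2 := by
      rw [show (4 : ℝ) = 2 ^ 2 by norm_num, Real.log_pow]
      have := Real.log_two_lt_d9
      push_cast
      linarith
    calc ((∏ p ∈ P, p : ℕ) : ℝ) ≤ ((4 ^ N : ℕ) : ℝ) := by exact_mod_cast h3
      _ = (4 : ℝ) ^ (N : ℝ) := by push_cast; rw [Real.rpow_natCast]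
      _ ≤ (4 : ℝ) ^ z :=
          Real.rpow_le_rpow_of_exponent_le (by norm_num) (Nat.floor_le hz.le)
      _ = Real.exp (Real.log 4 * z) := by rw [Real.rpow_def_of_pos (by norm_num)]
      _ ≤ Real.exp (L ^ c / 2) := by
          apply Real.exp_le_exp.mpr
          have h10 := mul_le_mul_of_nonneg_right hlog4 hz.le
          linarith
  · have := c2 y le_rfl le_rfl
    linarith


/-- both signs, without removed primes -/
theorem cntZ (c a0 a1 : ℝ) (M : ℕ) (hc : 0 < c) (hc1 : c ≤ 1) (ha0 : 0 < a0) (h01 : a0 ≤ a1)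
    (hM : a1 < c * ((M : ℝ) - 2)) :
    ∀ᶠ X : ℝ in atTop, ∀ y : ℝ,
      Real.log X ^ a0 ≤ y → y ≤ Real.log X ^ a1 → ∀ σ : ℝ, (σ = 1 ∨ σ = -1) →
      ∃ P : Finset ℕ, (∀ p ∈ P, p.Prime ∧ (p : ℝ) ≤ Real.log X ^ c) ∧
        ((∏ p ∈ P, p : ℕ) : ℝ) ≤ Real.exp (Real.log X ^ c / 2) ∧
        1 / 2 ≤ ∏ p ∈ P, (1 - 1 / (p : ℝ)) ∧ 2 * dl M ≤ σ * (rel P y - 1) := by
  have hM2 : 2 < M := by
    by_contra hcon
    have h1 : (M : ℝ) ≤ 2 := by exact_mod_cast not_lt.1 hcon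
    nlinarith
  obtain ⟨m, rfl⟩ : ∃ m, M = m + 2 := ⟨M - 2, by omega⟩
  push_cast at hM
  have h1 := cntk' c a0 a1 (m + 2) m hc hc1 ha0 h01 (by linarith) (by omega) _ rfl
  have h2 := cntk' c a0 a1 (m + 2) (m + 1) hc hc1 ha0 h01 (by push_cast; linarith) (by omega) _ rfl
  filter_upwards [h1, h2] with X g1 g2 y hy0 hy1 σ hσ
  have hS : GoodS X ∅ := by
    refine ⟨fun q hq => absurd hq (notMem_empty q), ?_⟩
    rw [sum_empty]
    positivity
  rcases Nat.even_or_odd m with h | h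
  · rcases hσ with h' | h'
    · have := g1 ∅ 1 hS y hy0 hy1
      rw [h']; rwa [h.neg_one_pow] at this
    · have := g2 ∅ 1 hS y hy0 hy1
      rw [h']; rwa [h.add_one.neg_one_pow] at this
  · rcases hσ with h' | h'
    · have := g2 ∅ 1 hS y hy0 hy1
      rw [h']; rwa [h.add_one.neg_one_pow] at this
    · have := g1 ∅ 1 hS y hy0 hy1
      rw [h']; rwa [h.neg_one_pow] at this

end Pool.Agent.J6H13.UM
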