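import Mathlib
import Pool.Agent.J6H13.UM.All
import Pool.Agent.N792.FlGen

/-! # The numbers without small prime factors in intervals, with a monotone range (helper13) -/

set_option autoImplicit false
set_option linter.unusedSectionVars false

namespace Pool.Agent.J6H13.UM

open Finset

open Classical in
/-- the integers in `(M, N]` without prime factors in `P` up to `Z` -/
noncomputable def R1 (P : Set ℕ) (M N Z : ℕ) : Finset ℕ :=
  (Ioc M N).filter (fun n => ∀ p ∈ P, p.Prime → p ≤ Z → ¬ p ∣ n)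

theorem rough_count (ε : ℝ) (hε : 0 < ε) : ∃ (K : ℝ) (B : ℕ), 0 < K ∧ ∀ (P : Set ℕ) (M N Z : ℕ), M ≤ N →
    |((R1 P M N Z).card : ℝ) - ((N : ℝ) - M) / W P Z| ≤
      ε * (((N : ℝ) - M) / W P Z) + K * ((Z : ℝ) + 2) ^ B := by
  classical
  obtain ⟨C, hC, H⟩ := Pool.Agent.N792.fl_gen'
  obtain ⟨b0, hb0⟩ : ∃ b0 : ℕ, (1 / 2 : ℝ) ^ b0 < ε := exists_pow_lt_of_lt_one hε (by norm_num)
  obtain ⟨b, hb⟩ : ∃ b : ℕ, b = max b0 (2 * C) := ⟨_, rfl⟩
  have hbC : 2 * C ≤ b := hb ▸ le_max_right _ _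
  have hbε : (1 / 2 : ℝ) ^ b ≤ ε :=
    (pow_le_pow_of_le_one (by norm_num) (by norm_num) (hb ▸ le_max_left b0 (2 * C))).trans hb0.le
  refine ⟨(((2 * C : ℕ) : ℝ)) ^ (2 * C), 2 * (1 + C * b * 2), by positivity, ?_⟩
  intro P M N Z hMN
  obtain ⟨J, hJ⟩ : ∃ J, J = JJ (Z + 2) := ⟨_, rfl⟩
  have hJ1 : Z + 2 < 2 ^ 2 ^ J := hJ ▸ JJ_lt (Z + 2)
  have hJ2 : 2 ^ 2 ^ J ≤ (Z + 2) ^ 2 := hJ ▸ JJ_le (Z + 2) (by omega)
  obtain ⟨Q, hQ⟩ : ∃ Q : Finset ℕ, Q = (Icc 1 Z).filter (fun p => p.Prime ∧ p ∈ P) := ⟨_, rfl⟩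
  have hQm : ∀ p, p ∈ Q ↔ p ≤ Z ∧ p.Prime ∧ p ∈ P := by
    intro p
    rw [hQ, mem_filter, mem_Icc]
    constructor
    · rintro ⟨⟨h1, h2⟩, h3, h4⟩
      exact ⟨h2, h3, h4⟩
    · rintro ⟨h1, h2, h3⟩
      exact ⟨⟨h2.one_lt.le, h1⟩, h2, h3⟩
  have h := H 1 b J (2 * C) 1 M N Q (fun _ => {0}) {0} (R1 P M N Z) (by norm_num) (by linarith) (by linarith) le_rfl hMN
    (by simp) (fun p hp => by
      obtain ⟨h1, h2, h3⟩ := (hQm p).1 hp
      refine ⟨h2, by omega, fun h => ?_⟩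
      have := Nat.le_of_dvd one_pos h
      have := h2.one_lt
      omega) (fun p hp => by
      obtain ⟨h1, h2, h3⟩ := (hQm p).1 hp
      rw [singleton_subset_iff, mem_range]
      exact h2.pos) (fun p _ _ => by simp) (fun n => by
      unfold R1
      rw [mem_filter, mem_Ioc]
      constructor
      · rintro ⟨h1, h2⟩
        refine ⟨h1, by simp [Nat.mod_one], fun p hp => ?_⟩
        obtain ⟨g1, g2, g3⟩ := (hQm p).1 hp
        rw [mem_singleton]
        intro h3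
        exact h2 p g3 g2 g1 (Nat.dvd_of_mod_eq_zero h3)
      · rintro ⟨h1, -, h2⟩
        refine ⟨h1, fun p hpP hp hpZ hd => ?_⟩
        have := h2 p ((hQm p).2 ⟨hpZ, hp, hpP⟩)
        rw [mem_singleton] at this
        exact this (Nat.mod_eq_zero_of_dvd hd))
  have hNM : (0 : ℝ) ≤ (N : ℝ) - M := by
    have : (M : ℝ) ≤ N := by exact_mod_cast hMN
    linarith
  have hW : ∏ p ∈ Q, (1 - ((#({0} : Finset ℕ) : ℕ) : ℝ) / p) = 1 / W P Z := by
    unfold W
    rw [← hQ, Finset.prod_inv_distrib, one_div, inv_inv]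
    refine Finset.prod_congr rfl fun p _ => ?_
    rw [card_singleton, Nat.cast_one, one_div]
  rw [hW] at h
  simp only [card_singleton, Nat.cast_one, div_one, mul_one, one_mul] at h
  rw [mul_one_div] at h
  have hW1 : 0 < W P Z := lt_of_lt_of_le one_pos (W_ge P Z)
  refine h.trans (add_le_add (mul_le_mul_of_nonneg_right hbε (by positivity)) ?_)
  have h1 : ((J : ℝ) + 2) ≤ ((2 ^ 2 ^ J : ℕ) : ℝ) := by exact_mod_cast J_le J
  have h2 : ((2 ^ 2 ^ J : ℕ) : ℝ) ≤ ((Z : ℝ) + 2) ^ 2 := by exact_mod_cast hJ2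
  push_cast at h1 h2 ⊢
  rw [mul_assoc]
  refine mul_le_mul_of_nonneg_left ?_ (by positivity)
  calc ((J : ℝ) + 2) * (((2 : ℝ) ^ 2 ^ J) ^ (C * b)) ^ 2
      ≤ ((2 : ℝ) ^ 2 ^ J) * (((2 : ℝ) ^ 2 ^ J) ^ (C * b)) ^ 2 := by gcongr
    _ = ((2 : ℝ) ^ 2 ^ J) ^ (1 + C * b * 2) := by ring
    _ ≤ (((Z : ℝ) + 2) ^ 2) ^ (1 + C * b * 2) := by gcongr
    _ = _ := by rw [← pow_mul]

open Classical in
/-- the weight `W P (z m)` at the `m` without small prime factors -/
noncomputable def hh (P : Set ℕ) (z : ℕ → ℕ) (m : ℕ) : ℝ := if Rough P z m then W P (z m) else 0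

lemma hh_nonneg (P : Set ℕ) (z : ℕ → ℕ) (m : ℕ) : 0 ≤ hh P z m := by
  unfold hh
  split_ifs
  · exact zero_le_one.trans (W_ge _ _)
  · exact le_rfl

lemma level (z : ℕ → ℕ) (hz : Monotone z) (M N v : ℕ) (hMN : M ≤ N) :
    ∃ s t : ℕ, s ≤ t ∧ (Ioc M N).filter (fun m => z m = v) = Ioc s t := by
  by_cases hne : ((Ioc M N).filter (fun m => z m = v)).Nonempty
  · obtain ⟨F, hF⟩ : ∃ F, F = (Ioc M N).filter (fun m => z m = v) := ⟨_, rfl⟩
    rw [← hF] at hne ⊢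
    have h1 := F.min'_mem hne
    have h2 := F.max'_mem hne
    have hm : ∀ m ∈ F, (M < m ∧ m ≤ N) ∧ z m = v := by
      intro m hm
      rw [hF, mem_filter, mem_Ioc] at hm
      exact hm
    have h3 := hm _ h1
    have h4 := hm _ h2
    have h5 : F.min' hne ≤ F.max' hne := Finset.min'_le _ _ h2
    refine ⟨F.min' hne - 1, F.max' hne, by omega, ?_⟩
    ext m
    rw [mem_Ioc]
    constructor
    · intro h
      have h6 := F.min'_le m h
      have h7 := F.le_max' m h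
      have := hm m h
      omega
    · rintro ⟨h6, h7⟩
      rw [hF, mem_filter, mem_Ioc]
      refine ⟨⟨by omega, by omega⟩, ?_⟩
      have h8 := hz (show F.min' hne ≤ m by omega)
      have h9 := hz h7
      omega
  · rw [not_nonempty_iff_eq_empty] at hne
    exact ⟨M, M, le_rfl, by rw [hne, Ioc_self]⟩

theorem hh_sum (ε : ℝ) (hε : 0 < ε) : ∃ (K : ℝ) (B : ℕ), 0 < K ∧ ∀ (P : Set ℕ) (z : ℕ → ℕ), Monotone z →
    ∀ (M N : ℕ), M ≤ N →
    |∑ m ∈ Ioc M N, hh P z m - ((N : ℝ) - M)| ≤ ε * ((N : ℝ) - M) + K * ((z N : ℝ) + 2) ^ B := by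
  classical
  obtain ⟨K, B, hK, H⟩ := rough_count ε hε
  obtain ⟨C3, hC3, hW⟩ := W0_lin
  refine ⟨(1 + C3) * K, B + 2, by positivity, ?_⟩
  intro P z hz M N hMN
  have hmaps : ∀ m ∈ Ioc M N, z m ∈ range (z N + 1) := by
    intro m hm
    rw [mem_range]
    have := hz (mem_Ioc.1 hm).2
    omega
  have e1 : ∑ m ∈ Ioc M N, hh P z m = ∑ v ∈ range (z N + 1), ∑ m ∈ (Ioc M N).filter (fun m => z m = v), hh P z m :=
    (sum_fiberwise_of_maps_to hmaps _).symm
  have e2 : ((N : ℝ) - M) = ∑ v ∈ range (z N + 1), ((((Ioc M N).filter (fun m => z m = v)).card : ℕ) : ℝ) := by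
    have h1 := card_eq_sum_card_fiberwise (f := z) (s := Ioc M N) (t := range (z N + 1))
      (fun m hm => by
        have := hmaps m (by simpa using hm)
        simpa using this)
    rw [Nat.card_Ioc] at h1
    rw [← Nat.cast_sum, ← h1, Nat.cast_sub hMN]
  have key : ∀ v ∈ range (z N + 1), |∑ m ∈ (Ioc M N).filter (fun m => z m = v), hh P z m -
      ((((Ioc M N).filter (fun m => z m = v)).card : ℕ) : ℝ)| ≤
      ε * ((((Ioc M N).filter (fun m => z m = v)).card : ℕ) : ℝ) + (1 + C3) * K * ((z N : ℝ) + 2) ^ (B + 1) := by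
    intro v hv
    have hv' : v ≤ z N := by
      rw [mem_range] at hv
      omega
    obtain ⟨s, t, hst, hF⟩ := level z hz M N v hMN
    have e3 : ∑ m ∈ (Ioc M N).filter (fun m => z m = v), hh P z m = W P v * (R1 P s t v).card := by
      rw [hF]
      unfold R1
      rw [card_filter]
      push_cast
      rw [mul_sum]
      refine sum_congr rfl fun m hm => ?_
      rw [← hF, mem_filter] at hm
      unfold hh Rough
      rw [hm.2]
      split_ifs <;> simp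
    rw [e3, hF, Nat.card_Ioc, Nat.cast_sub hst]
    have h1 := H P s t v hst
    have hW1 : 0 < W P v := lt_of_lt_of_le one_pos (W_ge P v)
    have hWv : W P v ≤ (1 + C3) * ((z N : ℝ) + 2) := by
      have hzN : (0 : ℝ) ≤ z N := Nat.cast_nonneg _
      refine (W_le P v).trans ?_
      rcases Nat.eq_zero_or_pos v with h0 | h0
      · rw [h0]
        have : W0 0 = 1 := by
          unfold W0
          simp
        rw [this]
        nlinarith
      · have h2 := hW v h0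
        have h3 : (v : ℝ) ≤ z N := by exact_mod_cast hv'
        nlinarith
    have e4 : W P v * ((R1 P s t v).card : ℝ) - ((t : ℝ) - s) =
        W P v * (((R1 P s t v).card : ℝ) - ((t : ℝ) - s) / W P v) := by
      field_simp
    rw [e4, abs_mul, abs_of_pos hW1]
    have h4 : ((v : ℝ) + 2) ^ B ≤ ((z N : ℝ) + 2) ^ B := by
      have : (v : ℝ) ≤ z N := by exact_mod_cast hv'
      gcongr
    have hzN2 : (0 : ℝ) ≤ ((z N : ℝ) + 2) ^ B := by positivity
    calc W P v * |((R1 P s t v).card : ℝ) - ((t : ℝ) - s) / W P v|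
        ≤ W P v * (ε * (((t : ℝ) - s) / W P v) + K * ((v : ℝ) + 2) ^ B) :=
          mul_le_mul_of_nonneg_left h1 hW1.le
      _ = ε * ((t : ℝ) - s) + W P v * (K * ((v : ℝ) + 2) ^ B) := by
          field_simp
      _ ≤ ε * ((t : ℝ) - s) + (1 + C3) * ((z N : ℝ) + 2) * (K * ((z N : ℝ) + 2) ^ B) := by gcongr
      _ = _ := by ring
  rw [e1]
  nth_rewrite 1 [e2]
  rw [← sum_sub_distrib]
  refine (abs_sum_le_sum_abs _ _).trans ((sum_le_sum key).trans ?_)
  rw [sum_add_distrib, ← mul_sum, ← e2, sum_const, card_range, nsmul_eq_mul]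
  have h5 : (((z N + 1 : ℕ)) : ℝ) ≤ (z N : ℝ) + 2 := by
    push_cast
    linarith
  have h6 : 0 ≤ (1 + C3) * K * ((z N : ℝ) + 2) ^ (B + 1) := by positivity
  have h7 : (((z N + 1 : ℕ)) : ℝ) * ((1 + C3) * K * ((z N : ℝ) + 2) ^ (B + 1)) ≤
      (1 + C3) * K * ((z N : ℝ) + 2) ^ (B + 2) := by
    calc _ ≤ ((z N : ℝ) + 2) * ((1 + C3) * K * ((z N : ℝ) + 2) ^ (B + 1)) := mul_le_mul_of_nonneg_right h5 h6
      _ = _ := by ring
  linarith

end Pool.Agent.J6H13.UM
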