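import Mathlib
import Pool.Agent.J6H13.UM.RI

/-! # Regular distribution of the chosen integers in short intervals (helper13) -/

set_option autoImplicit false
set_option linter.unusedSectionVars false

namespace Pool.Agent.J6H13.UM

open Filter MeasureTheory Asymptotics
open Pool.Agent.R528.RM
open scoped Topology

lemma ri_num (L Λ η y d T R G E : ℝ) (hL : 1 ≤ L) (hΛ0 : 0 ≤ Λ) (hΛ : Λ ≤ 2 * L) (hη : 0 < η) (hη8 : η ≤ 1 / 8)
    (hy : 1 ≤ y) (hR : 0 ≤ R) (hd0 : 0 ≤ d) (hE : E + 1 ≤ η * y)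
    (h1 : |T - R| ≤ 2 * √(12 * Λ * d) + η * R) (h2 : |G - d| ≤ η * d + E) (h3 : |d - y| ≤ 1)
    (h4 : |R * L - G| ≤ η * G) (h5 : 192 * L ^ 3 ≤ η ^ 2 * y) : |T * L - y| ≤ 8 * η * y := by
  have a3 := abs_le.1 h3
  have a2 := abs_le.1 h2
  have a4 := abs_le.1 h4
  have hηy : η ≤ η * y := by nlinarith
  have hηd : η * d ≤ η * y + η := by nlinarith
  have hηd2 : η * y - η ≤ η * d := by nlinarith
  have b1 : |G - y| ≤ 3 * η * y := by
    rw [abs_le]
    constructor <;> linarith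
  have c1 := abs_le.1 b1
  have hG : G ≤ 2 * y := by nlinarith
  have hG0 : η * G ≤ 2 * η * y := by nlinarith
  have b2 : |R * L - y| ≤ 5 * η * y := by
    rw [abs_le]
    constructor <;> linarith
  have c2 := abs_le.1 b2
  have hRL : R * L ≤ 2 * y := by nlinarith
  have hs : √(12 * Λ * d) * (2 * L) ≤ η * y := by
    have h6 : √(12 * Λ * d) * (2 * L) = √(12 * Λ * d * (2 * L) ^ 2) := by
      rw [Real.sqrt_mul (show 0 ≤ 12 * Λ * d by positivity), Real.sqrt_sq (show 0 ≤ 2 * L by linarith)]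
    rw [h6]
    apply Real.sqrt_le_iff.2
    refine ⟨by positivity, ?_⟩
    have hd : d ≤ 2 * y := by linarith
    calc 12 * Λ * d * (2 * L) ^ 2 ≤ 12 * (2 * L) * (2 * y) * (2 * L) ^ 2 := by gcongr
      _ = 192 * L ^ 3 * y := by ring
      _ ≤ η ^ 2 * y * y := by gcongr
      _ = (η * y) ^ 2 := by ring
  have b3 : |T * L - R * L| ≤ 3 * η * y := by
    have h7 : T * L - R * L = (T - R) * L := by ring
    rw [h7, abs_mul, abs_of_nonneg (by linarith : (0 : ℝ) ≤ L)]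
    calc |T - R| * L ≤ (2 * √(12 * Λ * d) + η * R) * L := by gcongr
      _ = √(12 * Λ * d) * (2 * L) + η * (R * L) := by ring
      _ ≤ η * y + η * (2 * y) := by gcongr
      _ = 3 * η * y := by ring
  have e1 : T * L - y = (T * L - R * L) + (R * L - y) := by ring
  rw [e1]
  refine (abs_add_le _ _).trans ?_
  linarith

section

variable {Ω : Type} {m0 : MeasurableSpace Ω} {μ : Measure Ω} [IsProbabilityMeasure μ]
  {ℱ : Filtration ℕ m0} {A : ℕ → Set Ω}

/-- the law of large numbers for all intervals -/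
theorem win_law (hA : ∀ n, MeasurableSet[ℱ n] (A n)) (P : Set ℕ) (z : ℕ → ℕ)
    (hprof : ∀ᵐ ω ∂μ, ∀ ε : ℝ, 0 < ε → ∀ᶠ n : ℕ in atTop,
      |dens μ ℱ A n ω - rho1 P z (n + 1)| ≤ ε * rho1 P z (n + 1)) :
    ∀ᵐ ω ∂μ, ∀ ε : ℝ, 0 < ε → ∀ᶠ X : ℕ in atTop, ∀ M N : ℕ, Nat.log 2 X ≤ M → M ≤ N → N ≤ X →
      |∑ m ∈ Finset.Ioc M N, In A m ω - ∑ m ∈ Finset.Ioc M N, rho1 P z m| ≤
        2 * √(12 * Real.log X * ((N : ℝ) - M)) + ε * ∑ m ∈ Finset.Ioc M N, rho1 P z m := by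
  classical
  have h := Pool.Agent.R960.Fam.fam_law (μ := μ) (ℱ := ℱ) (A := A) hA (rho1_bounds P z) hprof 1 1 4 one_pos
    (fun X : ℕ => ((Finset.range (X + 1)) ×ˢ (Finset.range (X + 1))).filter (fun a => Nat.log 2 X ≤ a.1))
    (by
      filter_upwards [eventually_ge_atTop 2] with X hX
      refine (Finset.card_filter_le _ _).trans ?_
      rw [Finset.card_product, Finset.card_range]
      have h1 : X + 1 ≤ X ^ 2 := by nlinarith
      calc (X + 1) * (X + 1) ≤ X ^ 2 * X ^ 2 := Nat.mul_le_mul h1 h1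
        _ = X ^ 4 := by ring)
    (fun a : ℕ × ℕ => Finset.Ioc a.1 a.2) (fun _ i => {i}) (fun X => Nat.log 2 X)
    (tendsto_atTop.2 fun b => by
      filter_upwards [eventually_ge_atTop (2 ^ b)] with x hx
      exact Nat.le_log_of_pow_le (by norm_num) hx)
    (by
      filter_upwards with X a ha i hi
      rw [Finset.mem_filter] at ha
      rw [Finset.mem_Ioc] at hi
      refine ⟨Finset.card_singleton i, fun m hm => ?_⟩
      rw [Finset.mem_singleton] at hm
      show Nat.log 2 X ≤ m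
      omega)
    (by
      filter_upwards with X a ha m
      have hsub : {i | i ∈ Finset.Ioc a.1 a.2 ∧ m ∈ ({i} : Finset ℕ)} ⊆ {m} := by
        rintro i ⟨-, hi⟩
        rw [Finset.mem_singleton] at hi
        exact hi.symm
      exact (Set.ncard_le_ncard hsub (Set.finite_singleton m)).trans (by simp))
  filter_upwards [h] with ω hω ε hε
  filter_upwards [hω ε hε] with X hX M N h1 h2 h3
  have h4 := hX (M, N) (by
    rw [Finset.mem_filter, Finset.mem_product, Finset.mem_range, Finset.mem_range]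
    exact ⟨⟨by show M < X + 1; omega, by show N < X + 1; omega⟩, h1⟩)
  simp only [Finset.prod_singleton, Nat.card_Ioc, Nat.cast_one, mul_one] at h4
  rw [Nat.cast_sub h2] at h4
  convert h4 using 5
  push_cast
  ring

theorem regular (ε : ℝ) (hε : 0 < ε) (C : ℕ) : ∃ D : ℕ, ∀ {Ω : Type} {m0 : MeasurableSpace Ω} {μ : Measure Ω}
    [IsProbabilityMeasure μ] {ℱ : Filtration ℕ m0} {A : ℕ → Set Ω} (P : Set ℕ) (z : ℕ → ℕ) (_ : Monotone z)
    (_ : ∀ᶠ n : ℕ in atTop, (z n : ℝ) ≤ Real.log n ^ C) (_ : IsModel μ ℱ A P z),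
    ∀ᵐ ω ∂μ, ∀ᶠ x : ℝ in atTop, ∀ y : ℝ, Real.log x ^ D ≤ y → y ≤ x →
      |(∑ m ∈ Finset.Ioc ⌊x⌋₊ ⌊x + y⌋₊, In A m ω) / (y / Real.log x) - 1| ≤ ε := by
  obtain ⟨η, hηd⟩ : ∃ η : ℝ, η = min (ε / 8) (1 / 8) := ⟨_, rfl⟩
  have hη : 0 < η := by rw [hηd]; exact lt_min (by positivity) (by norm_num)
  have hη8 : η ≤ 1 / 8 := hηd ▸ min_le_right _ _
  have hηε : 8 * η ≤ ε := by
    have : η ≤ ε / 8 := hηd ▸ min_le_left _ _
    linarith
  obtain ⟨K, B, hK, H⟩ := hh_sum η hη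
  refine ⟨C * B + 5, ?_⟩
  intro Ω m0 μ _ ℱ A P z hzm hz hM
  have hV := short P C z hz
  have hprof := profile (μ := μ) (ℱ := ℱ) P z hV hM.sieved hM.density
  filter_upwards [win_law hM.adapted P z hprof] with ω hω
  obtain ⟨X0, hX0⟩ := eventually_atTop.1 ((hω η hη).and hz)
  obtain ⟨n0, hn0⟩ := eventually_atTop.1 hV
  have hlog := Real.tendsto_log_atTop
  filter_upwards [hlog.eventually_ge_atTop (Real.log 2 / η), hlog.eventually_ge_atTop (192 / η ^ 2),
    hlog.eventually_ge_atTop ((K * 3 ^ B * 2 ^ (C * B) + 1) / η), hlog.eventually_ge_atTop 2,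
    eventually_ge_atTop ((X0 : ℝ) + 1), eventually_ge_atTop ((n0 : ℝ) + 1), eventually_ge_atTop 4]
    with x k1 k2 k3 k4 k5 k6 k7 y hy1 hy2
  obtain ⟨L, hL⟩ : ∃ L, L = Real.log x := ⟨_, rfl⟩
  rw [← hL] at k1 k2 k3 k4 hy1 ⊢
  have hL1 : 1 ≤ L := by linarith
  have hx0 : 0 < x := by linarith
  have hy0 : 1 ≤ y := le_trans (one_le_pow₀ hL1) hy1
  obtain ⟨M, hMd⟩ : ∃ M, M = ⌊x⌋₊ := ⟨_, rfl⟩
  obtain ⟨N, hNd⟩ : ∃ N, N = ⌊x + y⌋₊ := ⟨_, rfl⟩
  rw [← hMd, ← hNd]
  have m1 : (M : ℝ) ≤ x := hMd ▸ Nat.floor_le hx0.le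
  have m2 : x < M + 1 := hMd ▸ Nat.lt_floor_add_one x
  have m3 : (N : ℝ) ≤ x + y := hNd ▸ Nat.floor_le (by linarith)
  have m4 : x + y < N + 1 := hNd ▸ Nat.lt_floor_add_one (x + y)
  have hMN : M ≤ N := by
    rw [hMd, hNd]
    exact Nat.floor_le_floor (by linarith)
  have hNx : x ≤ N := by linarith
  have hN2x : (N : ℝ) ≤ 2 * x := by linarith
  have hNX0 : X0 ≤ N := by
    have : (X0 : ℝ) ≤ N := by linarith
    exact_mod_cast this
  obtain ⟨w1, w2⟩ := hX0 N hNX0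
  have hN0 : (0 : ℝ) < N := by linarith
  have hΛ : Real.log N ≤ 2 * L := by
    have h1 : Real.log N ≤ Real.log (2 * x) := Real.log_le_log hN0 hN2x
    rw [Real.log_mul (by norm_num) hx0.ne', ← hL] at h1
    have := Real.log_two_lt_d9
    linarith
  have hlogM : Nat.log 2 N ≤ M := by
    have h1 : (N : ℝ) < 2 * (M + 1) := by linarith
    have h2 : N < 2 * (M + 1) := by exact_mod_cast h1
    have h3 : M + 1 ≤ 2 ^ M := Nat.lt_two_pow_self
    have h4 : N < 2 ^ (M + 1) := by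
      rw [pow_succ]
      omega
    have h5 := Nat.log_lt_of_lt_pow (b := 2) (by intro h0; rw [h0] at hN0; simp at hN0) h4
    omega
  have g1 := w1 M N hlogM hMN le_rfl
  have g2 := H P z hzm M N hMN
  -- the densities and the weights
  have g4 : |(∑ m ∈ Finset.Ioc M N, rho1 P z m) * L - ∑ m ∈ Finset.Ioc M N, hh P z m| ≤
      η * ∑ m ∈ Finset.Ioc M N, hh P z m := by
    rw [Finset.sum_mul, ← Finset.sum_sub_distrib, Finset.mul_sum]
    refine (Finset.abs_sum_le_sum_abs _ _).trans (Finset.sum_le_sum fun m hm => ?_)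
    rw [Finset.mem_Ioc] at hm
    have hmx : x < m := by
      have : ((M + 1 : ℕ) : ℝ) ≤ m := by exact_mod_cast hm.1
      push_cast at this
      linarith
    have hm2 : (m : ℝ) ≤ 2 * x := by
      have : (m : ℝ) ≤ N := by exact_mod_cast hm.2
      linarith
    have hmn0 : n0 ≤ m := by
      have : (n0 : ℝ) ≤ m := by linarith
      exact_mod_cast this
    have hlm : L ≤ Real.log m := hL ▸ Real.log_le_log hx0 hmx.le
    have hlm2 : Real.log m ≤ L + Real.log 2 := by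
      have h1 : Real.log m ≤ Real.log (2 * x) := Real.log_le_log (by linarith) hm2
      rw [Real.log_mul (by norm_num) hx0.ne', ← hL] at h1
      linarith
    have hlm0 : 0 < Real.log m := by linarith
    have e1 : rho1 P z m = hh P z m / Real.log m := by
      unfold rho1 hh
      split_ifs
      · rw [min_eq_right (hn0 m hmn0).le]
      · simp
    have hhn := hh_nonneg P z m
    have e2 : hh P z m / Real.log m * L - hh P z m = -(hh P z m * ((Real.log m - L) / Real.log m)) := by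
      field_simp
      ring
    rw [e1, e2, abs_neg, abs_mul, abs_of_nonneg hhn, abs_of_nonneg (div_nonneg (by linarith) hlm0.le), mul_comm η]
    refine mul_le_mul_of_nonneg_left ?_ hhn
    rw [div_le_iff₀ hlm0]
    rw [div_le_iff₀ hη] at k1
    nlinarith
  have hR0 : 0 ≤ ∑ m ∈ Finset.Ioc M N, rho1 P z m := Finset.sum_nonneg fun m _ => (rho1_bounds P z m).1
  -- the error
  have hE : K * ((z N : ℝ) + 2) ^ B + 1 ≤ η * y := by
    have h1 : (z N : ℝ) + 2 ≤ 3 * (2 * L) ^ C := by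
      have h2 : Real.log N ^ C ≤ (2 * L) ^ C := by
        apply pow_le_pow_left₀ (Real.log_natCast_nonneg N) hΛ
      have h3 : 1 ≤ (2 * L) ^ C := one_le_pow₀ (by linarith)
      linarith
    have h2 : ((z N : ℝ) + 2) ^ B ≤ 3 ^ B * 2 ^ (C * B) * L ^ (C * B) := by
      calc ((z N : ℝ) + 2) ^ B ≤ (3 * (2 * L) ^ C) ^ B := by gcongr
        _ = 3 ^ B * 2 ^ (C * B) * L ^ (C * B) := by rw [mul_pow, ← pow_mul, mul_pow]; ring
    have h3 : 1 ≤ L ^ (C * B) := one_le_pow₀ hL1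
    rw [div_le_iff₀ hη] at k3
    calc K * ((z N : ℝ) + 2) ^ B + 1 ≤ K * (3 ^ B * 2 ^ (C * B) * L ^ (C * B)) + 1 * L ^ (C * B) := by
          gcongr
          linarith
      _ = (K * 3 ^ B * 2 ^ (C * B) + 1) * L ^ (C * B) := by ring
      _ ≤ (L * η) * L ^ (C * B) := by gcongr
      _ = η * L ^ (C * B + 1) := by ring
      _ ≤ η * L ^ (C * B + 5) :=
          mul_le_mul_of_nonneg_left (pow_le_pow_right₀ hL1 (by omega)) hη.le
      _ ≤ η * y := by gcongr
  have h5 : 192 * L ^ 3 ≤ η ^ 2 * y := by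
    rw [div_le_iff₀ (by positivity)] at k2
    calc 192 * L ^ 3 ≤ (L * η ^ 2) * L ^ 3 := by gcongr
      _ = η ^ 2 * L ^ 4 := by ring
      _ ≤ η ^ 2 * L ^ (C * B + 5) :=
          mul_le_mul_of_nonneg_left (pow_le_pow_right₀ hL1 (by omega)) (by positivity)
      _ ≤ η ^ 2 * y := by gcongr
  have hd0 : (0 : ℝ) ≤ (N : ℝ) - M := by
    have : (M : ℝ) ≤ N := by exact_mod_cast hMN
    linarith
  have fin := ri_num L (Real.log N) η y ((N : ℝ) - M) (∑ m ∈ Finset.Ioc M N, In A m ω)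
    (∑ m ∈ Finset.Ioc M N, rho1 P z m) (∑ m ∈ Finset.Ioc M N, hh P z m) (K * ((z N : ℝ) + 2) ^ B) hL1
    (Real.log_natCast_nonneg N) hΛ hη hη8 hy0 hR0 hd0 hE g1 g2
    (by rw [abs_le]; constructor <;> linarith) g4 h5
  have hy00 : 0 < y := by linarith
  have e3 : (∑ m ∈ Finset.Ioc M N, In A m ω) / (y / L) - 1 = ((∑ m ∈ Finset.Ioc M N, In A m ω) * L - y) / y := by
    field_simp
  rw [e3, abs_div, abs_of_pos hy00, div_le_iff₀ hy00]
  refine fin.trans ?_
  gcongr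

end

end Pool.Agent.J6H13.UM
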