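import Mathlib
import Pool.Agent.J6H13.UM.RI2

/-! # The numbers without small prime factors in progressions modulo a product of small primes (helper13) -/

set_option autoImplicit false
set_option linter.unusedSectionVars false

namespace Pool.Agent.J6H13.UM

open Finset

lemma Wuniv (x : ℕ) : W Set.univ x = W0 x := by
  classical
  unfold W W0
  congr 1
  ext q
  simp

lemma om_one (W j p : ℕ) (hp : p.Prime) (hpW : ¬ p ∣ W) :
    ((range p).filter (fun r => p ∣ W * r + j)).card = 1 := by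
  haveI := Fact.mk hp
  rw [card_eq_one]
  have hW : (W : ZMod p) ≠ 0 := by
    intro h
    exact hpW ((ZMod.natCast_eq_zero_iff _ _).1 h)
  refine ⟨(-(j : ZMod p) * (W : ZMod p)⁻¹).val, ?_⟩
  ext r
  rw [mem_filter, mem_range, mem_singleton]
  have key : p ∣ W * r + j ↔ (r : ZMod p) = -(j : ZMod p) * (W : ZMod p)⁻¹ := by
    rw [← ZMod.natCast_eq_zero_iff]
    push_cast
    rw [eq_mul_inv_iff_mul_eq₀ hW, add_eq_zero_iff_eq_neg, mul_comm]
  rw [key]
  constructor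
  · rintro ⟨h1, h2⟩
    rw [← h2, ZMod.val_natCast, Nat.mod_eq_of_lt h1]
  · intro h
    rw [h]
    exact ⟨ZMod.val_lt _, by rw [ZMod.natCast_zmod_val]⟩

open Classical in
/-- the `k` in `(M, N]` for which `W k + j` has no prime factor up to `v` -/
noncomputable def RA (W j M N v : ℕ) : Finset ℕ :=
  (Ioc M N).filter (fun k => ∀ p : ℕ, p.Prime → p ≤ v → ¬ p ∣ W * k + j)

theorem ap_count (ε : ℝ) (hε : 0 < ε) : ∃ (K : ℝ) (B : ℕ), 0 < K ∧ ∀ (Q : Finset ℕ) (j M N v : ℕ), M ≤ N →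
    (∀ p ∈ Q, p.Prime ∧ p ≤ v ∧ ¬ p ∣ j) →
    |((RA (∏ p ∈ Q, p) j M N v).card : ℝ) - ((N : ℝ) - M) / (W0 v * ∏ p ∈ Q, (1 - 1 / (p : ℝ)))| ≤
      ε * (((N : ℝ) - M) / (W0 v * ∏ p ∈ Q, (1 - 1 / (p : ℝ)))) + K * ((v : ℝ) + 2) ^ B := by
  classical
  obtain ⟨C, hC, H⟩ := Pool.Agent.N792.fl_gen'
  obtain ⟨b0, hb0⟩ : ∃ b0 : ℕ, (1 / 2 : ℝ) ^ b0 < ε := exists_pow_lt_of_lt_one hε (by norm_num)
  obtain ⟨b, hb⟩ : ∃ b : ℕ, b = max b0 (2 * C) := ⟨_, rfl⟩
  have hbC : 2 * C ≤ b := hb ▸ le_max_right _ _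
  have hbε : (1 / 2 : ℝ) ^ b ≤ ε :=
    (pow_le_pow_of_le_one (by norm_num) (by norm_num) (hb ▸ le_max_left b0 (2 * C))).trans hb0.le
  refine ⟨(((2 * C : ℕ) : ℝ)) ^ (2 * C), 2 * (1 + C * b * 2), by positivity, ?_⟩
  intro Q j M N v hMN hQ
  obtain ⟨W, hW⟩ : ∃ W, W = ∏ p ∈ Q, p := ⟨_, rfl⟩
  rw [← hW]
  obtain ⟨J, hJ⟩ : ∃ J, J = JJ (v + 2) := ⟨_, rfl⟩
  have hJ1 : v + 2 < 2 ^ 2 ^ J := hJ ▸ JJ_lt (v + 2)
  have hJ2 : 2 ^ 2 ^ J ≤ (v + 2) ^ 2 := hJ ▸ JJ_le (v + 2) (by omega)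
  have hpW : ∀ p : ℕ, p.Prime → p ∉ Q → ¬ p ∣ W := by
    intro p hp hpQ h
    rw [hW, Prime.dvd_finset_prod_iff hp.prime] at h
    obtain ⟨q, hq, hpq⟩ := h
    have := (Nat.prime_dvd_prime_iff_eq hp (hQ q hq).1).1 hpq
    rw [this] at hpQ
    exact hpQ hq
  obtain ⟨P, hP⟩ : ∃ P : Finset ℕ, P = (Icc 1 v).filter (fun p => p.Prime ∧ p ∉ Q) := ⟨_, rfl⟩
  have hPm : ∀ p, p ∈ P ↔ p ≤ v ∧ p.Prime ∧ p ∉ Q := by
    intro p
    rw [hP, mem_filter, mem_Icc]
    constructor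
    · rintro ⟨⟨h1, h2⟩, h3, h4⟩
      exact ⟨h2, h3, h4⟩
    · rintro ⟨h1, h2, h3⟩
      exact ⟨⟨h2.one_lt.le, h1⟩, h2, h3⟩
  have hOmc : ∀ p ∈ P, ((range p).filter (fun r => p ∣ W * r + j)).card = 1 := by
    intro p hp
    obtain ⟨h1, h2, h3⟩ := (hPm p).1 hp
    exact om_one W j p h2 (hpW p h2 h3)
  have h := H 1 b J (2 * C) 1 M N P (fun p => (range p).filter (fun r => p ∣ W * r + j)) {0} (RA W j M N v)
    (by norm_num) (by linarith) (by linarith) le_rfl hMN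
    (by simp) (fun p hp => by
      obtain ⟨h1, h2, h3⟩ := (hPm p).1 hp
      refine ⟨h2, by omega, fun h => ?_⟩
      have := Nat.le_of_dvd one_pos h
      have := h2.one_lt
      omega) (fun p hp => filter_subset _ _) (fun p hp _ => (hOmc p hp).le) (fun n => by
      unfold RA
      rw [mem_filter, mem_Ioc]
      constructor
      · rintro ⟨h1, h2⟩
        refine ⟨h1, by simp [Nat.mod_one], fun p hp => ?_⟩
        obtain ⟨g1, g2, g3⟩ := (hPm p).1 hp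
        rw [mem_filter]
        rintro ⟨-, h3⟩
        have h4 : W * n + j ≡ W * (n % p) + j [MOD p] :=
          Nat.ModEq.add_right _ (Nat.ModEq.mul_left _ (Nat.mod_modEq n p).symm)
        exact h2 p g2 g1 ((Nat.modEq_zero_iff_dvd).1 (h4.trans ((Nat.modEq_zero_iff_dvd).2 h3)))
      · rintro ⟨h1, -, h2⟩
        refine ⟨h1, fun p hp hpv hd => ?_⟩
        by_cases hpQ : p ∈ Q
        · have h3 : p ∣ W := by
            rw [hW]
            exact Finset.dvd_prod_of_mem _ hpQ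
          exact (hQ p hpQ).2.2 ((Nat.dvd_add_right (h3.mul_right n)).1 hd)
        · apply h2 p ((hPm p).2 ⟨hpv, hp, hpQ⟩)
          rw [mem_filter, mem_range]
          refine ⟨Nat.mod_lt _ hp.pos, ?_⟩
          have h4 : W * n + j ≡ W * (n % p) + j [MOD p] :=
            Nat.ModEq.add_right _ (Nat.ModEq.mul_left _ (Nat.mod_modEq n p).symm)
          exact (Nat.modEq_zero_iff_dvd).1 (h4.symm.trans ((Nat.modEq_zero_iff_dvd).2 hd)))
  have hNM : (0 : ℝ) ≤ (N : ℝ) - M := by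
    have : (M : ℝ) ≤ N := by exact_mod_cast hMN
    linarith
  have hfac : ∀ p : ℕ, p.Prime → (0 : ℝ) < 1 - 1 / (p : ℝ) := by
    intro p hp
    have : (1 : ℝ) < p := by exact_mod_cast hp.one_lt
    rw [sub_pos, div_lt_one (by linarith)]
    exact this
  have hprod : ∏ p ∈ P, (1 - ((((range p).filter (fun r => p ∣ W * r + j)).card : ℕ) : ℝ) / p) =
      1 / (W0 v * ∏ p ∈ Q, (1 - 1 / (p : ℝ))) := by
    have e1 : ∏ p ∈ P, (1 - ((((range p).filter (fun r => p ∣ W * r + j)).card : ℕ) : ℝ) / p) =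
        ∏ p ∈ P, (1 - 1 / (p : ℝ)) := by
      refine prod_congr rfl fun p hp => ?_
      rw [hOmc p hp, Nat.cast_one]
    have e2 : (Icc 1 v).filter Nat.Prime = P ∪ Q := by
      ext p
      rw [mem_union, mem_filter, mem_Icc, hPm]
      constructor
      · rintro ⟨⟨h1, h2⟩, h3⟩
        by_cases h4 : p ∈ Q
        · exact Or.inr h4
        · exact Or.inl ⟨h2, h3, h4⟩
      · rintro (⟨h1, h2, h3⟩ | h1)
        · exact ⟨⟨h2.one_lt.le, h1⟩, h2⟩
        · exact ⟨⟨(hQ p h1).1.one_lt.le, (hQ p h1).2.1⟩, (hQ p h1).1⟩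
    have e3 : Disjoint P Q := by
      rw [disjoint_left]
      intro p hp
      exact ((hPm p).1 hp).2.2
    have e4 : W0 v = (∏ p ∈ P, (1 - 1 / (p : ℝ)))⁻¹ * (∏ p ∈ Q, (1 - 1 / (p : ℝ)))⁻¹ := by
      unfold W0
      rw [e2, prod_union e3, ← prod_inv_distrib, ← prod_inv_distrib]
      simp only [one_div]
    have e5 : 0 < ∏ p ∈ P, (1 - 1 / (p : ℝ)) := prod_pos fun p hp => hfac p ((hPm p).1 hp).2.1
    have e6 : 0 < ∏ p ∈ Q, (1 - 1 / (p : ℝ)) := prod_pos fun p hp => hfac p (hQ p hp).1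
    rw [e1, e4]
    field_simp
  have hW1 : 0 < W0 v * ∏ p ∈ Q, (1 - 1 / (p : ℝ)) :=
    mul_pos (lt_of_lt_of_le one_pos (W0_ge v)) (prod_pos fun p hp => hfac p (hQ p hp).1)
  rw [hprod] at h
  simp only [card_singleton, Nat.cast_one, div_one, mul_one, one_mul] at h
  rw [mul_one_div] at h
  refine h.trans (add_le_add (mul_le_mul_of_nonneg_right hbε (by positivity)) ?_)
  have h1 : ((J : ℝ) + 2) ≤ ((2 ^ 2 ^ J : ℕ) : ℝ) := by exact_mod_cast J_le J
  have h2 : ((2 ^ 2 ^ J : ℕ) : ℝ) ≤ ((v : ℝ) + 2) ^ 2 := by exact_mod_cast hJ2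
  push_cast at h1 h2 ⊢
  rw [mul_assoc]
  refine mul_le_mul_of_nonneg_left ?_ (by positivity)
  calc ((J : ℝ) + 2) * (((2 : ℝ) ^ 2 ^ J) ^ (C * b)) ^ 2
      ≤ ((2 : ℝ) ^ 2 ^ J) * (((2 : ℝ) ^ 2 ^ J) ^ (C * b)) ^ 2 := by gcongr
    _ = ((2 : ℝ) ^ 2 ^ J) ^ (1 + C * b * 2) := by ring
    _ ≤ (((v : ℝ) + 2) ^ 2) ^ (1 + C * b * 2) := by gcongr
    _ = _ := by rw [← pow_mul]

/-- the sum of the weights over a progression -/
theorem ap_hh (ε : ℝ) (hε : 0 < ε) : ∃ (K : ℝ) (B : ℕ), 0 < K ∧ ∀ (z : ℕ → ℕ), Monotone z →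
    ∀ (Q : Finset ℕ) (j M N : ℕ), M ≤ N → (∀ p ∈ Q, p.Prime ∧ p ≤ z ((∏ p ∈ Q, p) * M + j) ∧ ¬ p ∣ j) →
    |∑ k ∈ Ioc M N, hh Set.univ z ((∏ p ∈ Q, p) * k + j) - ((N : ℝ) - M) / ∏ p ∈ Q, (1 - 1 / (p : ℝ))| ≤
      ε * (((N : ℝ) - M) / ∏ p ∈ Q, (1 - 1 / (p : ℝ))) + K * ((z ((∏ p ∈ Q, p) * N + j) : ℝ) + 2) ^ B := by
  classical
  obtain ⟨K, B, hK, H⟩ := ap_count ε hε
  obtain ⟨C3, hC3, hW⟩ := W0_lin
  refine ⟨(1 + C3) * K, B + 2, by positivity, ?_⟩
  intro z hz Q j M N hMN hQ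
  obtain ⟨W, hWd⟩ : ∃ W, W = ∏ p ∈ Q, p := ⟨_, rfl⟩
  obtain ⟨π, hπ⟩ : ∃ π, π = ∏ p ∈ Q, (1 - 1 / (p : ℝ)) := ⟨_, rfl⟩
  have hπ0 : 0 < π := by
    rw [hπ]
    apply prod_pos
    intro p hp
    have : (1 : ℝ) < p := by exact_mod_cast (hQ p hp).1.one_lt
    rw [sub_pos, div_lt_one (by linarith)]
    exact this
  rw [← hWd] at hQ ⊢
  rw [← hπ]
  obtain ⟨y, hy⟩ : ∃ y : ℕ → ℕ, y = fun k => z (W * k + j) := ⟨_, rfl⟩
  have hym : Monotone y := by
    intro a b hab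
    rw [hy]
    exact hz (Nat.add_le_add_right (Nat.mul_le_mul_left W hab) j)
  have hyk : ∀ k, y k = z (W * k + j) := fun k => by rw [hy]
  have hmaps : ∀ m ∈ Ioc M N, y m ∈ range (y N + 1) := by
    intro m hm
    rw [mem_range]
    have := hym (mem_Ioc.1 hm).2
    omega
  have e1 : ∑ k ∈ Ioc M N, hh Set.univ z (W * k + j) =
      ∑ v ∈ range (y N + 1), ∑ k ∈ (Ioc M N).filter (fun m => y m = v), hh Set.univ z (W * k + j) :=
    (sum_fiberwise_of_maps_to hmaps _).symm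
  have e2 : ((N : ℝ) - M) = ∑ v ∈ range (y N + 1), ((((Ioc M N).filter (fun m => y m = v)).card : ℕ) : ℝ) := by
    have h1 := card_eq_sum_card_fiberwise (f := y) (s := Ioc M N) (t := range (y N + 1))
      (fun m hm => by
        have := hmaps m (by simpa using hm)
        simpa using this)
    rw [Nat.card_Ioc] at h1
    rw [← Nat.cast_sum, ← h1, Nat.cast_sub hMN]
  have key : ∀ v ∈ range (y N + 1), |∑ k ∈ (Ioc M N).filter (fun m => y m = v), hh Set.univ z (W * k + j) -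
      ((((Ioc M N).filter (fun m => y m = v)).card : ℕ) : ℝ) / π| ≤
      ε * (((((Ioc M N).filter (fun m => y m = v)).card : ℕ) : ℝ) / π) +
        (1 + C3) * K * ((y N : ℝ) + 2) ^ (B + 1) := by
    intro v hv
    have hv' : v ≤ y N := by
      rw [mem_range] at hv
      omega
    rcases ((Ioc M N).filter (fun m => y m = v)).eq_empty_or_nonempty with hemp | hne
    · rw [hemp, sum_empty, card_empty, Nat.cast_zero, zero_div, sub_zero, abs_zero, mul_zero, zero_add]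
      positivity
    · obtain ⟨k0, hk0⟩ := hne
      rw [mem_filter, mem_Ioc] at hk0
      have hQv : ∀ p ∈ Q, p.Prime ∧ p ≤ v ∧ ¬ p ∣ j := by
        intro p hp
        obtain ⟨h1, h2, h3⟩ := hQ p hp
        refine ⟨h1, ?_, h3⟩
        have := hym (show M ≤ k0 by omega)
        rw [hk0.2, hyk M] at this
        exact h2.trans this
      obtain ⟨s, t, hst, hF⟩ := level y hym M N v hMN
      have e3 : ∑ k ∈ (Ioc M N).filter (fun m => y m = v), hh Set.univ z (W * k + j) =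
          W0 v * (RA W j s t v).card := by
        rw [hF]
        unfold RA
        rw [card_filter]
        push_cast
        rw [mul_sum]
        refine sum_congr rfl fun k hk => ?_
        rw [← hF, mem_filter] at hk
        have h1 : z (W * k + j) = v := by rw [← hyk]; exact hk.2
        unfold hh Rough
        rw [h1]
        have h3 : (∀ q ∈ (Set.univ : Set ℕ), q.Prime → q ≤ v → ¬ q ∣ W * k + j) ↔
            (∀ p : ℕ, p.Prime → p ≤ v → ¬ p ∣ W * k + j) :=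
          ⟨fun h q hq => h q (Set.mem_univ q) hq, fun h q _ hq => h q hq⟩
        have h4 : (if (∀ q ∈ (Set.univ : Set ℕ), q.Prime → q ≤ v → ¬ q ∣ W * k + j) then
            Pool.Agent.J6H13.UM.W Set.univ v else 0) =
            W0 v * (if (∀ p : ℕ, p.Prime → p ≤ v → ¬ p ∣ W * k + j) then 1 else 0) := by
          by_cases h5 : ∀ p : ℕ, p.Prime → p ≤ v → ¬ p ∣ W * k + j
          · rw [if_pos h5, if_pos (h3.2 h5), mul_one, Wuniv]
          · rw [if_neg h5, if_neg (fun h6 => h5 (h3.1 h6)), mul_zero]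
        exact h4
      rw [e3, hF, Nat.card_Ioc, Nat.cast_sub hst]
      have h1 := H Q j s t v hst hQv
      rw [← hWd, ← hπ] at h1
      have hW1 : 0 < W0 v := lt_of_lt_of_le one_pos (W0_ge v)
      have hWv : W0 v ≤ (1 + C3) * ((y N : ℝ) + 2) := by
        have hzN : (0 : ℝ) ≤ y N := Nat.cast_nonneg _
        rcases Nat.eq_zero_or_pos v with h0 | h0
        · rw [h0]
          have : W0 0 = 1 := by
            unfold W0
            simp
          rw [this]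
          nlinarith
        · have h2 := hW v h0
          have h3 : (v : ℝ) ≤ y N := by exact_mod_cast hv'
          nlinarith
      have e4 : W0 v * ((RA W j s t v).card : ℝ) - ((t : ℝ) - s) / π =
          W0 v * (((RA W j s t v).card : ℝ) - ((t : ℝ) - s) / (W0 v * π)) := by
        field_simp
      rw [e4, abs_mul, abs_of_pos hW1]
      have h4 : ((v : ℝ) + 2) ^ B ≤ ((y N : ℝ) + 2) ^ B := by
        have : (v : ℝ) ≤ y N := by exact_mod_cast hv'
        gcongr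
      have hzN2 : (0 : ℝ) ≤ ((y N : ℝ) + 2) ^ B := by positivity
      calc W0 v * |((RA W j s t v).card : ℝ) - ((t : ℝ) - s) / (W0 v * π)|
          ≤ W0 v * (ε * (((t : ℝ) - s) / (W0 v * π)) + K * ((v : ℝ) + 2) ^ B) :=
            mul_le_mul_of_nonneg_left h1 hW1.le
        _ = ε * (((t : ℝ) - s) / π) + W0 v * (K * ((v : ℝ) + 2) ^ B) := by
            field_simp
        _ ≤ ε * (((t : ℝ) - s) / π) + (1 + C3) * ((y N : ℝ) + 2) * (K * ((y N : ℝ) + 2) ^ B) := by gcongr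
        _ = _ := by ring
  rw [e1, ← hyk N]
  have e5 : ((N : ℝ) - M) / π = ∑ v ∈ range (y N + 1), ((((Ioc M N).filter (fun m => y m = v)).card : ℕ) : ℝ) / π := by
    rw [e2, sum_div]
  rw [e5, ← sum_sub_distrib]
  refine (abs_sum_le_sum_abs _ _).trans ((sum_le_sum key).trans ?_)
  rw [sum_add_distrib, ← mul_sum, sum_const, card_range, nsmul_eq_mul]
  have h5 : (((y N + 1 : ℕ)) : ℝ) ≤ (y N : ℝ) + 2 := by
    push_cast
    linarith
  have h6 : 0 ≤ (1 + C3) * K * ((y N : ℝ) + 2) ^ (B + 1) := by positivity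
  have h7 : (((y N + 1 : ℕ)) : ℝ) * ((1 + C3) * K * ((y N : ℝ) + 2) ^ (B + 1)) ≤
      (1 + C3) * K * ((y N : ℝ) + 2) ^ (B + 2) := by
    calc _ ≤ ((y N : ℝ) + 2) * ((1 + C3) * K * ((y N : ℝ) + 2) ^ (B + 1)) := mul_le_mul_of_nonneg_right h5 h6
      _ = _ := by ring
  linarith

end Pool.Agent.J6H13.UM
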