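import Mathlib
import Pool.Agent.J6H13.UM.Mai1
import Pool.Agent.J6H13.UM.Mai2

/-! # Maier's matrix for the weights (helper13) -/

set_option autoImplicit false
set_option linter.unusedSectionVars false

namespace Pool.Agent.J6H13.UM

open Finset
open Pool.Agent.N610.MS (rel V)

/-- the sum of the weights over the window `(x, x + Y]` -/
noncomputable def GG (z : ℕ → ℕ) (x Y : ℕ) : ℝ := ∑ m ∈ Ioc x (x + Y), hh Set.univ z m

lemma GG_eq (z : ℕ → ℕ) (x Y : ℕ) : GG z x Y = ∑ j ∈ Icc 1 Y, hh Set.univ z (x + j) := by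
  unfold GG
  have h : Ioc x (x + Y) = (Icc 1 Y).image (fun j => x + j) := by
    ext m
    rw [mem_Ioc, mem_image]
    constructor
    · rintro ⟨h1, h2⟩
      exact ⟨m - x, by rw [mem_Icc]; omega, by omega⟩
    · rintro ⟨j, hj, rfl⟩
      rw [mem_Icc] at hj
      omega
  rw [h, sum_image]
  intro a _ b _ hab
  simpa using hab

theorem mat (ε : ℝ) (hε : 0 < ε) : ∃ (K : ℝ) (B : ℕ), 0 < K ∧ ∀ (z : ℕ → ℕ), Monotone z →
    ∀ (Q : Finset ℕ) (Y M N : ℕ), M ≤ N → (∀ p ∈ Q, p.Prime ∧ p ≤ z ((∏ p ∈ Q, p) * M)) →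
    |∑ k ∈ Ioc M N, GG z ((∏ p ∈ Q, p) * k) Y - (V Q Y : ℝ) * (((N : ℝ) - M) / ∏ p ∈ Q, (1 - 1 / (p : ℝ)))| ≤
      ε * ((V Q Y : ℝ) * (((N : ℝ) - M) / ∏ p ∈ Q, (1 - 1 / (p : ℝ)))) +
        Y * (K * ((z ((∏ p ∈ Q, p) * N + Y) : ℝ) + 2) ^ B) := by
  classical
  obtain ⟨K, B, hK, H⟩ := ap_hh ε hε
  refine ⟨K, B, hK, ?_⟩
  intro z hz Q Y M N hMN hQ
  obtain ⟨W, hWd⟩ : ∃ W, W = ∏ p ∈ Q, p := ⟨_, rfl⟩
  obtain ⟨T, hT⟩ : ∃ T, T = ((N : ℝ) - M) / ∏ p ∈ Q, (1 - 1 / (p : ℝ)) := ⟨_, rfl⟩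
  rw [← hWd] at hQ ⊢
  rw [← hT]
  have hV : (V Q Y : ℝ) * T = ∑ j ∈ Icc 1 Y, (if (∀ p ∈ Q, ¬ p ∣ j) then T else 0) := by
    unfold V
    rw [← sum_filter, sum_const, nsmul_eq_mul]
  have e1 : ∑ k ∈ Ioc M N, GG z (W * k) Y = ∑ j ∈ Icc 1 Y, ∑ k ∈ Ioc M N, hh Set.univ z (W * k + j) := by
    simp only [GG_eq]
    rw [sum_comm]
  have key : ∀ j ∈ Icc 1 Y, |∑ k ∈ Ioc M N, hh Set.univ z (W * k + j) - (if (∀ p ∈ Q, ¬ p ∣ j) then T else 0)| ≤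
      ε * (if (∀ p ∈ Q, ¬ p ∣ j) then T else 0) + K * ((z (W * N + Y) : ℝ) + 2) ^ B := by
    intro j hj
    rw [mem_Icc] at hj
    by_cases hjQ : ∀ p ∈ Q, ¬ p ∣ j
    · rw [if_pos hjQ]
      have h := H z hz Q j M N hMN (fun p hp => ⟨(hQ p hp).1, by
        rw [← hWd]
        exact (hQ p hp).2.trans (hz (Nat.le_add_right _ _)), hjQ p hp⟩)
      rw [← hWd, ← hT] at h
      refine h.trans ?_
      have h1 : (z (W * N + j) : ℝ) ≤ z (W * N + Y) := by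
        exact_mod_cast hz (Nat.add_le_add_left hj.2 _)
      gcongr
    · rw [if_neg hjQ]
      have h0 : ∑ k ∈ Ioc M N, hh Set.univ z (W * k + j) = 0 := by
        apply sum_eq_zero
        intro k hk
        rw [mem_Ioc] at hk
        push Not at hjQ
        obtain ⟨p, hp, hpj⟩ := hjQ
        have h1 : p ∣ W * k + j := by
          refine dvd_add (Dvd.dvd.mul_right ?_ k) hpj
          rw [hWd]
          exact Finset.dvd_prod_of_mem _ hp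
        have h2 : p ≤ z (W * k + j) := by
          refine (hQ p hp).2.trans (hz ?_)
          calc W * M ≤ W * k := Nat.mul_le_mul_left W hk.1.le
            _ ≤ W * k + j := Nat.le_add_right _ _
        unfold hh
        rw [if_neg]
        intro h3
        exact h3 p (Set.mem_univ p) (hQ p hp).1 h2 h1
      rw [h0, sub_zero, abs_zero, mul_zero, zero_add]
      positivity
  rw [e1, hV, ← sum_sub_distrib]
  refine (abs_sum_le_sum_abs _ _).trans ((sum_le_sum key).trans ?_)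
  rw [sum_add_distrib, ← mul_sum, sum_const, Nat.card_Icc, Nat.add_sub_cancel, nsmul_eq_mul]

/-- a row with an irregularity of the weights -/
theorem row (δ : ℝ) (hδ : 0 < δ) (hδ1 : δ ≤ 1) : ∃ (K : ℝ) (B : ℕ), 0 < K ∧ ∀ (z : ℕ → ℕ), Monotone z →
    ∀ (Q : Finset ℕ) (y : ℝ) (M N : ℕ), 1 ≤ y → M < N → (∀ p ∈ Q, p.Prime ∧ p ≤ z ((∏ p ∈ Q, p) * M)) →
    K * ((z ((∏ p ∈ Q, p) * N + ⌊y⌋₊) : ℝ) + 2) ^ B ≤ δ / 4 * ((N : ℝ) - M) →
    ∀ σ : ℝ, (σ = 1 ∨ σ = -1) → 2 * δ ≤ σ * (rel Q y - 1) →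
    ∃ k : ℕ, M < k ∧ k ≤ N ∧ δ * y ≤ σ * (GG z ((∏ p ∈ Q, p) * k) ⌊y⌋₊ - y) := by
  obtain ⟨K, B, hK, H⟩ := mat (δ / 4) (by positivity)
  refine ⟨K, B, hK, ?_⟩
  intro z hz Q y M N hy hMN hQ hKB σ hσ hrel
  by_contra hcon
  push Not at hcon
  have h := H z hz Q ⌊y⌋₊ M N hMN.le hQ
  obtain ⟨W, hWd⟩ : ∃ W, W = ∏ p ∈ Q, p := ⟨_, rfl⟩
  rw [← hWd] at h hcon hKB
  have hy0 : 0 < y := by linarith
  obtain ⟨D, hD⟩ : ∃ D : ℝ, D = (N : ℝ) - M := ⟨_, rfl⟩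
  have hD0 : 0 < D := by
    rw [hD]
    have : (M : ℝ) < N := by exact_mod_cast hMN
    linarith
  have hπ0 : 0 < ∏ p ∈ Q, (1 - 1 / (p : ℝ)) := by
    apply prod_pos
    intro p hp
    have : (1 : ℝ) < p := by exact_mod_cast (hQ p hp).1.one_lt
    rw [sub_pos, div_lt_one (by linarith)]
    exact this
  have hr : (V Q ⌊y⌋₊ : ℝ) * (D / ∏ p ∈ Q, (1 - 1 / (p : ℝ))) = rel Q y * y * D := by
    unfold rel
    field_simp
  have hrel0 : 0 ≤ rel Q y := by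
    unfold rel
    positivity
  rw [← hD, hr] at h
  rw [← hD] at hKB
  have hY : (⌊y⌋₊ : ℝ) ≤ y := Nat.floor_le hy0.le
  have hE : (⌊y⌋₊ : ℝ) * (K * ((z (W * N + ⌊y⌋₊) : ℝ) + 2) ^ B) ≤ y * (δ / 4 * D) :=
    mul_le_mul hY hKB (by positivity) hy0.le
  have hsum : σ * (∑ k ∈ Ioc M N, GG z (W * k) ⌊y⌋₊ - y * D) < δ * y * D := by
    have e1 : σ * (∑ k ∈ Ioc M N, GG z (W * k) ⌊y⌋₊ - y * D) =
        ∑ k ∈ Ioc M N, σ * (GG z (W * k) ⌊y⌋₊ - y) := by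
      rw [← mul_sum, sum_sub_distrib, sum_const, Nat.card_Ioc, nsmul_eq_mul, Nat.cast_sub hMN.le, ← hD]
      ring
    have e2 : δ * y * D = ∑ k ∈ Ioc M N, δ * y := by
      rw [sum_const, Nat.card_Ioc, nsmul_eq_mul, Nat.cast_sub hMN.le, ← hD]
      ring
    rw [e1, e2]
    apply sum_lt_sum_of_nonempty
    · exact ⟨N, mem_Ioc.2 ⟨hMN, le_rfl⟩⟩
    · intro k hk
      rw [mem_Ioc] at hk
      exact hcon k hk.1 hk.2
  have h' := abs_le.1 h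
  obtain ⟨U, hU⟩ : ∃ U, U = ∑ k ∈ Ioc M N, GG z (W * k) ⌊y⌋₊ := ⟨_, rfl⟩
  rw [← hU] at hsum h'
  have hyD : 0 < y * D := mul_pos hy0 hD0
  rcases hσ with rfl | rfl
  · have h1 : 1 + 2 * δ ≤ rel Q y := by linarith
    have h2 : (1 + 2 * δ) * (y * D) ≤ rel Q y * (y * D) := mul_le_mul_of_nonneg_right h1 hyD.le
    have h3 : (1 - δ / 4) * ((1 + 2 * δ) * (y * D)) ≤ (1 - δ / 4) * (rel Q y * (y * D)) :=
      mul_le_mul_of_nonneg_left h2 (by linarith)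
    have h4 : 0 ≤ δ * (y * D) * (1 - δ) := mul_nonneg (by positivity) (by linarith)
    nlinarith [h'.1]
  · have h1 : rel Q y ≤ 1 - 2 * δ := by linarith
    have h2 : rel Q y * (y * D) ≤ (1 - 2 * δ) * (y * D) := mul_le_mul_of_nonneg_right h1 hyD.le
    have h3 : (1 + δ / 4) * (rel Q y * (y * D)) ≤ (1 + δ / 4) * ((1 - 2 * δ) * (y * D)) :=
      mul_le_mul_of_nonneg_left h2 (by linarith)
    have h4 : 0 ≤ δ * (y * D) * δ := by positivity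
    nlinarith [h'.2]

end Pool.Agent.J6H13.UM
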