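import Mathlib
import Pool.Agent.J6H13.UM.Mai3

/-! # Maier's theorem in the models (helper13) -/

set_option autoImplicit false
set_option linter.unusedSectionVars false

namespace Pool.Agent.J6H13.UM

open Filter MeasureTheory Asymptotics
open Pool.Agent.R528.RM
open scoped Topology
open Pool.Agent.N610.MS (rel)
open Pool.Agent.J6H13.MF (dl dl_pos dl_le_one)

lemma mai_num (L Λ η δ y d T R G σ : ℝ) (hL : 1 ≤ L) (hΛ0 : 0 ≤ Λ) (hΛ : Λ ≤ 2 * L) (hη : 0 < η)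
    (hηδ : 10 * η ≤ δ) (hδ1 : δ ≤ 1) (hy : 1 ≤ y) (hd0 : 0 ≤ d) (hdy : d ≤ y)
    (h1 : |T - R| ≤ 2 * √(12 * Λ * d) + η * R) (h4 : |R * L - G| ≤ η * G) (h5 : 192 * L ^ 3 ≤ η ^ 2 * y)
    (hG0 : 0 ≤ G) (hσ : σ = 1 ∨ σ = -1) (hG : δ * y ≤ σ * (G - y)) : δ / 2 * y ≤ σ * (T * L - y) := by
  have a4 := abs_le.1 h4
  have hs : √(12 * Λ * d) * (2 * L) ≤ η * y := by
    have h6 : √(12 * Λ * d) * (2 * L) = √(12 * Λ * d * (2 * L) ^ 2) := by
      rw [Real.sqrt_mul (show 0 ≤ 12 * Λ * d by positivity), Real.sqrt_sq (show 0 ≤ 2 * L by linarith)]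
    rw [h6]
    apply Real.sqrt_le_iff.2
    refine ⟨by positivity, ?_⟩
    have hd : d ≤ 2 * y := by linarith
    calc 12 * Λ * d * (2 * L) ^ 2 ≤ 12 * (2 * L) * (2 * y) * (2 * L) ^ 2 := by gcongr
      _ = 192 * L ^ 3 * y := by ring
      _ ≤ η ^ 2 * y * y := by gcongr
      _ = (η * y) ^ 2 := by ring
  have b3 : |T * L - R * L| ≤ η * y + η * (R * L) := by
    have h7 : T * L - R * L = (T - R) * L := by ring
    rw [h7, abs_mul, abs_of_nonneg (by linarith : (0 : ℝ) ≤ L)]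
    calc |T - R| * L ≤ (2 * √(12 * Λ * d) + η * R) * L := by gcongr
      _ = √(12 * Λ * d) * (2 * L) + η * (R * L) := by ring
      _ ≤ η * y + η * (R * L) := by gcongr
  have c3 := abs_le.1 b3
  obtain ⟨E, hE⟩ : ∃ E, E = R * L := ⟨_, rfl⟩
  rw [← hE] at a4 c3
  have hη1 : η ≤ 1 / 10 := by linarith
  rcases hσ with rfl | rfl
  · have g1 : (1 + δ) * y ≤ G := by linarith
    have g2 : (1 - η) * G ≤ E := by linarith [a4.1]
    have g3 : (1 - η) * E - η * y ≤ T * L := by linarith [c3.1]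
    have g4 : (1 - η) * ((1 - η) * G) ≤ (1 - η) * E := mul_le_mul_of_nonneg_left g2 (by linarith)
    have g5 : (1 - η) * ((1 - η) * ((1 + δ) * y)) ≤ (1 - η) * ((1 - η) * G) :=
      mul_le_mul_of_nonneg_left (mul_le_mul_of_nonneg_left g1 (by linarith)) (by linarith)
    have g6 : (1 + δ / 2) * y ≤ (1 - η) * ((1 - η) * ((1 + δ) * y)) - η * y := by
      have e1 : (1 - η) * ((1 - η) * ((1 + δ) * y)) - η * y - (1 + δ / 2) * y =
          (δ / 2 - 3 * η - 2 * η * δ + η ^ 2 * (1 + δ)) * y := by ring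
      have e2 : 0 ≤ δ / 2 - 3 * η - 2 * η * δ + η ^ 2 * (1 + δ) := by
        have h9 := mul_le_mul_of_nonneg_left hδ1 (show 0 ≤ 2 * η by linarith)
        have : 0 ≤ η ^ 2 * (1 + δ) := by
          have : 0 ≤ δ := by linarith
          positivity
        linarith
      have := mul_nonneg e2 (by linarith : (0 : ℝ) ≤ y)
      linarith
    linarith
  · have g1 : G ≤ (1 - δ) * y := by linarith
    have g2 : E ≤ (1 + η) * G := by linarith [a4.2]
    have g3 : T * L ≤ (1 + η) * E + η * y := by linarith [c3.2]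
    have g4 : (1 + η) * E ≤ (1 + η) * ((1 + η) * G) := mul_le_mul_of_nonneg_left g2 (by linarith)
    have g5 : (1 + η) * ((1 + η) * G) ≤ (1 + η) * ((1 + η) * ((1 - δ) * y)) :=
      mul_le_mul_of_nonneg_left (mul_le_mul_of_nonneg_left g1 (by linarith)) (by linarith)
    have g6 : (1 + η) * ((1 + η) * ((1 - δ) * y)) + η * y ≤ (1 - δ / 2) * y := by
      have e1 : (1 - δ / 2) * y - ((1 + η) * ((1 + η) * ((1 - δ) * y)) + η * y) =
          (δ / 2 - (2 * η + η ^ 2) * (1 - δ) - η) * y := by ring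
      have e2 : 0 ≤ δ / 2 - (2 * η + η ^ 2) * (1 - δ) - η := by
        have h8 : (2 * η + η ^ 2) * (1 - δ) ≤ 2 * η + η ^ 2 := by
          have : 0 ≤ (2 * η + η ^ 2) * δ := by
            have : 0 ≤ δ := by linarith
            positivity
          linarith
        have h9 : η ^ 2 ≤ η * (1 / 10) := by
          rw [sq]
          exact mul_le_mul_of_nonneg_left hη1 hη.le
        linarith
      have := mul_nonneg e2 (by linarith : (0 : ℝ) ≤ y)
      linarith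
    linarith

theorem maier (θ : ℝ) (hθ : 0 < θ) (C : ℕ) (a : ℝ) (ha : 4 ≤ a) : ∃ δ : ℝ, 0 < δ ∧
    ∀ {Ω : Type} {m0 : MeasurableSpace Ω} {μ : Measure Ω}
    [IsProbabilityMeasure μ] {ℱ : Filtration ℕ m0} {A : ℕ → Set Ω} (z : ℕ → ℕ) (_ : Monotone z)
    (_ : ∀ᶠ n : ℕ in atTop, Real.log n ^ θ ≤ z n)
    (_ : ∀ᶠ n : ℕ in atTop, (z n : ℝ) ≤ Real.log n ^ C) (_ : IsModel μ ℱ A Set.univ z),
    ∀ᵐ ω ∂μ, ∀ᶠ X : ℕ in atTop, ∀ y : ℝ, Real.log X ^ (4 : ℝ) ≤ y → y ≤ Real.log X ^ a →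
      ∀ σ : ℝ, (σ = 1 ∨ σ = -1) → ∃ x : ℕ, X < x ∧ x ≤ 2 * X ∧
        δ ≤ σ * ((∑ m ∈ Finset.Ioc x (x + ⌊y⌋₊), In A m ω) / (y / Real.log x) - 1) := by
  obtain ⟨c, hcd⟩ : ∃ c : ℝ, c = min θ 1 := ⟨_, rfl⟩
  have hc : 0 < c := by rw [hcd]; exact lt_min hθ one_pos
  have hc1 : c ≤ 1 := hcd ▸ min_le_right _ _
  have hcθ : c ≤ θ := hcd ▸ min_le_left _ _
  obtain ⟨M0, hM0⟩ : ∃ M0 : ℕ, a < c * ((M0 : ℝ) - 2) := by
    refine ⟨⌈a / c⌉₊ + 3, ?_⟩
    have h1 : a / c ≤ ⌈a / c⌉₊ := Nat.le_ceil _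
    rw [div_le_iff₀ hc] at h1
    push_cast
    linarith
  have hM01 : 1 ≤ M0 := by
    by_contra h
    have : M0 = 0 := by omega
    rw [this] at hM0
    push_cast at hM0
    linarith
  obtain ⟨δ, hδd⟩ : ∃ δ : ℝ, δ = dl M0 := ⟨_, rfl⟩
  have hδ : 0 < δ := hδd ▸ dl_pos hM01
  have hδ1 : δ ≤ 1 := hδd ▸ dl_le_one hM01
  obtain ⟨η, hηd⟩ : ∃ η : ℝ, η = δ / 10 := ⟨_, rfl⟩
  have hη : 0 < η := by rw [hηd]; positivity
  obtain ⟨K, B, hK, H⟩ := row δ hδ hδ1
  refine ⟨δ / 2, by positivity, ?_⟩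
  intro Ω m0 μ _ ℱ A z hzm hzθ hz hM
  have hV := short Set.univ C z hz
  have hprof := profile (μ := μ) (ℱ := ℱ) Set.univ z hV hM.sieved hM.density
  filter_upwards [win_law hM.adapted Set.univ z hprof] with ω hω
  obtain ⟨X0, hX0⟩ := eventually_atTop.1 (hω η hη)
  obtain ⟨n0, hn0⟩ := eventually_atTop.1 (hV.and (hzθ.and hz))
  have E1 : ∀ᶠ X : ℝ in atTop, Real.log X ^ a ≤ X := by
    have h1 := (isLittleO_log_rpow_rpow_atTop a (show (0 : ℝ) < 1 by norm_num)).bound (show (0 : ℝ) < 1 by norm_num)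
    filter_upwards [h1, eventually_ge_atTop 1] with X h2 h3
    rw [Real.norm_eq_abs, Real.norm_eq_abs, abs_of_nonneg (Real.rpow_nonneg (Real.log_nonneg h3) _),
      Real.rpow_one, abs_of_nonneg (by linarith), one_mul] at h2
    exact h2
  have E2 : ∀ᶠ X : ℝ in atTop, K * ((2 * Real.log X) ^ C + 2) ^ B ≤ δ / 16 * √X := by
    have h1 := (isLittleO_log_rpow_rpow_atTop (C * B : ℕ) (show (0 : ℝ) < 1 / 2 by norm_num)).bound
      (show (0 : ℝ) < δ / 16 / (K * 3 ^ B * 2 ^ (C * B)) by positivity)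
    filter_upwards [h1, Real.tendsto_log_atTop.eventually_ge_atTop 1, eventually_ge_atTop 1] with X h2 h3 h4
    rw [Real.norm_eq_abs, Real.norm_eq_abs, abs_of_nonneg (Real.rpow_nonneg (by linarith) _),
      abs_of_nonneg (Real.rpow_nonneg (by linarith) _), Real.rpow_natCast, ← Real.sqrt_eq_rpow] at h2
    have h5 : 1 ≤ (2 * Real.log X) ^ C := one_le_pow₀ (by linarith)
    calc K * ((2 * Real.log X) ^ C + 2) ^ B ≤ K * (3 * (2 * Real.log X) ^ C) ^ B := by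
          gcongr
          linarith
      _ = K * 3 ^ B * 2 ^ (C * B) * Real.log X ^ (C * B) := by
          rw [mul_pow, ← pow_mul, mul_pow]
          ring
      _ ≤ K * 3 ^ B * 2 ^ (C * B) * (δ / 16 / (K * 3 ^ B * 2 ^ (C * B)) * √X) := by gcongr
      _ = δ / 16 * √X := by field_simp
  have hcnt := cntZ c 4 a M0 hc hc1 (by norm_num) ha hM0
  have hlogR := Real.tendsto_log_atTop
  have hall := hcnt.and (E1.and (E2.and ((hlogR.eventually_ge_atTop (1536 / η ^ 2)).and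
    ((hlogR.eventually_ge_atTop (Real.log 2 / η)).and ((hlogR.eventually_ge_atTop 1).and
      (eventually_ge_atTop 16))))))
  filter_upwards [tendsto_natCast_atTop_atTop.eventually hall, eventually_ge_atTop X0, eventually_ge_atTop n0]
    with X hX hXX0 hXn0 y hy0 hy1 σ hσ
  obtain ⟨k1, k2, k3, k4, k5, k6, k7⟩ := hX
  obtain ⟨Q, hQ1, hQ2, hQ3, hQ4⟩ := k1 y hy0 hy1 σ hσ
  obtain ⟨L, hL⟩ : ∃ L, L = Real.log (X : ℝ) := ⟨_, rfl⟩
  rw [← hL] at k2 k3 k4 k5 k6 hy0 hy1 hQ2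
  have hXR : (16 : ℝ) ≤ X := k7
  have hX16 : 16 ≤ X := by exact_mod_cast hXR
  have hL0 : 0 < L := by linarith
  have hyL : L ^ 4 ≤ y := by
    have : L ^ (4 : ℝ) = L ^ 4 := by
      rw [show (4 : ℝ) = ((4 : ℕ) : ℝ) by norm_num, Real.rpow_natCast]
    rwa [← this]
  have hyy : 1 ≤ y := le_trans (one_le_pow₀ k6) hyL
  have hyX : y ≤ X := hy1.trans k2
  obtain ⟨Y, hY⟩ : ∃ Y, Y = ⌊y⌋₊ := ⟨_, rfl⟩
  have hYy : (Y : ℝ) ≤ y := hY ▸ Nat.floor_le (by linarith)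
  have hYX : Y ≤ X := by
    have : (Y : ℝ) ≤ X := hYy.trans hyX
    exact_mod_cast this
  obtain ⟨W, hW⟩ : ∃ W, W = ∏ p ∈ Q, p := ⟨_, rfl⟩
  have hWpos : 0 < W := by
    rw [hW]
    exact Finset.prod_pos fun p hp => (hQ1 p hp).1.pos
  have hWR : (0 : ℝ) < W := by exact_mod_cast hWpos
  have hsX : √(X : ℝ) * √(X : ℝ) = X := Real.mul_self_sqrt (by linarith)
  have hsX4 : 4 ≤ √(X : ℝ) := by
    rw [show (4 : ℝ) = √16 by rw [show (16 : ℝ) = 4 ^ 2 by norm_num, Real.sqrt_sq (by norm_num)]]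
    exact Real.sqrt_le_sqrt hXR
  have hWs : (W : ℝ) ≤ √(X : ℝ) := by
    rw [← hW] at hQ2
    have h1 : L ^ c ≤ L := by
      calc L ^ c ≤ L ^ (1 : ℝ) := Real.rpow_le_rpow_of_exponent_le k6 hc1
        _ = L := Real.rpow_one L
    have h2 : Real.exp (L / 2) = √(X : ℝ) := by
      rw [Real.sqrt_eq_rpow, Real.rpow_def_of_pos (by linarith), ← hL]
      congr 1
      ring
    rw [← h2]
    refine hQ2.trans (Real.exp_le_exp.2 (by linarith))
  have hXW : √(X : ℝ) ≤ X / W := by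
    rw [le_div_iff₀ hWR]
    calc √(X : ℝ) * W ≤ √(X : ℝ) * √(X : ℝ) := by gcongr
      _ = X := hsX
  obtain ⟨M, hMd⟩ : ∃ M, M = X / W + 1 := ⟨_, rfl⟩
  obtain ⟨N, hNd⟩ : ∃ N, N = 2 * X / W := ⟨_, rfl⟩
  have hWM : X < W * M := hMd ▸ Nat.lt_mul_div_succ X hWpos
  have hWN : W * N ≤ 2 * X := hNd ▸ Nat.mul_div_le (2 * X) W
  have hMle : (M : ℝ) ≤ X / W + 1 := by
    rw [hMd]
    push_cast
    have := Nat.cast_div_le (α := ℝ) (m := X) (n := W)
    linarith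
  have hNge : 2 * (X / W) - 1 ≤ (N : ℝ) := by
    have h1 : 2 * X < W * (N + 1) := hNd ▸ Nat.lt_mul_div_succ (2 * X) hWpos
    have h2 : (2 : ℝ) * X < W * (N + 1) := by exact_mod_cast h1
    have h3 : 2 * (X / W : ℝ) < N + 1 := by
      rw [← mul_div_assoc, div_lt_iff₀ hWR]
      linarith
    linarith
  have hD : √(X : ℝ) / 2 ≤ (N : ℝ) - M := by linarith
  have hMN : M < N := by
    have : (M : ℝ) < N := by linarith
    exact_mod_cast this
  have hlog3 : Real.log ((3 * X : ℕ) : ℝ) ≤ 2 * L := by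
    have h1 : Real.log ((3 * X : ℕ) : ℝ) ≤ Real.log ((X : ℝ) ^ 2) := by
      have h0 : (0 : ℝ) < ((3 * X : ℕ) : ℝ) := by
        push_cast
        linarith
      apply Real.log_le_log h0
      push_cast
      rw [sq]
      exact mul_le_mul_of_nonneg_right (by linarith) (by linarith)
    rw [Real.log_pow, ← hL] at h1
    push_cast at h1 ⊢
    linarith
  have hzN : (z (W * N + Y) : ℝ) ≤ (2 * L) ^ C := by
    have h1 : z (W * N + Y) ≤ z (3 * X) := hzm (by omega)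
    have h2 : (z (W * N + Y) : ℝ) ≤ z (3 * X) := by exact_mod_cast h1
    refine h2.trans (((hn0 (3 * X) (by omega)).2.2).trans ?_)
    exact pow_le_pow_left₀ (Real.log_natCast_nonneg _) hlog3 C
  have hQz : ∀ p ∈ Q, p.Prime ∧ p ≤ z (W * M) := by
    intro p hp
    obtain ⟨h1, h2⟩ := hQ1 p hp
    refine ⟨h1, ?_⟩
    rw [← hL] at h2
    have h3 : (p : ℝ) ≤ z X := by
      refine h2.trans (le_trans ?_ (hn0 X hXn0).2.1)
      rw [← hL]
      exact Real.rpow_le_rpow_of_exponent_le k6 hcθ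
    have h4 : p ≤ z X := by exact_mod_cast h3
    exact h4.trans (hzm hWM.le)
  have hKB : K * ((z (W * N + Y) : ℝ) + 2) ^ B ≤ δ / 4 * ((N : ℝ) - M) := by
    calc K * ((z (W * N + Y) : ℝ) + 2) ^ B ≤ K * ((2 * L) ^ C + 2) ^ B := by gcongr
      _ ≤ δ / 16 * √(X : ℝ) := k3
      _ ≤ δ / 4 * (√(X : ℝ) / 2) := by
          have h9 := mul_nonneg hδ.le (Real.sqrt_nonneg (X : ℝ))
          linarith
      _ ≤ δ / 4 * ((N : ℝ) - M) := by gcongr
  obtain ⟨k, hk1, hk2, hk3⟩ := H z hzm Q y M N hyy hMN (by rw [← hW]; exact hQz)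
    (by rw [← hW, ← hY]; exact hKB) σ hσ (hδd ▸ hQ4)
  rw [← hW, ← hY] at hk3
  obtain ⟨x, hx⟩ : ∃ x, x = W * k := ⟨_, rfl⟩
  rw [← hx] at hk3
  have hxX : X < x := by
    rw [hx]
    calc X < W * M := hWM
      _ ≤ W * k := Nat.mul_le_mul_left W hk1.le
  have hx2 : x ≤ 2 * X := by
    rw [hx]
    exact (Nat.mul_le_mul_left W hk2).trans hWN
  refine ⟨x, hxX, hx2, ?_⟩
  rw [← hY]
  have hxR : (X : ℝ) < x := by exact_mod_cast hxX
  have hx0 : (0 : ℝ) < x := by linarith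
  have hx2R : (x : ℝ) ≤ 2 * X := by exact_mod_cast hx2
  obtain ⟨Lx, hLx⟩ : ∃ Lx, Lx = Real.log (x : ℝ) := ⟨_, rfl⟩
  rw [← hLx]
  have hLLx : L ≤ Lx := by
    rw [hL, hLx]
    exact Real.log_le_log (by linarith) hxR.le
  have hl2 := Real.log_two_lt_d9
  have hLx2 : Lx ≤ 2 * L := by
    rw [hLx]
    have h1 : Real.log (x : ℝ) ≤ Real.log (2 * X) := Real.log_le_log hx0 hx2R
    rw [Real.log_mul (by norm_num) (by linarith), ← hL] at h1
    linarith
  have hw := hX0 (x + Y) (by omega) x (x + Y) (by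
    have h1 : x + Y < 2 ^ (x + 1) := by
      have : x < 2 ^ x := Nat.lt_two_pow_self
      rw [pow_succ]
      omega
    have := Nat.log_lt_of_lt_pow (b := 2) (by omega) h1
    omega) (by omega) le_rfl
  have e0 : (((x + Y : ℕ)) : ℝ) - x = Y := by
    push_cast
    ring
  rw [e0] at hw
  have hΛ : Real.log ((x + Y : ℕ) : ℝ) ≤ 2 * Lx := by
    have hY0 : (0 : ℝ) ≤ Y := Nat.cast_nonneg Y
    have h1 : Real.log ((x + Y : ℕ) : ℝ) ≤ Real.log ((x : ℝ) ^ 2) := by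
      have h0 : (0 : ℝ) < ((x + Y : ℕ) : ℝ) := by
        push_cast
        linarith
      apply Real.log_le_log h0
      have h8 : (Y : ℝ) ≤ X := by exact_mod_cast hYX
      have h9 : 2 * (x : ℝ) ≤ (x : ℝ) * x := mul_le_mul_of_nonneg_right (by linarith) hx0.le
      push_cast
      rw [sq]
      linarith
    rw [Real.log_pow, ← hLx] at h1
    push_cast at h1 ⊢
    linarith
  have g4 : |(∑ m ∈ Finset.Ioc x (x + Y), rho1 Set.univ z m) * Lx - GG z x Y| ≤ η * GG z x Y := by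
    unfold GG
    rw [Finset.sum_mul, ← Finset.sum_sub_distrib, Finset.mul_sum]
    refine (Finset.abs_sum_le_sum_abs _ _).trans (Finset.sum_le_sum fun m hm => ?_)
    rw [Finset.mem_Ioc] at hm
    have hmx : (x : ℝ) < m := by exact_mod_cast hm.1
    have hm2 : (m : ℝ) ≤ 2 * x := by
      have h1 : m ≤ 2 * x := by omega
      exact_mod_cast h1
    have hlm : Lx ≤ Real.log m := hLx ▸ Real.log_le_log hx0 hmx.le
    have hlm2 : Real.log m ≤ Lx + Real.log 2 := by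
      have h1 : Real.log m ≤ Real.log (2 * x) := Real.log_le_log (by linarith) hm2
      rw [Real.log_mul (by norm_num) hx0.ne', ← hLx] at h1
      linarith
    have hlm0 : 0 < Real.log m := by linarith
    have e1 : rho1 Set.univ z m = hh Set.univ z m / Real.log m := by
      unfold rho1 hh
      split_ifs
      · rw [min_eq_right (hn0 m (by omega)).1.le]
      · simp
    have hhn := hh_nonneg Set.univ z m
    have e2 : hh Set.univ z m / Real.log m * Lx - hh Set.univ z m =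
        -(hh Set.univ z m * ((Real.log m - Lx) / Real.log m)) := by
      field_simp
      ring
    rw [e1, e2, abs_neg, abs_mul, abs_of_nonneg hhn, abs_of_nonneg (div_nonneg (by linarith) hlm0.le), mul_comm η]
    refine mul_le_mul_of_nonneg_left ?_ hhn
    rw [div_le_iff₀ hlm0]
    rw [div_le_iff₀ hη] at k5
    have h9 : L * η ≤ Real.log m * η := mul_le_mul_of_nonneg_right (by linarith) hη.le
    linarith
  have hG0 : 0 ≤ GG z x Y := Finset.sum_nonneg fun m _ => hh_nonneg _ _ _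
  have hLx0 : 0 < Lx := by linarith
  have h5 : 192 * Lx ^ 3 ≤ η ^ 2 * y := by
    rw [div_le_iff₀ (by positivity)] at k4
    calc 192 * Lx ^ 3 ≤ 192 * (2 * L) ^ 3 := by gcongr
      _ = 1536 * L ^ 3 := by ring
      _ ≤ (L * η ^ 2) * L ^ 3 := by gcongr
      _ = η ^ 2 * L ^ 4 := by ring
      _ ≤ η ^ 2 * y := by gcongr
  have fin := mai_num Lx (Real.log ((x + Y : ℕ) : ℝ)) η δ y Y (∑ m ∈ Finset.Ioc x (x + Y), In A m ω)
    (∑ m ∈ Finset.Ioc x (x + Y), rho1 Set.univ z m) (GG z x Y) σ (by linarith) (Real.log_natCast_nonneg _) hΛ hη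
    (by linarith) hδ1 hyy (Nat.cast_nonneg Y) hYy hw g4 h5 hG0 hσ hk3
  have hy00 : 0 < y := by linarith
  have e3 : σ * ((∑ m ∈ Finset.Ioc x (x + Y), In A m ω) / (y / Lx) - 1) =
      σ * ((∑ m ∈ Finset.Ioc x (x + Y), In A m ω) * Lx - y) / y := by
    field_simp
  rw [e3, le_div_iff₀ hy00]
  exact fin

end Pool.Agent.J6H13.UM
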