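import Mathlib
import Pool.Agent.J6H13.UM.All

/-! # Quadruples and twins in short intervals (helper13) -/

set_option autoImplicit false
set_option linter.unusedSectionVars false

namespace Pool.Agent.J6H13.UM

open Filter MeasureTheory Asymptotics
open Pool.Agent.R528.RM
open scoped Topology

lemma cnt_le {Ω : Type} {A : ℕ → Set Ω} {ω : Ω} {L : Finset (ℕ × ℕ)} {M N : ℕ} {T : Set ℕ} (hT : T.Finite)
    (g : ℕ → ℕ) (hg : Function.Injective g)
    (h : ∀ n, M < n → n ≤ N → (∀ f ∈ L, ω ∈ A (f.1 * n + f.2)) → g n ∈ T) : cnt A ω L M N ≤ T.ncard := by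
  classical
  unfold cnt
  rw [← Finset.card_image_of_injective _ hg, ← Set.ncard_coe_finset]
  apply Set.ncard_le_ncard _ hT
  intro n hn
  rw [Finset.mem_coe, Finset.mem_image] at hn
  obtain ⟨t, ht, rfl⟩ := hn
  rw [Finset.mem_filter, Finset.mem_Ioc] at ht
  exact h t ht.1.1 ht.1.2 ht.2

/-- the forms `2 t + X + h`, `h = 0, 2, 6, 8` -/
def quadL (X : ℕ) : Finset (ℕ × ℕ) := {(2, X), (2, X + 2), (2, X + 6), (2, X + 8)}

lemma mem_quadL {X : ℕ} {f : ℕ × ℕ} : f ∈ quadL X ↔ f = (2, X) ∨ f = (2, X + 2) ∨ f = (2, X + 6) ∨ f = (2, X + 8) := by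
  unfold quadL
  simp only [Finset.mem_insert, Finset.mem_singleton]

lemma quad_adm (P : Set ℕ) (X : ℕ) (hX : Odd X) : Adm P (quadL X) := by
  intro p _ hp
  obtain ⟨Y, hY⟩ := hX
  rcases hp.eq_two_or_odd' with h2 | h2
  · subst h2
    refine ⟨0, fun f hf => ?_⟩
    rcases mem_quadL.1 hf with rfl | rfl | rfl | rfl <;> simp only <;> omega
  · obtain ⟨m, hm⟩ := h2
    obtain ⟨r, hr⟩ : ∃ r : ℕ, ∀ h ∈ ({0, 2, 6, 8} : Finset ℕ), ¬ p ∣ r + h := by
      by_cases h3 : p = 3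
      · subst h3
        exact ⟨2, by decide⟩
      · by_cases h7 : p = 7
        · subst h7
          exact ⟨2, by decide⟩
        · by_cases h5 : p = 5
          · subst h5
            exact ⟨1, by decide⟩
          · refine ⟨1, fun h hh hd => ?_⟩
            have h10 : 11 ≤ p := by
              by_contra hlt
              have : p = 1 ∨ p = 9 := by omega
              rcases this with h | h
              · subst h; exact absurd hp (by norm_num)
              · subst h; exact absurd hp (by norm_num)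
            have h8 : h ≤ 8 := by
              simp only [Finset.mem_insert, Finset.mem_singleton] at hh
              omega
            have := Nat.le_of_dvd (by omega) hd
            omega
    refine ⟨(m + 1) * (r + (2 * m) * X), fun f hf => ?_⟩
    have key : ∀ h ∈ ({0, 2, 6, 8} : Finset ℕ), ¬ p ∣ 2 * ((m + 1) * (r + (2 * m) * X)) + (X + h) := by
      intro h hh hd
      have e1 : 2 * ((m + 1) * (r + (2 * m) * X)) + (X + h) = (r + h) + p * (r + p * X) := by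
        rw [hm]
        ring
      rw [e1] at hd
      exact hr h hh ((Nat.dvd_add_left (Dvd.intro _ rfl)).1 hd)
    rcases mem_quadL.1 hf with rfl | rfl | rfl | rfl
    · exact key 0 (by simp)
    · exact key 2 (by simp)
    · exact key 6 (by simp)
    · exact key 8 (by simp)

/-- quadruples of chosen integers starting with an odd integer in short intervals -/
theorem quad_short {Ω : Type} (P : Set ℕ) (T T2 : ℕ → ℝ) (A : ℕ → Set Ω) (ω : Ω)
    (hT0 : ∀ᶠ X : ℕ in atTop, 0 < T (2 * X + 9)) (hT : ∀ᶠ X : ℕ in atTop, 4 * T (2 * X + 9) ≤ T2 X)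
    (h8 : ∀ᶠ X : ℕ in atTop, 8 ≤ T2 X)
    (hG : ∀ᶠ x : ℕ in atTop, Good P 4 x (T x) A ω) :
    ∀ᶠ X : ℕ in atTop, ∀ N : ℕ, N ≤ X → T2 X ≤ N → (N : ℝ) / T2 X ≤
      ({n : ℕ | X < n ∧ n ≤ X + N ∧ Odd n ∧ ω ∈ A n ∧ ω ∈ A (n + 2) ∧ ω ∈ A (n + 6) ∧ ω ∈ A (n + 8)}.ncard : ℝ) := by
  classical
  have htend : Tendsto (fun X : ℕ => 2 * X + 9) atTop atTop :=
    tendsto_atTop.2 fun b => by
      filter_upwards [eventually_ge_atTop b] with X hX
      omega
  filter_upwards [htend.eventually hG, hT, h8, hT0, eventually_ge_atTop 1] with X h1 h2 h3 h0 h4 N hN1 hN2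
  obtain ⟨X', hX', hX'1, hX'2⟩ : ∃ X', Odd X' ∧ X ≤ X' ∧ X' ≤ X + 1 := by
    rcases Nat.even_or_odd X with h | h
    · exact ⟨X + 1, h.add_one, by omega, le_rfl⟩
    · exact ⟨X, h, le_rfl, by omega⟩
  have hN8 : 8 ≤ N := by
    have : (8 : ℝ) ≤ N := h3.trans hN2
    exact_mod_cast this
  obtain ⟨M, hM⟩ : ∃ M, M = (N - 1) / 2 := ⟨_, rfl⟩
  have hM4 : N ≤ 4 * M := by omega
  have hM4' : (N : ℝ) / 4 ≤ M := by
    have : (N : ℝ) ≤ 4 * M := by exact_mod_cast hM4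
    linarith
  have hcard : (quadL X').card ≤ 4 := by
    unfold quadL
    exact Finset.card_le_four
  have h5 := h1 (quadL X') ⟨(2, X'), mem_quadL.2 (Or.inl rfl)⟩ hcard
    (by
      intro f hf
      rcases mem_quadL.1 hf with rfl | rfl | rfl | rfl <;> simp only <;> omega)
    (quad_adm P X' hX') M (by omega) (by linarith)
  have h6 : (N : ℝ) / T2 X ≤ M / T (2 * X + 9) := by
    have hT2 : 0 < T2 X := by linarith
    rw [div_le_div_iff₀ hT2 h0]
    have : (0 : ℝ) ≤ M := Nat.cast_nonneg M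
    nlinarith
  refine h6.trans (h5.trans ?_)
  have hfin : {n : ℕ | X < n ∧ n ≤ X + N ∧ Odd n ∧ ω ∈ A n ∧ ω ∈ A (n + 2) ∧ ω ∈ A (n + 6) ∧ ω ∈ A (n + 8)}.Finite :=
    (Set.finite_le_nat (X + N)).subset fun n hn => hn.2.1
  have h7 := cnt_le (A := A) (ω := ω) (L := quadL X') (M := Nat.log 2 (2 * X + 9)) (N := M) hfin
    (fun t : ℕ => 2 * t + X') (fun a b hab => by
      simp only at hab
      omega)
    (fun t t1 t2 t3 => by
      have q0 := t3 (2, X') (mem_quadL.2 (Or.inl rfl))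
      have q2 := t3 (2, X' + 2) (mem_quadL.2 (Or.inr (Or.inl rfl)))
      have q6 := t3 (2, X' + 6) (mem_quadL.2 (Or.inr (Or.inr (Or.inl rfl))))
      have q8 := t3 (2, X' + 8) (mem_quadL.2 (Or.inr (Or.inr (Or.inr rfl))))
      simp only [← add_assoc] at q0 q2 q6 q8
      obtain ⟨j, hj⟩ := hX'
      exact ⟨by omega, by omega, ⟨t + j, by omega⟩, q0, q2, q6, q8⟩)
  exact_mod_cast h7

/-- the forms `t + n ^ 3 + h`, `h = 0, 2` -/
def twinL (X : ℕ) : Finset (ℕ × ℕ) := {(1, X), (1, X + 2)}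

lemma mem_twinL {X : ℕ} {f : ℕ × ℕ} : f ∈ twinL X ↔ f = (1, X) ∨ f = (1, X + 2) := by
  unfold twinL
  simp only [Finset.mem_insert, Finset.mem_singleton]

lemma twin_adm (P : Set ℕ) (X : ℕ) : Adm P (twinL X) := by
  intro p _ hp
  obtain ⟨r, hr0, hr2⟩ : ∃ r : ℕ, ¬ p ∣ r ∧ ¬ p ∣ r + 2 := by
    by_cases h3 : p = 3
    · subst h3
      exact ⟨2, by decide, by decide⟩
    · refine ⟨1, fun h => ?_, fun h => ?_⟩
      · exact hp.one_lt.ne' (Nat.dvd_one.1 h)
      · exact h3 ((Nat.prime_dvd_prime_iff_eq hp Nat.prime_three).1 h)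
  have hp1 := hp.one_lt
  obtain ⟨m, hm⟩ : ∃ m, p = m + 1 := ⟨p - 1, by omega⟩
  refine ⟨r + m * X, fun f hf => ?_⟩
  rcases mem_twinL.1 hf with rfl | rfl
  · intro hd
    have e1 : 1 * (r + m * X) + X = r + p * X := by rw [hm]; ring
    simp only at hd
    rw [e1] at hd
    exact hr0 ((Nat.dvd_add_left (Dvd.intro _ rfl)).1 hd)
  · intro hd
    have e1 : 1 * (r + m * X) + (X + 2) = (r + 2) + p * X := by rw [hm]; ring
    simp only at hd
    rw [e1] at hd
    exact hr2 ((Nat.dvd_add_left (Dvd.intro _ rfl)).1 hd)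

/-- twins of chosen integers between consecutive cubes -/
theorem twin_cubes {Ω : Type} (P : Set ℕ) (T T2 : ℕ → ℝ) (A : ℕ → Set Ω) (ω : Ω)
    (hT0 : ∀ᶠ n : ℕ in atTop, 0 < T ((n + 1) ^ 3)) (hT : ∀ᶠ n : ℕ in atTop, T ((n + 1) ^ 3) ≤ T2 n)
    (hT2 : ∀ᶠ n : ℕ in atTop, T2 n ≤ n)
    (hG : ∀ᶠ x : ℕ in atTop, Good P 2 x (T x) A ω) :
    ∀ᶠ n : ℕ in atTop, (n : ℝ) ^ 2 / T2 n ≤
      ({p : ℕ | ω ∈ A p ∧ ω ∈ A (p + 2) ∧ n ^ 3 < p ∧ p + 2 < (n + 1) ^ 3}.ncard : ℝ) := by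
  classical
  have htend : Tendsto (fun n : ℕ => (n + 1) ^ 3) atTop atTop :=
    tendsto_atTop.2 fun b => by
      filter_upwards [eventually_ge_atTop b] with n hn
      have : n + 1 ≤ (n + 1) ^ 3 := Nat.le_self_pow (by norm_num) _
      omega
  filter_upwards [htend.eventually hG, hT0, hT, hT2, eventually_ge_atTop 2] with n h1 h0 h2 h3 h4
  obtain ⟨N, hN⟩ : ∃ N, N = 3 * n ^ 2 + 3 * n - 2 := ⟨_, rfl⟩
  have hn2 : n ≤ n ^ 2 := Nat.le_self_pow (by norm_num) n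
  have hcube : (n + 1) ^ 3 = n ^ 3 + (3 * n ^ 2 + 3 * n + 1) := by ring
  have hNn : n ^ 2 ≤ N := by omega
  have hNx : N ≤ (n + 1) ^ 3 := by omega
  have hn3 : 2 ≤ n ^ 3 := h4.trans (Nat.le_self_pow (by norm_num) n)
  have hnN : (n : ℝ) ≤ N := by exact_mod_cast hn2.trans hNn
  have hcard : (twinL (n ^ 3)).card ≤ 2 := by
    unfold twinL
    exact Finset.card_le_two
  have h5 := h1 (twinL (n ^ 3)) ⟨(1, n ^ 3), mem_twinL.2 (Or.inl rfl)⟩ hcard
    (by
      intro f hf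
      rcases mem_twinL.1 hf with rfl | rfl <;> simp only <;> omega)
    (twin_adm P (n ^ 3)) N hNx (by linarith)
  have h6 : (n : ℝ) ^ 2 / T2 n ≤ N / T ((n + 1) ^ 3) := by
    have hNn' : (n : ℝ) ^ 2 ≤ N := by exact_mod_cast hNn
    gcongr
  refine h6.trans (h5.trans ?_)
  have hfin : {p : ℕ | ω ∈ A p ∧ ω ∈ A (p + 2) ∧ n ^ 3 < p ∧ p + 2 < (n + 1) ^ 3}.Finite :=
    (Set.finite_le_nat ((n + 1) ^ 3)).subset fun p hp => by
      have := hp.2.2.2
      show p ≤ _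
      omega
  have h7 := cnt_le (A := A) (ω := ω) (L := twinL (n ^ 3)) (M := Nat.log 2 ((n + 1) ^ 3)) (N := N) hfin
    (fun t : ℕ => 1 * t + n ^ 3) (fun a b hab => by
      simp only at hab
      omega)
    (fun t t1 t2 t3 => by
      have q0 := t3 (1, n ^ 3) (mem_twinL.2 (Or.inl rfl))
      have q2 := t3 (1, n ^ 3 + 2) (mem_twinL.2 (Or.inr rfl))
      simp only [← add_assoc] at q0 q2
      refine ⟨q0, q2, ?_, ?_⟩ <;> omega)
  exact_mod_cast h7

end Pool.Agent.J6H13.UM
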